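import Pool.Agent.Lib.MP_4eb50a_lc.Main

/-!
# The decision procedure is polynomial-time
-/

set_option linter.unusedVariables false

namespace Pool.Agent.Lib.MP_4eb50a_lc

variable {α β γ : Type} [Code α] [Code β] [Code γ]

variable {n : ℕ} {fq : List Word → Word} {lv : List Word → Bool → List (List Bool)}

/-! ### conjunctions -/

section star

variable (hfq : PT fq) (hlv : PT fun p : List Word × Bool => lv p.1 p.2)

include hlv in
theorem pt_isPat {t : α → List Lit} (ht : PT t) : PT fun x => isPat lv (t x) := by
  have h1 : PT fun x => (t x).map Prod.snd := PT.map (g := fun _ e => e.2) ht (PT.snd PT.snd')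
  have h2 : PT fun x => (t x).map Prod.fst := PT.map (g := fun _ e => e.1) ht (PT.fst PT.snd')
  exact PT.contains (PT.append (hlv.comp (PT.pair h2 (PT.const true)))
    (hlv.comp (PT.pair h2 (PT.const false)))) h1

include hlv in
theorem pt_ok {w : α → List Lit} (hw : PT w) : PT fun x => ok n lv (w x) :=
  PT.all (g := fun _ t => isPat lv t) (PT.tuples hw n) (pt_isPat hlv PT.snd')

include hfq hlv in
theorem pt_forced {t : α → List Lit} (ht : PT t) : PT fun x => forced fq lv (t x) := by
  have h1 : PT fun x => (t x).map Prod.snd := PT.map (g := fun _ e => e.2) ht (PT.snd PT.snd')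
  have h2 : PT fun x => (t x).map Prod.fst := PT.map (g := fun _ e => e.1) ht (PT.fst PT.snd')
  have h3 : PT fun x => fq ((t x).map Prod.fst) := hfq.comp h2
  exact PT.append
    (PT.ite (PT.contains (hlv.comp (PT.pair h2 (PT.const false))) h1) (PT.nil (β := Lit))
      (PT.singleton (PT.pair h3 (PT.const true))))
    (PT.ite (PT.contains (hlv.comp (PT.pair h2 (PT.const true))) h1) (PT.nil (β := Lit))
      (PT.singleton (PT.pair h3 (PT.const false))))

include hfq hlv in
theorem pt_ext {w : α → List Lit} (hw : PT w) : PT fun x => ext n fq lv (w x) :=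
  PT.append hw (PT.flatMap (g := fun _ t => forced fq lv t) (PT.tuples hw n)
    (pt_forced hfq hlv PT.snd'))

include hfq hlv in
theorem pt_alive {w : α → List Lit} (hw : PT w) : PT fun x => alive n fq lv (w x) :=
  pt_ok hlv (pt_ext hfq hlv hw)

theorem pt_flip {m : α → Lit} {Z : α → List Lit} (hm : PT m) (hZ : PT Z) :
    PT fun x => flip (m x) (Z x) :=
  PT.map (g := fun x l => if decide (l = m x) then (l.1, !l.2) else l) hZ
    (PT.ite (PT.eq PT.snd' (hm.comp PT.fst')) (PT.pair (PT.fst PT.snd')
      (PT.not (PT.snd PT.snd'))) PT.snd')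

include hfq hlv in
theorem pt_cands {Z : α → List Lit} (hZ : PT Z) : PT fun x => cands n fq lv (Z x) :=
  PT.take1 (PT.filter (g := fun x m => !(alive n fq lv (flip m (Z x)))) hZ
    (PT.not (pt_alive hfq hlv (pt_flip PT.snd' (hZ.comp PT.fst')))))

include hfq hlv in
theorem pt_red {Z : α → List Lit} (hZ : PT Z) : PT fun x => red n fq lv (Z x) :=
  PT.ite (pt_alive hfq hlv hZ)
    (PT.singleton (PT.filter (g := fun x l => !(decide (l ∈ cands n fq lv (Z x)))) hZ
      (PT.not (PT.contains (pt_cands hfq hlv (hZ.comp PT.fst')) PT.snd'))))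
    (PT.nil (β := List Lit))

include hfq hlv in
theorem pt_shrinkStep {S : α → List (List Lit)} {l : α → Lit} (hS : PT S) (hl : PT l) :
    PT fun x => shrinkStep n fq lv (S x) (l x) :=
  PT.flatMap (g := fun x Z => if decide (l x ∈ Z) then [Z] else red n fq lv (l x :: Z)) hS
    (PT.ite (PT.contains PT.snd' (hl.comp PT.fst')) (PT.singleton PT.snd')
      (pt_red hfq hlv (PT.cons (hl.comp PT.fst') PT.snd')))

theorem shrinkStep_sub {S : List (List Lit)} {l : Lit} {Z : List Lit}
    (h : Z ∈ shrinkStep n fq lv S l) :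
    ∃ Z' ∈ S, Z.length ≤ Z'.length + 1 ∧ ∀ m ∈ Z, m = l ∨ m ∈ Z' := by
  rw [shrinkStep, List.mem_flatMap] at h
  obtain ⟨Z', hZ', h⟩ := h
  refine ⟨Z', hZ', ?_⟩
  split_ifs at h with hc
  · rw [List.mem_singleton] at h
    subst h
    exact ⟨by omega, fun m hm => .inr hm⟩
  · rw [red] at h
    split_ifs at h with ha
    · rw [List.mem_singleton] at h
      subst h
      refine ⟨(List.length_filter_le _ _).trans (by simp), fun m hm => ?_⟩
      exact List.mem_cons.1 (List.mem_filter.1 hm).1
    · simp at h

include hfq hlv in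
theorem pt_shrink {Y : α → List Lit} (hY : PT Y) : PT fun x => shrink n fq lv (Y x) := by
  obtain ⟨BY, hBY, hmY, hdY⟩ := hY.dep_bound
  exact PT.foldl (init := fun _ => [[]]) (step := fun _ S l => shrinkStep n fq lv S l) hY
    (PT.const _) (pt_shrinkStep hfq hlv (PT.fst PT.snd') (PT.snd PT.snd'))
    (fun d => 1 + (BY d + BY d)) ((PB.const 1).add (hBY.add hBY))
    (fun x i S => S.length ≤ 1 ∧ ∀ Z ∈ S, Z.length ≤ i ∧ ∀ l ∈ Z, l ∈ Y x)
    (fun x => ⟨by simp, by simp⟩)
    (fun x i S l hl _ h => ⟨shrinkStep_length h.1, fun Z hZ => by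
      obtain ⟨Z', h1, h2, h3⟩ := shrinkStep_sub hZ
      refine ⟨h2.trans (Nat.succ_le_succ (h.2 Z' h1).1), fun m hm => ?_⟩
      rcases h3 m hm with rfl | hm
      · exact hl
      · exact (h.2 Z' h1).2 m hm⟩)
    (fun x i S hi h => by
      have h1 := hdY x
      have h2 := length_le_dep (Y x)
      have h3 : ∀ Z ∈ S, (enc Z).dep ≤ BY (enc x).dep + BY (enc x).dep := by
        intro Z hZ
        have h4 := dep_encList_le (l := Z) (M := BY (enc x).dep)
          fun l hl => (dep_lt_of_mem ((h.2 Z hZ).2 l hl)).le.trans h1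
        have h5 := (h.2 Z hZ).1
        omega
      have h4 := dep_encList_le h3
      have h5 := h.1
      try simp only
      omega)

end star

/-! ### worlds -/

section worlds

variable {gs : α → List Bool → Word ⊕ Bool} {fl : α → List Unit}

theorem pt_look {K : α → List Lit} {z : α → Word} (hK : PT K) (hz : PT z) :
    PT fun x => look (K x) (z x) :=
  PT.take1 (PT.map (g := fun _ e => e.2)
    (PT.filter (g := fun x e => decide (e.1 = z x)) hK (PT.eq (PT.fst PT.snd') (hz.comp PT.fst')))
    (PT.snd PT.snd'))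

theorem pt_rstep (hgs : PT fun p : α × List Bool => gs p.1 p.2) {K : α → List Lit}
    {a : α → List Bool} (hK : PT K) (ha : PT a) : PT fun x => rstep (gs x) (K x) (a x) :=
  PT.sumCases (f := fun x => gs x (a x)) (g := fun x z => a x ++ look (K x) z)
    (h := fun x _ => a x) (hgs.comp (PT.pair PT.id ha))
    (PT.append (ha.comp PT.fst') (pt_look (hK.comp PT.fst') PT.snd')) (ha.comp PT.fst')

theorem rstep_length (g : List Bool → Word ⊕ Bool) (K : List Lit) (a : List Bool) :
    (rstep g K a).length ≤ a.length + 1 := by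
  rw [rstep]
  cases g a with
  | inr o => simp
  | inl z =>
    have := look_length K z
    simp only [Sum.elim_inl, List.length_append]
    omega

theorem pt_runW (hgs : PT fun p : α × List Bool => gs p.1 p.2) (hfl : PT fl) {K : α → List Lit}
    (hK : PT K) : PT fun x => runW (gs x) (fl x) (K x) := by
  obtain ⟨Bf, hBf, hmf, hdf⟩ := hfl.dep_bound
  have hstep : PT fun p : α × (List Bool × Unit) => rstep (gs p.1) (K p.1) p.2.1 :=
    pt_rstep (α := α × (List Bool × Unit)) (gs := fun p => gs p.1)
      (hgs.comp (PT.pair (PT.fst PT.fst') PT.snd')) (hK.comp PT.fst') (PT.fst PT.snd')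
  exact PT.foldl (init := fun _ => ([] : List Bool)) (step := fun x a _ => rstep (gs x) (K x) a)
    hfl (PT.const _) hstep (fun d => Bf d + 1) (hBf.add (PB.const 1))
    (fun x i a => a.length ≤ i) (fun x => by simp)
    (fun x i a c _ _ h => (rstep_length _ _ _).trans (Nat.succ_le_succ h))
    (fun x i a hi h => by
      have h1 := dep_word_le a
      have h2 := length_le_dep (fl x)
      have h3 := hdf x
      try simp only
      omega)

theorem pt_pend (hgs : PT fun p : α × List Bool => gs p.1 p.2) (hfl : PT fl) {K : α → List Lit}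
    (hK : PT K) : PT fun x => pend (gs x) (fl x) (K x) :=
  PT.sumCases (f := fun x => gs x (runW (gs x) (fl x) (K x))) (g := fun _ z => [z])
    (h := fun _ _ => []) (hgs.comp (PT.pair PT.id (pt_runW hgs hfl hK)))
    (PT.singleton PT.snd') (PT.nil (β := Word))

theorem pt_out (hgs : PT fun p : α × List Bool => gs p.1 p.2) (hfl : PT fl) {K : α → List Lit}
    (hK : PT K) : PT fun x => out (gs x) (fl x) (K x) :=
  PT.sumCases (f := fun x => gs x (runW (gs x) (fl x) (K x))) (g := fun _ _ => false)
    (h := fun _ o => o) (hgs.comp (PT.pair PT.id (pt_runW hgs hfl hK)))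
    (PT.const _) PT.snd'

theorem pt_know {y : α → Word} {w : α → World} (hy : PT y) (hw : PT w) :
    PT fun x => know (y x) (w x) :=
  PT.cons (PT.pair hy (PT.snd (PT.fst hw))) (PT.snd hw)

theorem pt_lits {u y : α → Word} {w : α → World} (hu : PT u) (hy : PT y) (hw : PT w) :
    PT fun x => lits (u x) (y x) (w x) :=
  PT.cons (PT.pair hu (PT.fst (PT.fst hw))) (pt_know hy hw)

theorem pt_missing {W : α → List World} (hW : PT W) : PT fun x => missing (W x) :=
  PT.filter (l := fun _ => quad) (g := fun x p => !((W x).any fun w => decide (w.1 = p)))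
    (PT.const _) (PT.not (PT.any (g := fun (q : α × (Bool × Bool)) w => decide (w.1 = q.2))
      (hW.comp PT.fst') (PT.eq (PT.fst PT.snd') (PT.snd PT.fst'))))

theorem pt_active {W : α → List World} (hW : PT W) : PT fun x => active n (W x) :=
  PT.and (PT.isEmpty (pt_missing hW)) (PT.not (PT.ltLen (PT.const _) hW))

theorem pt_addWord (hlv : PT fun p : List Word × Bool => lv p.1 p.2) {u y z : α → Word}
    {W : α → List World} (hu : PT u) (hy : PT y) (hW : PT W) (hz : PT z) :
    PT fun x => addWord n lv (u x) (y x) (W x) (z x) := by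
  have h1 : PT fun x => (W x).flatMap fun w =>
      [(w.1, w.2 ++ [(z x, true)]), (w.1, w.2 ++ [(z x, false)])] :=
    PT.flatMap (g := fun x w => [(w.1, w.2 ++ [(z x, true)]), (w.1, w.2 ++ [(z x, false)])]) hW
      (PT.cons (PT.pair (PT.fst PT.snd') (PT.append (PT.snd PT.snd')
        (PT.singleton (PT.pair (hz.comp PT.fst') (PT.const true)))))
        (PT.singleton (PT.pair (PT.fst PT.snd') (PT.append (PT.snd PT.snd')
        (PT.singleton (PT.pair (hz.comp PT.fst') (PT.const false)))))))
  exact PT.ite (pt_active hW)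
    (PT.filter (g := fun x w => ok n lv (lits (u x) (y x) w)) h1
      (pt_ok hlv (pt_lits (hu.comp PT.fst') (hy.comp PT.fst') PT.snd'))) hW

/-- size bounds for a list of worlds -/
def WB (A K M : ℕ) (W : List World) : Prop :=
  W.length ≤ A ∧ ∀ w ∈ W, w.2.length ≤ K ∧ ∀ l ∈ w.2, (enc l).dep ≤ M

theorem WB.dep_le {A K M : ℕ} {W : List World} (h : WB A K M W) :
    (enc W).dep ≤ A + (K + M + 3) := by
  have h1 : ∀ w ∈ W, (enc w).dep ≤ K + M + 3 := by
    intro w hw
    have h2 := dep_encList_le (h.2 w hw).2
    have h3 := (h.2 w hw).1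
    have h4 := dep_bool w.1.1
    have h5 := dep_bool w.1.2
    have h6 : (enc w).dep = max (max (enc w.1.1).dep (enc w.1.2).dep + 1) (enc w.2).dep + 1 := rfl
    omega
  have h2 := dep_encList_le h1
  have h3 := h.1
  omega

theorem addWord_WB {A K M : ℕ} {W : List World} {x y z : Word} (h : WB A K M W)
    (hA : 2 * (n + 1) ≤ A) (hz : (enc z).dep + 2 ≤ M) :
    WB A (K + 1) M (addWord n lv x y W z) := by
  rw [addWord]
  split_ifs with hact
  · refine ⟨?_, ?_⟩
    · refine (List.length_filter_le _ _).trans ?_
      rw [List.length_flatMap]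
      have h1 : W.length ≤ n + 1 := by
        rw [active, Bool.and_eq_true] at hact
        have := hact.2
        simp only [ltLen, List.length_replicate, Bool.not_eq_true', decide_eq_false_iff_not] at this
        omega
      simp only [List.length_cons, List.length_nil, List.map_const', List.sum_replicate,
        smul_eq_mul]
      omega
    · intro w hw
      rw [List.mem_filter, List.mem_flatMap] at hw
      obtain ⟨⟨w', hw', hw⟩, _⟩ := hw
      obtain ⟨h1, h2⟩ := h.2 w' hw'
      have h3 : ∀ b : Bool, (enc (z, b)).dep ≤ M := by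
        intro b
        have := dep_bool b
        rw [dep_pair]
        omega
      simp only [List.mem_cons, List.not_mem_nil, or_false] at hw
      rcases hw with rfl | rfl
      · refine ⟨by simp; omega, fun l hl => ?_⟩
        rcases List.mem_append.1 hl with hl | hl
        · exact h2 l hl
        · rw [List.mem_singleton] at hl
          rw [hl]; exact h3 _
      · refine ⟨by simp; omega, fun l hl => ?_⟩
        rcases List.mem_append.1 hl with hl | hl
        · exact h2 l hl
        · rw [List.mem_singleton] at hl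
          rw [hl]; exact h3 _
  · exact ⟨h.1, fun w hw => ⟨(h.2 w hw).1.trans (by omega), (h.2 w hw).2⟩⟩

theorem fold_WB {A M : ℕ} {x y : Word} (hA : 2 * (n + 1) ≤ A) (zs : List Word) :
    ∀ {K : ℕ} {W : List World}, (∀ z ∈ zs, (enc z).dep + 2 ≤ M) → WB A K M W →
    WB A (K + zs.length) M (zs.foldl (addWord n lv x y) W) := by
  induction zs with
  | nil => intro K W _ h; exact h
  | cons z zs ih =>
    intro K W hz h
    rw [List.foldl_cons, List.length_cons, show K + (zs.length + 1) = K + 1 + zs.length by omega]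
    exact ih (fun z' hz' => hz z' (by simp [hz'])) (addWord_WB h hA (hz z (by simp)))

theorem pend_length (g : List Bool → Word ⊕ Bool) (gl : List Unit) (K : List Lit) :
    (pend g gl K).length ≤ 1 := by
  rw [pend]
  cases g (runW g gl K) <;> simp

theorem pend_mem {g : List Bool → Word ⊕ Bool} {gl : List Unit} {K : List Lit} {z : Word}
    (h : z ∈ pend g gl K) : ∃ a, a.length ≤ gl.length ∧ g a = .inl z := by
  rw [pend] at h
  cases hg : g (runW g gl K) with
  | inl z' =>
    rw [hg] at h
    have : z = z' := by simpa using h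
    subst this
    exact ⟨_, runW_length gl K, hg⟩
  | inr o => rw [hg] at h; simp at h

theorem batch_WB {A K M : ℕ} {x y : Word} {g : List Bool → Word ⊕ Bool} {gl : List Unit}
    {W : List World} (hA : 2 * (n + 1) ≤ A)
    (hg : ∀ a z, a.length ≤ gl.length → g a = .inl z → (enc z).dep + 2 ≤ M) (h : WB A K M W) :
    WB A (K + A) M (batch n lv x y g gl W) := by
  have h1 := fold_WB (n := n) (lv := lv) (x := x) (y := y) hA
    (W.flatMap fun w => pend g gl (know y w)) (fun z hz => by
      rw [List.mem_flatMap] at hz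
      obtain ⟨w, _, hz⟩ := hz
      obtain ⟨a, ha, hz⟩ := pend_mem hz
      exact hg a z ha hz) h
  have h2 : (W.flatMap fun w => pend g gl (know y w)).length ≤ A := by
    refine le_trans ?_ h.1
    rw [List.length_flatMap]
    clear h1 h
    induction W with
    | nil => simp
    | cons w W ih =>
      have := pend_length g gl (know y w)
      simp only [List.map_cons, List.sum_cons, List.length_cons]
      omega
  exact ⟨h1.1, fun w hw => ⟨(h1.2 w hw).1.trans (by omega), (h1.2 w hw).2⟩⟩

theorem pt_batch (hlv : PT fun p : List Word × Bool => lv p.1 p.2)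
    (hgs : PT fun p : α × List Bool => gs p.1 p.2) (hfl : PT fl) {u y : α → Word}
    {W : α → List World} (hu : PT u) (hy : PT y) (hW : PT W) :
    PT fun x => batch n lv (u x) (y x) (gs x) (fl x) (W x) := by
  obtain ⟨BW, hBW, hmW, hdW⟩ := hW.dep_bound
  have hzs : PT fun x => (W x).flatMap fun w => pend (gs x) (fl x) (know (y x) w) := by
    refine PT.flatMap (g := fun x w => pend (gs x) (fl x) (know (y x) w)) hW ?_
    exact pt_pend (α := α × World) (gs := fun p => gs p.1) (fl := fun p => fl p.1)
      (hgs.comp (PT.pair (PT.fst PT.fst') PT.snd')) (hfl.comp PT.fst')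
      (pt_know (hy.comp PT.fst') PT.snd')
  obtain ⟨Bz, hBz, hmz, hdz⟩ := hzs.dep_bound
  refine PT.foldl (init := W) (step := fun x V z => addWord n lv (u x) (y x) V z) hzs hW
    (pt_addWord hlv (hu.comp PT.fst') (hy.comp PT.fst') (PT.fst PT.snd') (PT.snd PT.snd'))
    (fun d => (BW d + 2 * (n + 1)) + ((BW d + Bz d) + (BW d + Bz d + 2) + 3))
    ((hBW.add (PB.const _)).add ((((hBW.add hBz).add ((hBW.add hBz).add (PB.const 2)))).add
      (PB.const 3)))
    (fun x i V => WB (BW (enc x).dep + 2 * (n + 1)) (BW (enc x).dep + i)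
      (BW (enc x).dep + Bz (enc x).dep + 2) V) ?_ ?_ ?_
  · intro x
    have h1 := hdW x
    have h2 := length_le_dep (W x)
    refine ⟨by omega, fun w hw => ?_⟩
    have h3 := dep_lt_of_mem hw
    have h4 : (enc w).dep = max (enc w.1).dep (enc w.2).dep + 1 := rfl
    have h5 := length_le_dep w.2
    refine ⟨by omega, fun l hl => ?_⟩
    have h6 := dep_lt_of_mem hl
    omega
  · intro x i V z hz _ h
    have h1 := dep_lt_of_mem hz
    have h2 := hdz x
    exact addWord_WB h (by omega) (by omega)
  · intro x i V hi h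
    have h1 := h.dep_le
    have h2 := length_le_dep ((W x).flatMap fun w => pend (gs x) (fl x) (know (y x) w))
    have h3 := hdz x
    try simp only
    omega

theorem pt_initW (hlv : PT fun p : List Word × Bool => lv p.1 p.2) {u y : α → Word}
    (hu : PT u) (hy : PT y) : PT fun x => initW n lv (u x) (y x) :=
  PT.filter (l := fun _ => quad.map fun p => (p, ([] : List Lit)))
    (g := fun x w => ok n lv (lits (u x) (y x) w)) (PT.const _)
    (pt_ok hlv (pt_lits (hu.comp PT.fst') (hy.comp PT.fst') PT.snd'))

/-- a bound for the queries -/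
theorem query_bound (hgs : PT fun p : α × List Bool => gs p.1 p.2) (hfl : PT fl) :
    ∃ M : ℕ → ℕ, PB M ∧ ∀ x a z, a.length ≤ (fl x).length → gs x a = .inl z →
      (enc z).dep + 2 ≤ M (enc x).dep := by
  obtain ⟨Bf, hBf, hmf, hdf⟩ := hfl.dep_bound
  obtain ⟨Bg, hBg, hmg, hdg⟩ := hgs.dep_bound
  refine ⟨fun d => Bg (d + Bf d + 3) + 2,
    (hBg.comp ((PB.id.add hBf).add (PB.const 3))).add (PB.const 2), fun x a z ha hz => ?_⟩
  have h1 := hdg (x, a)
  simp only [hz] at h1
  have h2 : (enc (Sum.inl z : Word ⊕ Bool)).dep = max 0 (enc z).dep + 1 := rfl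
  have h3 : (enc (x, a)).dep ≤ (enc x).dep + Bf (enc x).dep + 3 := by
    have h4 := dep_word_le a
    have h5 := length_le_dep (fl x)
    have h6 := hdf x
    rw [dep_pair]
    omega
  have h4 := hmg h3
  try simp only
  omega

theorem pt_worldRun (hlv : PT fun p : List Word × Bool => lv p.1 p.2)
    (hgs : PT fun p : α × List Bool => gs p.1 p.2) (hfl : PT fl) {u y : α → Word}
    (hu : PT u) (hy : PT y) : PT fun x => worldRun n lv (u x) (y x) (gs x) (fl x) := by
  obtain ⟨Bf, hBf, hmf, hdf⟩ := hfl.dep_bound
  obtain ⟨M, hM, hbd⟩ := query_bound hgs hfl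
  have hstep : PT fun p : α × (List World × Unit) =>
      batch n lv (u p.1) (y p.1) (gs p.1) (fl p.1) p.2.1 :=
    pt_batch (α := α × (List World × Unit)) (gs := fun p => gs p.1) (fl := fun p => fl p.1) hlv
      (hgs.comp (PT.pair (PT.fst PT.fst') PT.snd')) (hfl.comp PT.fst') (hu.comp PT.fst')
      (hy.comp PT.fst') (PT.fst PT.snd')
  refine PT.foldl (init := fun x => initW n lv (u x) (y x))
    (step := fun x W _ => batch n lv (u x) (y x) (gs x) (fl x) W) hfl (pt_initW hlv hu hy)
    hstep (fun d => (2 * (n + 1) + 4) + (Bf d * (2 * (n + 1) + 4) + M d + 3))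
    ((PB.const _).add (((hBf.mul (PB.const _)).add hM).add (PB.const 3)))
    (fun x i W => WB (2 * (n + 1) + 4) (i * (2 * (n + 1) + 4)) (M (enc x).dep) W) ?_ ?_ ?_
  · intro x
    refine ⟨?_, fun w hw => ?_⟩
    · refine (List.length_filter_le _ _).trans ?_
      simp [quad]
    · rw [initW, List.mem_filter, List.mem_map] at hw
      obtain ⟨⟨p, _, rfl⟩, _⟩ := hw
      simp
  · intro x i W _ _ _ h
    rw [Nat.succ_mul i (2 * (n + 1) + 4)]
    exact batch_WB (n := n) (A := 2 * (n + 1) + 4) (by omega) (fun a z ha hz => hbd x a z ha hz) h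
  · intro x i W hi h
    have h1 := h.dep_le
    have h2 := length_le_dep (fl x)
    have h3 := hdf x
    have h4 : i * (2 * (n + 1) + 4) ≤ Bf (enc x).dep * (2 * (n + 1) + 4) :=
      Nat.mul_le_mul_right _ (by omega)
    try simp only
    omega

theorem pt_table (hfq : PT fq) (hlv : PT fun p : List Word × Bool => lv p.1 p.2)
    (hgs : PT fun p : α × List Bool => gs p.1 p.2) (hfl : PT fl) {y : α → Word}
    {W : α → List World} (hy : PT y) (hW : PT W) :
    PT fun x => table n fq lv (y x) (gs x) (fl x) (W x) := by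
  refine PT.flatMap (g := fun x w => shrink n fq lv (know (y x) w))
    (PT.filter (g := fun x w => out (gs x) (fl x) (know (y x) w)) hW ?_)
    (pt_shrink hfq hlv (pt_know (hy.comp PT.fst') PT.snd'))
  exact pt_out (α := α × World) (gs := fun p => gs p.1) (fl := fun p => fl p.1)
    (hgs.comp (PT.pair (PT.fst PT.fst') PT.snd')) (hfl.comp PT.fst')
    (pt_know (hy.comp PT.fst') PT.snd')

theorem pt_query (hfq : PT fq) (hlv : PT fun p : List Word × Bool => lv p.1 p.2)
    (hgs : PT fun p : α × List Bool => gs p.1 p.2) (hfl : PT fl) {u y : α → Word}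
    {p : α → List Bool × List (Bool × Lit)} (hu : PT u) (hp : PT p) (hy : PT y) :
    PT fun x => query n fq lv (u x) (gs x) (fl x) (p x) (y x) := by
  have hW := pt_worldRun (n := n) hlv hgs hfl hu hy
  have key := PT.listCases (f := fun x => missing (worldRun n lv (u x) (y x) (gs x) (fl x)))
    (g := fun x => (.inr (table n fq lv (y x) (gs x) (fl x)
      (worldRun n lv (u x) (y x) (gs x) (fl x))) : FState))
    (h := fun x e _ => (.inl ((p x).1 ++ [!e.2], (e.1, (y x, !e.2)) :: (p x).2) : FState))
    (pt_missing hW) (PT.inr (pt_table hfq hlv hgs hfl hy hW))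
    (PT.inl (PT.pair (PT.append (PT.fst (hp.comp PT.fst'))
      (PT.singleton (PT.not (PT.snd (PT.fst PT.snd')))))
      (PT.cons (PT.pair (PT.fst (PT.fst PT.snd')) (PT.pair (hy.comp PT.fst')
        (PT.not (PT.snd (PT.fst PT.snd'))))) (PT.snd (hp.comp PT.fst')))))
  refine key.congr fun x => ?_
  rw [query]
  cases missing (worldRun n lv (u x) (y x) (gs x) (fl x)) <;> rfl

theorem pt_fstep (hfq : PT fq) (hlv : PT fun p : List Word × Bool => lv p.1 p.2)
    (hgs : PT fun p : α × List Bool => gs p.1 p.2) (hfl : PT fl) {u : α → Word}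
    {st : α → FState} (hu : PT u) (hst : PT st) :
    PT fun x => fstep n fq lv (u x) (gs x) (fl x) (st x) := by
  refine PT.sumCases (f := st)
    (g := fun x p => Sum.elim (fun y => query n fq lv (u x) (gs x) (fl x) p y)
      (fun _ => (.inl p : FState)) (gs x p.1)) (h := fun _ F => (.inr F : FState)) hst ?_
    (PT.inr PT.snd')
  refine PT.sumCases (f := fun q : α × (List Bool × List (Bool × Lit)) => gs q.1 q.2.1)
    (g := fun q y => query n fq lv (u q.1) (gs q.1) (fl q.1) q.2 y)
    (h := fun q _ => (.inl q.2 : FState)) (hgs.comp (PT.pair PT.fst' (PT.fst PT.snd'))) ?_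
    (PT.inl (PT.snd PT.fst'))
  exact pt_query (α := (α × (List Bool × List (Bool × Lit))) × Word) (gs := fun q => gs q.1.1)
    (fl := fun q => fl q.1.1) hfq hlv
    (hgs.comp (PT.pair (PT.fst (PT.fst PT.fst')) PT.snd')) (hfl.comp (PT.fst PT.fst'))
    (hu.comp (PT.fst PT.fst')) (PT.snd PT.fst') PT.snd'

theorem pt_tagged (o : Bool) {Y : α → List (Bool × Lit)} (hY : PT Y) :
    PT fun x => tagged o (Y x) :=
  PT.map (g := fun _ (e : Bool × Lit) => e.2)
    (PT.filter (g := fun _ (e : Bool × Lit) => decide (e.1 = o)) hY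
    (PT.eq (PT.fst PT.snd') (PT.const o))) (PT.snd PT.snd')

theorem pt_neg {S : α → List (List Lit)} (hS : PT S) : PT fun x => neg (S x) :=
  PT.ite (PT.isEmpty hS) (PT.const [[]])
    (PT.flatMap (g := fun _ (Z : List Lit) => Z.map fun l => [(l.1, !l.2)]) hS
      (PT.map (g := fun _ (l : Lit) => [(l.1, !l.2)]) PT.snd'
        (PT.singleton (PT.pair (PT.fst PT.snd') (PT.not (PT.snd PT.snd'))))))

theorem pt_finish (hfq : PT fq) (hlv : PT fun p : List Word × Bool => lv p.1 p.2)
    (hgs : PT fun p : α × List Bool => gs p.1 p.2)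
    {p : α → List Bool × List (Bool × Lit)} (hp : PT p) :
    PT fun x => finish n fq lv (gs x) (p x) :=
  PT.sumCases (f := fun x => gs x (p x).1) (g := fun _ _ => ([] : List (List Lit)))
    (h := fun x o => if o then shrink n fq lv (tagged true (p x).2)
      else neg (shrink n fq lv (tagged false (p x).2)))
    (hgs.comp (PT.pair PT.id (PT.fst hp))) (PT.nil (β := List Lit))
    (PT.ite PT.snd' (pt_shrink hfq hlv (pt_tagged true (PT.snd (hp.comp PT.fst'))))
      (pt_neg (pt_shrink hfq hlv (pt_tagged false (PT.snd (hp.comp PT.fst'))))))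

/-- size bounds for the state of the forced run -/
def FB (i M T : ℕ) : FState → Prop
  | .inl p => p.1.length ≤ i ∧ p.2.length ≤ i ∧ ∀ e ∈ p.2, (enc e).dep ≤ M
  | .inr F => (enc F).dep ≤ T

theorem pt_compress (hfq : PT fq) (hlv : PT fun p : List Word × Bool => lv p.1 p.2)
    (hgs : PT fun p : α × List Bool => gs p.1 p.2) (hfl : PT fl) {u : α → Word} (hu : PT u) :
    PT fun x => compress n fq lv (u x) (gs x) (fl x) := by
  obtain ⟨Bf, hBf, hmf, hdf⟩ := hfl.dep_bound
  obtain ⟨M, hM, hbd⟩ := query_bound hgs hfl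
  have htab : PT fun q : α × Word => table n fq lv q.2 (gs q.1) (fl q.1)
      (worldRun n lv (u q.1) q.2 (gs q.1) (fl q.1)) :=
    pt_table (α := α × Word) (gs := fun q => gs q.1) (fl := fun q => fl q.1) hfq hlv
      (hgs.comp (PT.pair (PT.fst PT.fst') PT.snd')) (hfl.comp PT.fst') PT.snd'
      (pt_worldRun (α := α × Word) (gs := fun q => gs q.1) (fl := fun q => fl q.1) hlv
        (hgs.comp (PT.pair (PT.fst PT.fst') PT.snd')) (hfl.comp PT.fst') (hu.comp PT.fst')
        PT.snd')
  obtain ⟨BT, hBT, hmT, hdT⟩ := htab.dep_bound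
  have hstep : PT fun p : α × (FState × Unit) => fstep n fq lv (u p.1) (gs p.1) (fl p.1) p.2.1 :=
    pt_fstep (α := α × (FState × Unit)) (gs := fun p => gs p.1) (fl := fun p => fl p.1) hfq hlv
      (hgs.comp (PT.pair (PT.fst PT.fst') PT.snd')) (hfl.comp PT.fst') (hu.comp PT.fst')
      (PT.fst PT.snd')
  have hfold : PT fun x => (fl x).foldl (fun st _ => fstep n fq lv (u x) (gs x) (fl x) st)
      (.inl ([], []) : FState) := by
    refine PT.foldl (init := fun _ => (.inl ([], []) : FState))
      (step := fun x st _ => fstep n fq lv (u x) (gs x) (fl x) st) hfl (PT.const _) hstep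
      (fun d => Bf d + Bf d + (M d + 2) + BT (d + M d + 1) + 5)
      ((((hBf.add hBf).add (hM.add (PB.const 2))).add (hBT.comp
        ((PB.id.add hM).add (PB.const 1)))).add (PB.const 5))
      (fun x i st => FB i (M (enc x).dep + 2) (BT ((enc x).dep + M (enc x).dep + 1)) st) ?_ ?_ ?_
    · intro x
      exact ⟨by simp, by simp, by simp⟩
    · intro x i st _ _ hi h
      rcases st with p | F
      · rw [fstep, Sum.elim_inl]
        obtain ⟨h1, h2, h3⟩ := h
        cases hg : gs x p.1 with
        | inr o => exact ⟨h1.trans (by omega), h2.trans (by omega), h3⟩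
        | inl z =>
          have hz := hbd x p.1 z (by omega) hg
          rw [Sum.elim_inl, query]
          split
          · change (enc (table n fq lv z (gs x) (fl x)
              (worldRun n lv (u x) z (gs x) (fl x)))).dep ≤ _
            refine (hdT (x, z)).trans (hmT ?_)
            rw [dep_pair]
            omega
          · next e r _ =>
            refine ⟨by simp; omega, by simp; omega, fun e' he' => ?_⟩
            rcases List.mem_cons.1 he' with rfl | he'
            · have h5 := dep_bool e.1
              have h6 := dep_bool (!e.2)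
              rw [dep_pair, dep_pair]
              omega
            · exact h3 e' he'
      · exact h
    · intro x i st hi h
      have h2 := length_le_dep (fl x)
      have h3 := hdf x
      rcases st with p | F
      · obtain ⟨h4, h5, h6⟩ := h
        have h7 := dep_word_le p.1
        have h8 := dep_encList_le h6
        have h9 : (enc (Sum.inl p : FState)).dep = max 0 (max (enc p.1).dep (enc p.2).dep + 1) + 1 :=
          rfl
        try simp only
        omega
      · have h4 : (enc F).dep ≤ BT ((enc x).dep + M (enc x).dep + 1) := h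
        have h9 : (enc (Sum.inr F : FState)).dep = max 1 (enc F).dep + 1 := rfl
        try simp only
        omega
  exact PT.sumCases (f := fun x => (fl x).foldl
      (fun st _ => fstep n fq lv (u x) (gs x) (fl x) st) (.inl ([], []) : FState))
    (g := fun x p => finish n fq lv (gs x) p) (h := fun _ F => F) hfold
    (pt_finish (α := α × (List Bool × List (Bool × Lit))) (gs := fun q => gs q.1) hfq hlv
      (hgs.comp (PT.pair (PT.fst PT.fst') PT.snd')) PT.snd') PT.snd'

end worlds

/-! ### the main procedure -/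

section main

variable {nx : Word → List Bool → Word ⊕ (Bool × List Bool)}

theorem pt_ev (hnx : PT fun p : Word × List Bool => nx p.1 p.2) {L w : α → Word}
    {a : α → List Bool} (hL : PT L) (hw : PT w) (ha : PT a) :
    PT fun x => ev nx (L x) (w x) (a x) := by
  have h1 := PT.listCases (f := a) (g := fun x => (.inl (w x) : Word ⊕ (Bool × List Bool)))
      (h := fun _ b r => .inr (b, r)) ha (PT.inl hw)
      (PT.inr (PT.pair (PT.fst PT.snd') (PT.snd PT.snd')))
  have h2 := PT.ite (PT.ltLen hw hL) h1 (hnx.comp (PT.pair hw ha))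
  refine h2.congr fun x => ?_
  rw [ev.eq_def]
  cases a x <;> rfl

theorem pt_rawStep (hnx : PT fun p : Word × List Bool => nx p.1 p.2) {L w : α → Word}
    {st : α → Word ⊕ (List Lit × List Bool)} (hL : PT L) (hst : PT st) (hw : PT w) :
    PT fun x => rawStep nx (L x) (st x) (w x) := by
  refine PT.sumCases (f := st) (g := fun _ q => (.inl q : Word ⊕ (List Lit × List Bool)))
    (h := fun x p => Sum.elim (fun q => .inl q) (fun e => .inr ((w x, e.1) :: p.1, e.2))
      (ev nx (L x) (w x) p.2)) hst (PT.inl PT.snd') ?_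
  exact PT.sumCases
    (f := fun q : α × (List Lit × List Bool) => ev nx (L q.1) (w q.1) q.2.2)
    (g := fun _ q => (.inl q : Word ⊕ (List Lit × List Bool)))
    (h := fun q e => .inr ((w q.1, e.1) :: q.2.1, e.2))
    (pt_ev hnx (hL.comp PT.fst') (hw.comp PT.fst') (PT.snd PT.snd')) (PT.inl PT.snd')
    (PT.inr (PT.pair (PT.cons (PT.pair (hw.comp (PT.fst PT.fst')) (PT.fst PT.snd'))
      (PT.fst (PT.snd PT.fst'))) (PT.snd PT.snd')))

theorem pt_words {F : α → List (List Lit)} (hF : PT F) : PT fun x => words (F x) :=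
  PT.flatMap (g := fun _ (c : List Lit) => c.map Prod.fst) hF
    (PT.map (g := fun _ (e : Lit) => e.1) PT.snd' (PT.fst PT.snd'))

/-- size bounds for the state of the evaluation -/
def RB (i M T A : ℕ) : Word ⊕ (List Lit × List Bool) → Prop
  | .inl q => (enc q).dep ≤ T
  | .inr p => p.1.length ≤ i ∧ (∀ e ∈ p.1, (enc e).dep ≤ M) ∧ p.2.length ≤ A

theorem pt_raw (hnx : PT fun p : Word × List Bool => nx p.1 p.2)
    (hrest : ∀ w a v r, nx w a = .inr (v, r) → r.length ≤ a.length) {F : α → List (List Lit)}
    {L : α → Word} {a : α → List Bool} (hF : PT F) (hL : PT L) (ha : PT a) :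
    PT fun x => raw nx (F x) (L x) (a x) := by
  obtain ⟨Bw, hBw, hmw, hdw⟩ := (pt_words hF).dep_bound
  obtain ⟨Ba, hBa, hma, hda⟩ := ha.dep_bound
  obtain ⟨Bn, hBn, hmn, hdn⟩ := hnx.dep_bound
  refine PT.foldl (init := fun x => (.inr ([], a x) : Word ⊕ (List Lit × List Bool)))
    (step := fun x st w => rawStep nx (L x) st w) (pt_words hF) (PT.inr (PT.pair (PT.const _) ha))
    (pt_rawStep hnx (hL.comp PT.fst') (PT.fst PT.snd') (PT.snd PT.snd'))
    (fun d => Bw d + (Bw d + 2) + (Bw d + Bn (Bw d + Ba d + 2)) + Ba d + 5)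
    (((((hBw.add (hBw.add (PB.const 2))).add (hBw.add (hBn.comp ((hBw.add hBa).add
      (PB.const 2))))).add hBa)).add (PB.const 5))
    (fun x i st => RB i (Bw (enc x).dep + 2)
      (Bw (enc x).dep + Bn (Bw (enc x).dep + Ba (enc x).dep + 2)) (Ba (enc x).dep) st) ?_ ?_ ?_
  · intro x
    refine ⟨by simp, by simp, ?_⟩
    exact (length_le_dep (a x)).trans (hda x)
  · intro x i st w hw _ h
    have hwd : (enc w).dep ≤ Bw (enc x).dep := (dep_lt_of_mem hw).le.trans (hdw x)
    rcases st with q | p
    · exact h
    · obtain ⟨h1, h2, h3⟩ := h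
      rw [rawStep, Sum.elim_inr, ev.eq_def]
      have hlit : ∀ b : Bool, (enc (w, b)).dep ≤ Bw (enc x).dep + 2 := by
        intro b
        have := dep_bool b
        rw [dep_pair]
        omega
      split_ifs with hc
      · rcases hp : p.2 with _ | ⟨b, r⟩
        · change (enc w).dep ≤ _
          omega
        · refine ⟨by simp; omega, fun e he => ?_, ?_⟩
          · rcases List.mem_cons.1 he with rfl | he
            · exact hlit _
            · exact h2 e he
          · rw [hp] at h3
            simp only [List.length_cons] at h3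
            change r.length ≤ _
            omega
      · cases hn : nx w p.2 with
        | inl q =>
          change (enc q).dep ≤ _
          have h4 := hdn (w, p.2)
          simp only [hn] at h4
          have h5 : (enc (Sum.inl q : Word ⊕ (Bool × List Bool))).dep =
            max 0 (enc q).dep + 1 := rfl
          have h6 : (enc (w, p.2)).dep ≤ Bw (enc x).dep + Ba (enc x).dep + 2 := by
            have := dep_word_le p.2
            rw [dep_pair]
            omega
          have h7 := hmn h6
          omega
        | inr e =>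
          refine ⟨by simp; omega, fun e' he' => ?_, ?_⟩
          · rcases List.mem_cons.1 he' with rfl | he'
            · exact hlit _
            · exact h2 e' he'
          · exact (hrest w p.2 e.1 e.2 hn).trans h3
  · intro x i st hi h
    have h1 := length_le_dep (words (F x))
    have h2 := hdw x
    rcases st with q | p
    · have h3 : (enc q).dep ≤ _ := h
      have h5 : (enc (Sum.inl q : Word ⊕ (List Lit × List Bool))).dep =
        max 0 (enc q).dep + 1 := rfl
      try simp only
      omega
    · obtain ⟨h3, h4, h5⟩ := h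
      have h6 := dep_encList_le h4
      have h7 := dep_word_le p.2
      have h8 : (enc (Sum.inr p : Word ⊕ (List Lit × List Bool))).dep =
        max 1 (max (enc p.1).dep (enc p.2).dep + 1) + 1 := rfl
      try simp only
      omega

theorem pt_value {F : α → List (List Lit)} {K : α → List Lit} (hF : PT F) (hK : PT K) :
    PT fun x => value (F x) (K x) :=
  PT.any (g := fun x (c : List Lit) => c.all fun l => decide (l ∈ K x)) hF
    (PT.all (g := fun (q : α × List Lit) l => decide (l ∈ K q.1)) PT.snd'
      (PT.contains (hK.comp (PT.fst PT.fst')) PT.snd'))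

theorem pt_gstep (hnx : PT fun p : Word × List Bool => nx p.1 p.2)
    (hrest : ∀ w a v r, nx w a = .inr (v, r) → r.length ≤ a.length) {F : α → List (List Lit)}
    {L : α → Word} {a : α → List Bool} (hF : PT F) (hL : PT L) (ha : PT a) :
    PT fun x => gstep nx (F x) (L x) (a x) :=
  PT.sumCases (f := fun x => raw nx (F x) (L x) (a x))
    (g := fun x q => if ltLen q (L x) then (.inl q : Word ⊕ Bool) else .inr true)
    (h := fun x p => .inr (value (F x) p.1)) (pt_raw hnx hrest hF hL ha)
    (PT.ite (PT.ltLen PT.snd' (hL.comp PT.fst')) (PT.inl PT.snd') (PT.inr (PT.const true)))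
    (PT.inr (pt_value (hF.comp PT.fst') (PT.fst PT.snd')))

theorem pt_mstep (hfq : PT fq) (hlv : PT fun p : List Word × Bool => lv p.1 p.2)
    (hnx : PT fun p : Word × List Bool => nx p.1 p.2)
    (hrest : ∀ w a v r, nx w a = .inr (v, r) → r.length ≤ a.length) {u : α → Word}
    {fl : α → List Unit} {st : α → List (List Lit) × Word} (hu : PT u) (hfl : PT fl)
    (hst : PT st) : PT fun x => mstep nx n fq lv (u x) (fl x) (st x) :=
  PT.pair (pt_compress (gs := fun x => gstep nx (st x).1 (st x).2) hfq hlv
    (pt_gstep hnx hrest (PT.fst (hst.comp PT.fst')) (PT.snd (hst.comp PT.fst')) PT.snd') hfl hu)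
    (PT.tail (PT.snd hst))

/-- the decision procedure is polynomial-time -/
theorem pt_dec {s : ℕ} {χ : Word → Bool} {tm : ℕ → ℕ} (hn : n + 1 = 2 * s) (hs2 : 2 ≤ s)
    (hlvs : ∀ u b, (lv u b).length ≤ s)
    (hM : ∀ u : List Word, u.length = n → u.map χ ∈ lv u (χ (fq u))) (hN : NXOK χ nx tm)
    (hfq : PT fq) (hlv : PT fun p : List Word × Bool => lv p.1 p.2)
    (hnx : PT fun p : Word × List Bool => nx p.1 p.2) {fl : Word → List Unit} (hfl : PT fl)
    (hflen : ∀ x : Word, (n + 1) * (n + 1) * (tm x.length + 1) ≤ (fl x).length) :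
    PT fun x => dec nx n fq lv x (fl x) := by
  have hstep : PT fun p : Word × ((List (List Lit) × Word) × Bool) =>
      mstep nx n fq lv p.1 (fl p.1) p.2.1 :=
    pt_mstep hfq hlv hnx hN.rest PT.fst' (hfl.comp PT.fst') (PT.fst PT.snd')
  have key : PT fun x => mainF nx n fq lv x (fl x) := by
    refine PT.foldl (l := fun x : Word => true :: x)
      (init := fun x => ([[(x, true)]], x)) (step := fun x st _ => mstep nx n fq lv x (fl x) st)
      (PT.cons (PT.const true) PT.id)
      (PT.pair (PT.singleton (PT.singleton (PT.pair PT.id (PT.const true)))) PT.id) hstep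
      (fun d => (n + 1) + ((n + 1) + (d + 3)) + 1) ?_ (fun x i st => MInv n χ x i st)
      (fun x => MInv.zero) ?_ ?_
    · exact ((PB.const _).add ((PB.const _).add (PB.id.add (PB.const 3)))).add (PB.const 1)
    · intro x i st _ _ hi h
      exact mstep_inv hn hs2 hlvs hM hN (hflen x) (by simp at hi; omega) h
    · intro x i st hi h
      obtain ⟨_, h2, h3, h4⟩ := h
      have hx := length_le_dep x
      have h5 : ∀ c ∈ st.1, (enc c).dep ≤ (n + 1) + ((enc x).dep + 3) := by
        intro c hc
        have h6 : ∀ l ∈ c, (enc l).dep ≤ (enc x).dep + 3 := by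
          intro l hl
          have h7 := (h3 c hc).2 l hl
          have h8 := dep_word_le l.1
          have h9 := dep_bool l.2
          have h10 : (enc l).dep = max (enc l.1).dep (enc l.2).dep + 1 := rfl
          omega
        have h7 := dep_encList_le h6
        have h8 := (h3 c hc).1
        omega
      have h6 := dep_encList_le h5
      have h7 := dep_word_le st.2
      have h8 : st.2.length ≤ x.length := by rw [h4, List.length_drop]; omega
      have h9 : (enc st).dep = max (enc st.1).dep (enc st.2).dep + 1 := rfl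
      try simp only
      omega
  exact PT.not (PT.isEmpty (PT.fst key))

end main

end Pool.Agent.Lib.MP_4eb50a_lc
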