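import Pool.Agent.Lib.MP_4eb50a_lc.Lists

/-!
# Clocked programs

`clk p` runs `p` on a state which consists of a clock (a list) and of the current value.  Each
iteration of a loop removes one element of the clock and loops are left when the clock is empty.
-/

set_option linter.unusedVariables false

namespace Pool.Agent.Lib.MP_4eb50a_lc

/-- the length of a tree as a list -/
def len : Tr → ℕ
  | .nil => 0
  | .cons _ b => len b + 1

theorem len_tl {f : Tr} (h : 0 < len f) : len f.tl + 1 = len f := by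
  cases f with
  | nil => simp [len] at h
  | cons a b => rfl

theorem toBool_of_len {f : Tr} (h : 0 < len f) : f.toBool = true := by
  cases f with
  | nil => simp [len] at h
  | cons a b => rfl

theorem len_enc {α : Type} [Code α] (l : List α) : len (enc l) = l.length := by
  induction l with
  | nil => rfl
  | cons a l ih =>
    change len (enc l) + 1 = _
    rw [ih]
    rfl

theorem Run.comp' {p q : Prog} {x y z : Tr} {l₁ l₂ l : List (Word × Bool)} {t₁ t₂ : ℕ}
    (h : Run p x l₁ y t₁) (k : Run q y l₂ z t₂) (e : l = l₁ ++ l₂) :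
    Run (.comp p q) x l z (t₁ + t₂ + 1) := e ▸ Run.comp h k

theorem Run.cons' {p q : Prog} {x y z : Tr} {l₁ l₂ l : List (Word × Bool)} {t₁ t₂ : ℕ}
    (h : Run p x l₁ y t₁) (k : Run q x l₂ z t₂) (e : l = l₁ ++ l₂) :
    Run (.cons p q) x l (.cons y z) (t₁ + t₂ + 1) := e ▸ Run.cons h k

namespace Prog

/-- first component of the first component -/
def hh : Prog := .comp .hd .hd

/-- second component of the first component -/
def ht : Prog := .comp .hd .tl

/-- `((f, c), v) ↦ (f, v)` -/
def sel : Prog := .cons hh .tl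

/-- test the clock and the value of the condition: state `((f, c), v)` -/
def cnd : Prog := .cond hh ht .nil

/-- one iteration on states `((f, c), v)` -/
def bdy (p q : Prog) : Prog :=
  .comp (.comp (.cons (.comp hh .tl) .tl) q) (.cons p .tl)

/-- the clocked program -/
def clk : Prog → Prog
  | .id => .id
  | .nil => .cons .hd .nil
  | .hd => .cons .hd (.comp .tl .hd)
  | .tl => .cons .hd (.comp .tl .tl)
  | .cons p q => .comp (.cons (clk p) .tl)
      (.comp (.cons ht (.comp sel (clk q))) (.cons (.comp .tl .hd) (.cons .hd (.comp .tl .tl))))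
  | .comp p q => .comp (clk p) (clk q)
  | .cond p q r => .comp (.cons (clk p) .tl)
      (.cond ht (.comp sel (clk q)) (.comp sel (clk r)))
  | .loop p q => .comp (.cons (clk p) .tl) (.comp (.loop cnd (bdy (clk p) (clk q))) sel)
  | .ask => .cons .hd (.comp .tl .ask)

end Prog

open Prog

theorem run_hh2 (f c v : Tr) : Run hh (.cons (.cons f c) v) [] f 3 :=
  Run.comp (l₁ := []) (l₂ := []) (Run.hd _) (Run.hd _)

theorem run_ht (f c v : Tr) : Run ht (.cons (.cons f c) v) [] c 3 :=
  Run.comp (l₁ := []) (l₂ := []) (Run.hd _) (Run.tl _)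

theorem run_sel (f c v : Tr) : Run sel (.cons (.cons f c) v) [] (.cons f v) 5 :=
  Run.cons (l₁ := []) (l₂ := []) (run_hh2 f c v) (Run.tl _)

/-- the condition of the loop -/
theorem run_cnd (f c v : Tr) : ∃ z t, t ≤ 7 ∧ Run cnd (.cons (.cons f c) v) [] z t ∧
    z.toBool = (f.toBool && c.toBool) := by
  cases f with
  | nil => exact ⟨_, _, by norm_num, Run.condF (l₁ := []) (l₂ := []) (run_hh2 _ c v) rfl
      (Run.nil _), rfl⟩
  | cons a b =>
    refine ⟨c, 3 + 3 + 1, by norm_num, Run.condT (l₁ := []) (l₂ := []) (run_hh2 _ c v) rfl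
      (run_ht _ c v), ?_⟩
    rfl

/-- final part for pairs -/
theorem run_fin (u f v : Tr) : Run (.cons (.comp .tl .hd) (.cons .hd (.comp .tl .tl)))
    (.cons u (.cons f v)) [] (.cons f (.cons u v)) 9 :=
  Run.cons (l₁ := []) (l₂ := []) (Run.comp (l₁ := []) (l₂ := []) (Run.tl _) (Run.hd _))
    (Run.cons (l₁ := []) (l₂ := []) (Run.hd _)
      (Run.comp (l₁ := []) (l₂ := []) (Run.tl _) (Run.tl _)))

/-- with a sufficient clock the clocked program simulates the program -/
theorem clk_correct {p : Prog} {x y : Tr} {log : List (Word × Bool)} {t : ℕ}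
    (h : Run p x log y t) : ∀ f : Tr, t ≤ len f →
    ∃ f' t', Run (clk p) (.cons f x) log (.cons f' y) t' ∧ len f ≤ len f' + t := by
  induction h with
  | id x => intro f _; exact ⟨f, _, Run.id _, by omega⟩
  | nil x => intro f _; exact ⟨f, _, Run.cons (l₁ := []) (l₂ := []) (Run.hd _) (Run.nil _), by omega⟩
  | hd x =>
    intro f _
    exact ⟨f, _, Run.cons (l₁ := []) (l₂ := []) (Run.hd _)
      (Run.comp (l₁ := []) (l₂ := []) (Run.tl _) (Run.hd _)), by omega⟩
  | tl x =>
    intro f _
    exact ⟨f, _, Run.cons (l₁ := []) (l₂ := []) (Run.hd _)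
      (Run.comp (l₁ := []) (l₂ := []) (Run.tl _) (Run.tl _)), by omega⟩
  | @cons p q x y z l₁ l₂ t₁ t₂ _ _ ih1 ih2 =>
    intro f hf
    obtain ⟨f1, s1, r1, e1⟩ := ih1 f (by omega)
    obtain ⟨f2, s2, r2, e2⟩ := ih2 f1 (by omega)
    have r := Run.comp' (Run.cons' r1 (Run.tl _) rfl) (Run.comp' (Run.cons' (run_ht f1 y x)
      (Run.comp' (run_sel f1 y x) r2 rfl) rfl) (run_fin y f2 z) rfl) (l := l₁ ++ l₂) (by simp)
    exact ⟨f2, _, r, by omega⟩
  | @comp p q x y z l₁ l₂ t₁ t₂ _ _ ih1 ih2 =>
    intro f hf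
    obtain ⟨f1, s1, r1, e1⟩ := ih1 f (by omega)
    obtain ⟨f2, s2, r2, e2⟩ := ih2 f1 (by omega)
    exact ⟨f2, _, Run.comp r1 r2, by omega⟩
  | @condT p q r x c y l₁ l₂ t₁ t₂ _ hc _ ih1 ih2 =>
    intro f hf
    obtain ⟨f1, s1, r1, e1⟩ := ih1 f (by omega)
    obtain ⟨f2, s2, r2, e2⟩ := ih2 f1 (by omega)
    have r := Run.comp' (l := l₁ ++ l₂) (Run.cons' r1 (Run.tl _) rfl)
      (Run.condT (r := .comp sel (clk r)) (run_ht f1 c x) hc
        (Run.comp' (run_sel f1 c x) r2 rfl)) (by simp)
    exact ⟨f2, _, r, by omega⟩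
  | @condF p q r x c y l₁ l₂ t₁ t₂ _ hc _ ih1 ih2 =>
    intro f hf
    obtain ⟨f1, s1, r1, e1⟩ := ih1 f (by omega)
    obtain ⟨f2, s2, r2, e2⟩ := ih2 f1 (by omega)
    have r := Run.comp' (l := l₁ ++ l₂) (Run.cons' r1 (Run.tl _) rfl)
      (Run.condF (q := .comp sel (clk q)) (run_ht f1 c x) hc
        (Run.comp' (run_sel f1 c x) r2 rfl)) (by simp)
    exact ⟨f2, _, r, by omega⟩
  | @loopStop p q x c l₁ t₁ _ hc ih1 =>
    intro f hf
    obtain ⟨f1, s1, r1, e1⟩ := ih1 f (by omega)
    obtain ⟨z, s, _, hz, hzb⟩ := run_cnd f1 c x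
    rw [hc, Bool.and_false] at hzb
    have r := Run.comp' (l := l₁) (Run.cons' r1 (Run.tl _) rfl)
      (Run.comp' (Run.loopStop (q := bdy (clk p) (clk q)) hz hzb) (run_sel f1 c x) rfl) (by simp)
    exact ⟨f1, _, r, by omega⟩
  | @loopStep p q x c y z l₁ l₂ l₃ t₁ t₂ t₃ _ hc _ _ ih1 ih2 ih3 =>
    intro f hf
    obtain ⟨f1, s1, r1, e1⟩ := ih1 f (by omega)
    have hf1 : 0 < len f1 := by omega
    have htl := len_tl hf1
    obtain ⟨f2, s2, r2, e2⟩ := ih2 f1.tl (by omega)
    obtain ⟨f3, s3, r3, e3⟩ := ih3 f2 (by omega)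
    refine ⟨f3, ?_⟩
    -- take the last run apart
    rw [clk] at r3
    generalize hl3 : l₃ = l3 at r3
    cases r3 with
    | @comp _ _ _ m _ la lb' ta tb' ra rb' =>
      cases rb' with
      | @comp _ _ _ m' _ lb lc tb tc rb rc =>
        obtain ⟨w, s, _, hz, hzb⟩ := run_cnd f1 c x
        rw [hc, Bool.and_true, toBool_of_len hf1] at hzb
        have rA : Run (.comp (.cons (.comp hh .tl) .tl) (clk q)) (.cons (.cons f1 c) x) l₂
            (.cons f2 y) _ :=
          Run.comp' (Run.cons' (Run.comp' (run_hh2 f1 c x) (Run.tl _) rfl) (Run.tl _) rfl) r2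
            (by simp)
        have rB : Run (bdy (clk p) (clk q)) (.cons (.cons f1 c) x) (l₂ ++ la) m _ :=
          Run.comp rA ra
        have rL := Run.loopStep hz hzb rB rb
        have r := Run.comp' (l := l₁ ++ l₂ ++ (la ++ (lb ++ lc))) (Run.cons' r1 (Run.tl _) rfl)
          (Run.comp' rL rc rfl) (by simp)
        exact ⟨_, r, by omega⟩
  | ask x b =>
    intro f _
    exact ⟨f, _, Run.cons' (Run.hd _) (Run.comp' (Run.tl _) (Run.ask _ b) rfl) rfl, by omega⟩

/-! ### clocked programs stop -/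

/-- the answers in the log are those of the stream -/
def Ans (log : List (Word × Bool)) (s : ℕ → Bool) : Prop :=
  ∀ i (h : i < log.length), (log[i]).2 = s i

theorem Ans.nil (s : ℕ → Bool) : Ans [] s := by
  intro i h
  simp at h

theorem Ans.append {l m : List (Word × Bool)} {s : ℕ → Bool} (hl : Ans l s)
    (hm : Ans m fun i => s (l.length + i)) : Ans (l ++ m) s := by
  intro i h
  rcases Nat.lt_or_ge i l.length with hlt | hge
  · rw [List.getElem_append_left hlt]
    exact hl i hlt
  · rw [List.getElem_append_right hge]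
    have h2 := hm (i - l.length) (by rw [List.length_append] at h; omega)
    have e : l.length + (i - l.length) = i := by omega
    simp only [e] at h2
    exact h2

/-- the clocked program stops within a number of steps which is polynomial in the length of the
clock -/
def Stops (p : Prog) : Prop :=
  ∃ T : ℕ → ℕ, PB T ∧ Monotone T ∧ ∀ (x f : Tr) (s : ℕ → Bool), ∃ log f' y t,
    Run p (.cons f x) log (.cons f' y) t ∧ Ans log s ∧ len f' ≤ len f ∧ t ≤ T (len f)

theorem stops_const {p : Prog} {T : ℕ} (h : ∀ (x f : Tr) (s : ℕ → Bool), ∃ log f' y t,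
    Run p (.cons f x) log (.cons f' y) t ∧ Ans log s ∧ len f' ≤ len f ∧ t ≤ T) : Stops p :=
  ⟨fun _ => T, PB.const T, fun _ _ _ => le_rfl, h⟩

theorem clk_stops (p : Prog) : Stops (clk p) := by
  induction p with
  | id => exact stops_const fun x f s => ⟨[], f, x, 1, Run.id _, Ans.nil s, le_rfl, le_rfl⟩
  | nil => exact stops_const (T := 3) fun x f s => ⟨[], f, .nil, _,
      Run.cons (l₁ := []) (l₂ := []) (Run.hd _) (Run.nil _), Ans.nil s, le_rfl, by norm_num⟩
  | hd => exact stops_const (T := 5) fun x f s => ⟨[], f, x.hd, _,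
      Run.cons (l₁ := []) (l₂ := []) (Run.hd _)
      (Run.comp (l₁ := []) (l₂ := []) (Run.tl _) (Run.hd _)), Ans.nil s, le_rfl, by norm_num⟩
  | tl => exact stops_const (T := 5) fun x f s => ⟨[], f, x.tl, _,
      Run.cons (l₁ := []) (l₂ := []) (Run.hd _)
      (Run.comp (l₁ := []) (l₂ := []) (Run.tl _) (Run.tl _)), Ans.nil s, le_rfl, by norm_num⟩
  | cons p q ihp ihq =>
    obtain ⟨T, hT, hTm, h1⟩ := ihp
    obtain ⟨U, hU, hUm, h2⟩ := ihq
    refine ⟨fun d => T d + U d + 30, (hT.add hU).add (PB.const 30),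
      fun a b hab => by have := hTm hab; have := hUm hab; simp only; omega, fun x f s => ?_⟩
    obtain ⟨l₁, f1, y, t₁, r1, a1, e1, b1⟩ := h1 x f s
    obtain ⟨l₂, f2, z, t₂, r2, a2, e2, b2⟩ := h2 x f1 fun i => s (l₁.length + i)
    have r := Run.comp' (Run.cons' r1 (Run.tl _) rfl) (Run.comp' (Run.cons' (run_ht f1 y x)
      (Run.comp' (run_sel f1 y x) r2 rfl) rfl) (run_fin y f2 z) rfl)
      (l := l₁ ++ l₂) (by simp)
    refine ⟨l₁ ++ l₂, f2, _, _, r, a1.append a2, by omega, ?_⟩
    have := hUm e1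
    simp only
    omega
  | comp p q ihp ihq =>
    obtain ⟨T, hT, hTm, h1⟩ := ihp
    obtain ⟨U, hU, hUm, h2⟩ := ihq
    refine ⟨fun d => T d + U d + 30, (hT.add hU).add (PB.const 30),
      fun a b hab => by have := hTm hab; have := hUm hab; simp only; omega, fun x f s => ?_⟩
    obtain ⟨l₁, f1, y, t₁, r1, a1, e1, b1⟩ := h1 x f s
    obtain ⟨l₂, f2, z, t₂, r2, a2, e2, b2⟩ := h2 y f1 fun i => s (l₁.length + i)
    refine ⟨l₁ ++ l₂, f2, _, _, Run.comp r1 r2, a1.append a2, by omega, ?_⟩
    have := hUm e1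
    simp only
    omega
  | cond p q r ihp ihq ihr =>
    obtain ⟨T, hT, hTm, h1⟩ := ihp
    obtain ⟨U, hU, hUm, h2⟩ := ihq
    obtain ⟨V, hV, hVm, h3⟩ := ihr
    refine ⟨fun d => T d + U d + V d + 30, ((hT.add hU).add hV).add (PB.const 30),
      fun a b hab => by
        have := hTm hab; have := hUm hab; have := hVm hab; simp only; omega, fun x f s => ?_⟩
    obtain ⟨l₁, f1, c, t₁, r1, a1, e1, b1⟩ := h1 x f s
    rcases hc : c.toBool with _ | _
    · obtain ⟨l₂, f2, z, t₂, r2, a2, e2, b2⟩ := h3 x f1 fun i => s (l₁.length + i)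
      have r := Run.comp' (l := l₁ ++ l₂) (Run.cons' r1 (Run.tl _) rfl)
        (Run.condF (q := .comp sel (clk q)) (run_ht f1 c x) hc
          (Run.comp' (run_sel f1 c x) r2 rfl)) (by simp)
      refine ⟨l₁ ++ l₂, f2, _, _, r, a1.append a2, by omega, ?_⟩
      have := hVm e1
      simp only
      omega
    · obtain ⟨l₂, f2, z, t₂, r2, a2, e2, b2⟩ := h2 x f1 fun i => s (l₁.length + i)
      have r := Run.comp' (l := l₁ ++ l₂) (Run.cons' r1 (Run.tl _) rfl)
        (Run.condT (r := .comp sel (clk r)) (run_ht f1 c x) hc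
          (Run.comp' (run_sel f1 c x) r2 rfl)) (by simp)
      refine ⟨l₁ ++ l₂, f2, _, _, r, a1.append a2, by omega, ?_⟩
      have := hUm e1
      simp only
      omega
  | loop p q ihp ihq =>
    obtain ⟨T, hT, hTm, h1⟩ := ihp
    obtain ⟨U, hU, hUm, h2⟩ := ihq
    have key : ∀ (m D : ℕ), D = T m + U m + 30 → ∀ (k : ℕ) (f c v : Tr) (s : ℕ → Bool),
        len f ≤ k → k ≤ m → ∃ log f' c' v' t, Run (.loop cnd (bdy (clk p) (clk q)))
          (.cons (.cons f c) v) log (.cons (.cons f' c') v') t ∧ Ans log s ∧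
          len f' ≤ len f ∧ t ≤ (k + 1) * D := by
      intro m D hD k
      induction k with
      | zero =>
        intro f c v s hf _
        obtain ⟨z, t, ht, hz, hzb⟩ := run_cnd f c v
        have hfb : f.toBool = false := by
          cases f with
          | nil => rfl
          | cons a b => simp [len] at hf
        rw [hfb, Bool.false_and] at hzb
        exact ⟨_, f, c, v, _, Run.loopStop hz hzb, Ans.nil s, le_rfl, by omega⟩
      | succ k ih =>
        intro f c v s hf hk
        obtain ⟨z, t, ht, hz, hzb⟩ := run_cnd f c v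
        rcases hb : (f.toBool && c.toBool) with _ | _
        · rw [hb] at hzb
          refine ⟨_, f, c, v, _, Run.loopStop hz hzb, Ans.nil s, le_rfl, ?_⟩
          rw [Nat.succ_mul]
          omega
        · rw [hb] at hzb
          rw [Bool.and_eq_true] at hb
          have hfl : 0 < len f := by
            cases f with
            | nil => exact absurd hb.1 (by simp [Tr.toBool])
            | cons a b => simp [len]
          have htl := len_tl hfl
          obtain ⟨l₂, f2, y, t₂, r2, a2, e2, b2⟩ := h2 v f.tl s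
          obtain ⟨l₃, f3, c3, t₃, r3, a3, e3, b3⟩ := h1 y f2 fun i => s (l₂.length + i)
          obtain ⟨l₄, f4, c4, v4, t₄, r4, a4, e4, b4⟩ := ih f3 c3 y
            (fun i => s ((l₂ ++ l₃).length + i)) (by omega) (by omega)
          have rA : Run (.comp (.cons (.comp hh .tl) .tl) (clk q)) (.cons (.cons f c) v) l₂
              (.cons f2 y) _ :=
            Run.comp' (Run.cons' (Run.comp' (run_hh2 f c v) (Run.tl _) rfl) (Run.tl _) rfl) r2
              (by simp)
          have rB : Run (bdy (clk p) (clk q)) (.cons (.cons f c) v) (l₂ ++ l₃)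
              (.cons (.cons f3 c3) y) _ :=
            Run.comp' rA (Run.cons' r3 (Run.tl _) rfl) (by simp)
          have rL := Run.loopStep hz hzb rB r4
          refine ⟨_, f4, c4, v4, _, rL, ?_, by omega, ?_⟩
          · rw [List.nil_append]
            exact (a2.append a3).append a4
          · have h5 : U (len f.tl) ≤ U m := hUm (by omega)
            have h6 : T (len f2) ≤ T m := hTm (by omega)
            have h7 : (k + 1 + 1) * D = (k + 1) * D + D := Nat.succ_mul _ _
            rw [h7]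
            omega
    refine ⟨fun d => T d + (d + 1) * (T d + U d + 30) + 30,
      (hT.add ((PB.id.add (PB.const 1)).mul ((hT.add hU).add (PB.const 30)))).add (PB.const 30),
      ?_, fun x f s => ?_⟩
    · intro a b hab
      have h3 := hTm hab
      have h4 := hUm hab
      have h5 : (a + 1) * (T a + U a + 30) ≤ (b + 1) * (T b + U b + 30) :=
        Nat.mul_le_mul (by omega) (by omega)
      simp only
      omega
    · obtain ⟨l₁, f1, c, t₁, r1, a1, e1, b1⟩ := h1 x f s
      obtain ⟨l₂, f2, c2, v2, t₂, r2, a2, e2, b2⟩ := key (len f) _ rfl (len f) f1 c x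
        (fun i => s (l₁.length + i)) e1 le_rfl
      have r := Run.comp' (l := l₁ ++ l₂) (Run.cons' r1 (Run.tl _) rfl)
        (Run.comp' r2 (run_sel f2 c2 v2) rfl) (by simp)
      refine ⟨l₁ ++ l₂, f2, v2, _, r, a1.append a2, by omega, ?_⟩
      simp only
      omega
  | ask =>
    refine stops_const (T := 5) fun x f s => ⟨[(x.toWord, s 0)], f, _, _,
      Run.cons' (Run.hd _) (Run.comp' (Run.tl _) (Run.ask _ (s 0)) rfl) rfl, ?_, le_rfl,
      by norm_num⟩
    intro i h
    have : i = 0 := by simpa using h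
    subst this
    rfl

end Pool.Agent.Lib.MP_4eb50a_lc
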