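import Pool.Agent.Lib.MP_4eb50a_lc.Star

/-!
# A long conjunction can be shrunk
-/

set_option linter.unusedVariables false

namespace Pool.Agent.Lib.MP_4eb50a_lc

/-- If every `n`-subset `J` of `Z` has a marked half `S J` then two of the marked halves cross. -/
theorem crossing {α : Type} [DecidableEq α] {Z : Finset α} {s n : ℕ} (hn : n + 1 = 2 * s)
    (hs2 : 2 ≤ s) (hZ : n + 2 ≤ Z.card) (S : Finset α → Finset α)
    (hS : ∀ J ⊆ Z, J.card = n → S J ⊆ J ∧ (S J).card = s) :
    ∃ J J', (J ⊆ Z ∧ J.card = n) ∧ (J' ⊆ Z ∧ J'.card = n) ∧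
      ∃ a b c, (a ∈ S J ∧ a ∉ S J') ∧ (b ∈ S J ∧ b ∈ S J') ∧ (c ∉ S J ∧ c ∈ S J') := by
  obtain ⟨J, hJZ, hJc⟩ := Finset.exists_subset_card_eq (s := Z) (n := n) (by omega)
  obtain ⟨hSJ, hSc⟩ := hS J hJZ hJc
  have hdiff : 1 < (Z \ J).card := by
    rw [Finset.card_sdiff_of_subset hJZ]; omega
  obtain ⟨y, hy, y', hy', hyy⟩ := Finset.one_lt_card.1 hdiff
  rw [Finset.mem_sdiff] at hy hy'
  obtain ⟨x, hx⟩ : (S J).Nonempty := by
    rw [← Finset.card_pos]; omega
  have hxJ : x ∈ J := hSJ hx
  -- replace `x` by another element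
  have step : ∀ z, z ∈ Z → z ∉ J →
      (∃ a b c, (a ∈ S J ∧ a ∉ S (insert z (J.erase x))) ∧
        (b ∈ S J ∧ b ∈ S (insert z (J.erase x))) ∧ (c ∉ S J ∧ c ∈ S (insert z (J.erase x)))) ∨
      S (insert z (J.erase x)) = insert z (J \ S J) := by
    intro z hz hzJ
    have h1 : insert z (J.erase x) ⊆ Z := by
      intro w hw
      rcases Finset.mem_insert.1 hw with rfl | hw
      · exact hz
      · exact hJZ (Finset.mem_of_mem_erase hw)
    have h2 : (insert z (J.erase x)).card = n := by
      rw [Finset.card_insert_of_notMem (fun h => hzJ (Finset.mem_of_mem_erase h)),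
        Finset.card_erase_of_mem hxJ]
      have : 0 < J.card := Finset.card_pos.2 ⟨x, hxJ⟩
      omega
    obtain ⟨h3, h4⟩ := hS _ h1 h2
    have hxn : x ∉ S (insert z (J.erase x)) := by
      intro h
      have := h3 h
      rcases Finset.mem_insert.1 this with rfl | h
      · exact hzJ hxJ
      · exact (Finset.notMem_erase x J) h
    by_cases hint : ∃ b, b ∈ S J ∧ b ∈ S (insert z (J.erase x))
    · left
      obtain ⟨b, hb1, hb2⟩ := hint
      have : ∃ c ∈ S (insert z (J.erase x)), c ∉ S J := by
        by_contra hcon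
        push Not at hcon
        have hsub : S (insert z (J.erase x)) ⊆ S J := hcon
        have := Finset.eq_of_subset_of_card_le hsub (by omega)
        rw [this] at hxn
        exact hxn hx
      obtain ⟨c, hc1, hc2⟩ := this
      exact ⟨x, b, c, ⟨hx, hxn⟩, ⟨hb1, hb2⟩, hc2, hc1⟩
    · right
      push Not at hint
      apply Finset.eq_of_subset_of_card_le
      · intro w hw
        rcases Finset.mem_insert.1 (h3 hw) with rfl | h
        · exact Finset.mem_insert_self _ _
        · exact Finset.mem_insert_of_mem (Finset.mem_sdiff.2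
            ⟨Finset.mem_of_mem_erase h, fun h' => hint w h' hw⟩)
      · rw [Finset.card_insert_of_notMem (fun h => hzJ (Finset.mem_sdiff.1 h).1),
          Finset.card_sdiff_of_subset hSJ]
        omega
  have hprop : ∀ z, z ∈ Z → z ∉ J → insert z (J.erase x) ⊆ Z ∧
      (insert z (J.erase x)).card = n := by
    intro z hz hzJ
    refine ⟨?_, ?_⟩
    · intro w hw
      rcases Finset.mem_insert.1 hw with rfl | hw
      · exact hz
      · exact hJZ (Finset.mem_of_mem_erase hw)
    · rw [Finset.card_insert_of_notMem (fun h => hzJ (Finset.mem_of_mem_erase h)),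
        Finset.card_erase_of_mem hxJ]
      have : 0 < J.card := Finset.card_pos.2 ⟨x, hxJ⟩
      omega
  rcases step y hy.1 hy.2 with h | h
  · exact ⟨J, _, ⟨hJZ, hJc⟩, hprop y hy.1 hy.2, h⟩
  rcases step y' hy'.1 hy'.2 with h' | h'
  · exact ⟨J, _, ⟨hJZ, hJc⟩, hprop y' hy'.1 hy'.2, h'⟩
  refine ⟨_, _, hprop y hy.1 hy.2, hprop y' hy'.1 hy'.2, ?_⟩
  rw [h, h']
  obtain ⟨b, hb⟩ : (J \ S J).Nonempty := by
    rw [← Finset.card_pos, Finset.card_sdiff_of_subset hSJ]; omega
  refine ⟨y, b, y', ⟨Finset.mem_insert_self _ _, ?_⟩, ⟨Finset.mem_insert_of_mem hb,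
    Finset.mem_insert_of_mem hb⟩, ?_, Finset.mem_insert_self _ _⟩
  · intro h
    rcases Finset.mem_insert.1 h with h | h
    · exact hyy h
    · exact hy.2 (Finset.mem_sdiff.1 h).1
  · intro h
    rcases Finset.mem_insert.1 h with h | h
    · exact hyy h.symm
    · exact hy'.2 (Finset.mem_sdiff.1 h).1

/-! ### states: no literal or one literal is violated -/

/-- negate the literal (if any) -/
def flipO (σ : Option Lit) (Z : List Lit) : List Lit :=
  match σ with
  | none => Z
  | some m => flip m Z

theorem flip_fst (m : Lit) (Z : List Lit) : (flip m Z).map Prod.fst = Z.map Prod.fst := by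
  rw [flip, List.map_map]
  refine List.map_congr_left fun l _ => ?_
  simp only [Function.comp]
  split_ifs <;> rfl

theorem flipO_fst (σ : Option Lit) (Z : List Lit) :
    (flipO σ Z).map Prod.fst = Z.map Prod.fst := by
  cases σ with
  | none => rfl
  | some m => exact flip_fst m Z

theorem length_flipO (σ : Option Lit) (Z : List Lit) : (flipO σ Z).length = Z.length := by
  have := congrArg List.length (flipO_fst σ Z)
  simpa using this

/-- a tuple of the conjunction is changed as the conjunction -/
theorem flipO_sub {σ : Option Lit} {J Z : List Lit} (h : ∀ l ∈ J, l ∈ Z) :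
    ∀ l ∈ flipO σ J, l ∈ flipO σ Z := by
  cases σ with
  | none => exact h
  | some m =>
    intro l hl
    simp only [flipO, flip, List.mem_map] at hl ⊢
    obtain ⟨l', h1, h2⟩ := hl
    exact ⟨l', h l' h1, h2⟩

theorem flip_of_notMem {m : Lit} {J : List Lit} (h : m ∉ J) : flip m J = J := by
  rw [flip]
  conv_rhs => rw [← List.map_id J]
  refine List.map_congr_left fun l hl => ?_
  have : l ≠ m := fun e => h (e ▸ hl)
  simp [this]

theorem flip_ne {m : Lit} {J : List Lit} (h : m ∈ J) {σ : Option Lit} (hσ : σ ≠ some m) :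
    (flip m J).map Prod.snd ≠ (flipO σ J).map Prod.snd := by
  obtain ⟨i, hi, hm⟩ := List.getElem_of_mem h
  intro e
  have h1 : ((flip m J).map Prod.snd)[i]'(by simpa [flip] using hi) = !m.2 := by
    simp [flip, hm]
  have h2 : ((flipO σ J).map Prod.snd)[i]'(by simpa [length_flipO] using hi) = m.2 := by
    cases σ with
    | none => simp [flipO, hm]
    | some m' =>
      have : m ≠ m' := fun e => hσ (by rw [e])
      simp [flipO, flip, hm, this]
  have h3 : ((flip m J).map Prod.snd)[i]'(by simpa [flip] using hi) =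
      ((flipO σ J).map Prod.snd)[i]'(by simpa [length_flipO] using hi) := by
    congr 1
  rw [h1, h2] at h3
  cases hm2 : m.2 <;> simp [hm2] at h3

theorem flipO_inj {J : List Lit} {σ τ : Option Lit} (h1 : ∀ m, σ = some m → m ∈ J)
    (h2 : ∀ m, τ = some m → m ∈ J)
    (h : (flipO σ J).map Prod.snd = (flipO τ J).map Prod.snd) : σ = τ := by
  by_contra hne
  rcases σ with _ | m
  · rcases τ with _ | m'
    · exact hne rfl
    · exact flip_ne (h2 m' rfl) hne h.symm
  · exact flip_ne (h1 m rfl) (fun e => hne e.symm) h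

section

variable {n s : ℕ} {fq : List Word → Word} {lv : List Word → Bool → List (List Bool)}

theorem isPat_of_alive {w t : List Lit} (h : alive n fq lv w = true)
    (ht : ∀ l ∈ t, l ∈ ext n fq lv w) (hl : t.length = n) : isPat lv t = true := by
  rw [alive, ok, List.all_eq_true] at h
  exact h t (mem_tuples.2 ⟨hl, ht⟩)

theorem mem_ext {w : List Lit} {l : Lit} (h : l ∈ w) : l ∈ ext n fq lv w :=
  List.mem_append_left _ h

/-- the first query for an `n`-subset of the literals distinguishes exactly half of the cases -/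
theorem halves (hn : n + 1 = 2 * s) (hlv : ∀ u b, (lv u b).length ≤ s) {Z : List Lit}
    (h0 : alive n fq lv Z = true) (h1 : ∀ m ∈ Z, alive n fq lv (flip m Z) = true)
    (J : Finset Lit) (hJZ : ∀ l ∈ J, l ∈ Z) (hJc : J.card = n) :
    ∃ (S : Finset Lit) (c : Bool), S ⊆ J ∧ S.card = s ∧
      ∀ σ : Option Lit, (∀ m, σ = some m → m ∈ Z) →
        (fq (J.toList.map Prod.fst), xor c (decide (∃ m ∈ S, σ = some m))) ∈
          ext n fq lv (flipO σ Z) := by
  classical
  set L := J.toList with hL
  have hLl : L.length = n := by rw [hL, Finset.length_toList, hJc]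
  have hLm : ∀ l, l ∈ L ↔ l ∈ J := fun l => by rw [hL, Finset.mem_toList]
  have hal : ∀ σ : Option Lit, (∀ m, σ = some m → m ∈ Z) → alive n fq lv (flipO σ Z) = true := by
    intro σ hσ
    cases σ with
    | none => exact h0
    | some m => exact h1 m (hσ m rfl)
  have hsub : ∀ σ : Option Lit, ∀ l ∈ flipO σ L, l ∈ flipO σ Z := fun σ =>
    flipO_sub fun l hl => hJZ l ((hLm l).1 hl)
  -- the patterns
  let P : Option Lit → List Bool := fun σ => (flipO σ L).map Prod.snd
  have hP : ∀ σ : Option Lit, (∀ m, σ = some m → m ∈ Z) →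
      P σ ∈ lv (L.map Prod.fst) true ∨ P σ ∈ lv (L.map Prod.fst) false := by
    intro σ hσ
    have := isPat_of_alive (hal σ hσ) (t := flipO σ L)
      (fun l hl => mem_ext (hsub σ l hl)) (by rw [length_flipO, hLl])
    rw [isPat, decide_eq_true_iff, flipO_fst, List.mem_append] at this
    exact this
  let QQ : Finset (Option Lit) := insert none (J.map Function.Embedding.some)
  have hQc : QQ.card = 2 * s := by
    rw [Finset.card_insert_of_notMem (by simp), Finset.card_map, hJc, hn]
  have hQm : ∀ σ ∈ QQ, ∀ m, σ = some m → m ∈ J := by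
    intro σ hσ m hm
    subst hm
    simpa [QQ] using hσ
  have hinj : Set.InjOn P QQ := by
    intro σ hσ τ hτ h
    exact flipO_inj (fun m hm => (hLm m).2 (hQm σ hσ m hm))
      (fun m hm => (hLm m).2 (hQm τ hτ m hm)) h
  let A : Bool → Finset (Option Lit) := fun b => QQ.filter fun σ => P σ ∈ lv (L.map Prod.fst) b
  have hAc : ∀ b, (A b).card ≤ s := by
    intro b
    have h2 : (A b).card ≤ (lv (L.map Prod.fst) b).toFinset.card := by
      apply Finset.card_le_card_of_injOn P
      · intro σ hσ
        have := (Finset.mem_filter.1 hσ).2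
        simpa using this
      · exact hinj.mono (Finset.filter_subset _ _)
    exact h2.trans ((List.toFinset_card_le _).trans (hlv _ _))
  have hAu : A true ∪ A false = QQ := by
    ext σ
    simp only [A, Finset.mem_union, Finset.mem_filter]
    constructor
    · rintro (h | h) <;> exact h.1
    · intro h
      rcases hP σ (fun m hm => hJZ m (hQm σ h m hm)) with h2 | h2
      · exact .inl ⟨h, h2⟩
      · exact .inr ⟨h, h2⟩
  have hcu := Finset.card_union_add_card_inter (A true) (A false)
  rw [hAu, hQc] at hcu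
  have ht := hAc true
  have hf := hAc false
  have hcard : ∀ b, (A b).card = s := by
    intro b; cases b <;> omega
  have hdisj : ∀ σ, σ ∈ A true → σ ∈ A false → False := by
    have : (A true ∩ A false).card = 0 := by omega
    rw [Finset.card_eq_zero] at this
    intro σ h2 h3
    have h4 : σ ∈ A true ∩ A false := Finset.mem_inter.2 ⟨h2, h3⟩
    rw [this] at h4
    simp at h4
  have hnone : (none : Option Lit) ∈ QQ := by simp [QQ]
  -- the bit of the empty state
  obtain ⟨c, hc⟩ : ∃ c, none ∈ A c := by
    rw [← hAu, Finset.mem_union] at hnone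
    rcases hnone with h | h
    · exact ⟨_, h⟩
    · exact ⟨_, h⟩
  have hdis : ∀ σ, σ ∈ A c → σ ∉ A (!c) := by
    intro σ h2 h3
    cases c
    · exact hdisj σ h3 h2
    · exact hdisj σ h2 h3
  have huni : ∀ σ, σ ∈ QQ → σ ∉ A c → σ ∈ A (!c) := by
    intro σ h2 h3
    rw [← hAu, Finset.mem_union] at h2
    cases c
    · rcases h2 with h | h
      · exact h
      · exact absurd h h3
    · rcases h2 with h | h
      · exact absurd h h3
      · exact h
  let S : Finset Lit := J.filter fun m => some m ∈ A (!c)
  refine ⟨S, c, Finset.filter_subset _ _, ?_, ?_⟩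
  · rw [← hcard (!c)]
    have : A (!c) = S.map Function.Embedding.some := by
      ext σ
      rcases σ with _ | m
      · simp only [Finset.mem_map]
        constructor
        · intro h
          exact absurd h (hdis none hc)
        · rintro ⟨m, _, hm⟩
          cases hm
      · simp only [Finset.mem_map, Function.Embedding.some_apply, Option.some.injEq,
          exists_eq_right, S, Finset.mem_filter]
        constructor
        · intro h
          exact ⟨hQm _ (Finset.mem_filter.1 h).1 m rfl, h⟩
        · exact fun h => h.2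
    rw [this, Finset.card_map]
  · intro σ hσ
    -- the tuple of this state
    have htup : flipO σ L ∈ tuples (flipO σ Z) n :=
      mem_tuples.2 ⟨by rw [length_flipO, hLl], hsub σ⟩
    have hmem : ∀ b, P σ ∉ lv (L.map Prod.fst) (!b) →
        (fq (L.map Prod.fst), b) ∈ ext n fq lv (flipO σ Z) := by
      intro b hb
      refine List.mem_append_right _ (List.mem_flatMap.2 ⟨_, htup, ?_⟩)
      rw [forced, flipO_fst, List.mem_append]
      cases b
      · right
        rw [if_neg (by simpa using hb)]
        simp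
      · left
        rw [if_neg (by simpa using hb)]
        simp
    by_cases hσS : ∃ m ∈ S, σ = some m
    · rw [decide_eq_true hσS, Bool.xor_true]
      apply hmem
      rw [Bool.not_not]
      obtain ⟨m, hm, rfl⟩ := hσS
      have h2 := (Finset.mem_filter.1 hm).2
      intro h3
      have h4 : some m ∈ A c := Finset.mem_filter.2 ⟨(Finset.mem_filter.1 h2).1, h3⟩
      exact hdis _ h4 h2
    · rw [decide_eq_false hσS, Bool.xor_false]
      apply hmem
      -- the pattern is that of `none` or of an unmarked literal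
      by_cases hσQ : σ ∈ QQ
      · intro h3
        have h4 : σ ∈ A (!c) := Finset.mem_filter.2 ⟨hσQ, h3⟩
        rcases σ with _ | m
        · exact hdis none hc h4
        · exact hσS ⟨m, Finset.mem_filter.2 ⟨hQm _ hσQ m rfl, h4⟩, rfl⟩
      · -- here `σ` is not in `J`
        rcases σ with _ | m
        · exact absurd hnone hσQ
        · have hmJ : m ∉ L := by
            rw [hLm]
            intro h
            exact hσQ (by simp [QQ, h])
          have : P (some m) = P none := by
            change (flip m L).map Prod.snd = L.map Prod.snd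
            rw [flip_of_notMem hmJ]
          rw [this]
          intro h3
          exact hdis none hc (Finset.mem_filter.2 ⟨hnone, h3⟩)

/-- a long conjunction can be reduced -/
theorem exists_dead (hn : n + 1 = 2 * s) (hs2 : 2 ≤ s) (hlv : ∀ u b, (lv u b).length ≤ s)
    {Z : List Lit} (hnd : Z.Nodup) (hZ : n + 2 ≤ Z.length) (h0 : alive n fq lv Z = true) :
    ∃ m ∈ Z, alive n fq lv (flip m Z) = false := by
  classical
  by_contra hcon
  have h1 : ∀ m ∈ Z, alive n fq lv (flip m Z) = true := by
    intro m hm
    by_contra h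
    exact hcon ⟨m, hm, by simpa using h⟩
  have hal : ∀ σ : Option Lit, (∀ m, σ = some m → m ∈ Z) → alive n fq lv (flipO σ Z) = true := by
    intro σ hσ
    cases σ with
    | none => exact h0
    | some m => exact h1 m (hσ m rfl)
  have key : ∀ J : Finset Lit, ∃ (S : Finset Lit) (c : Bool), J ⊆ Z.toFinset → J.card = n →
      (S ⊆ J ∧ S.card = s) ∧
      ∀ σ : Option Lit, (∀ m, σ = some m → m ∈ Z) →
        (fq (J.toList.map Prod.fst), xor c (decide (∃ m ∈ S, σ = some m))) ∈
          ext n fq lv (flipO σ Z) := by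
    intro J
    by_cases hJ : J ⊆ Z.toFinset ∧ J.card = n
    · obtain ⟨S, c, h2, h3, h4⟩ := halves hn hlv h0 h1 J
        (fun l hl => List.mem_toFinset.1 (hJ.1 hl)) hJ.2
      exact ⟨S, c, fun _ _ => ⟨⟨h2, h3⟩, h4⟩⟩
    · exact ⟨∅, true, fun a b => absurd ⟨a, b⟩ hJ⟩
  choose S c hS using key
  have hZc : n + 2 ≤ Z.toFinset.card := by rwa [List.toFinset_card_of_nodup hnd]
  obtain ⟨J, J', ⟨hJ1, hJ2⟩, ⟨hJ1', hJ2'⟩, a, b, d, ⟨ha, ha'⟩, ⟨hb, hb'⟩, hd, hd'⟩ :=
    crossing hn hs2 hZc S fun J h2 h3 => (hS J h2 h3).1
  have hE := (hS J hJ1 hJ2).2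
  have hE' := (hS J' hJ1' hJ2').2
  have haZ : a ∈ Z := List.mem_toFinset.1 (hJ1 ((hS J hJ1 hJ2).1.1 ha))
  have hbZ : b ∈ Z := List.mem_toFinset.1 (hJ1 ((hS J hJ1 hJ2).1.1 hb))
  have hdZ : d ∈ Z := List.mem_toFinset.1 (hJ1' ((hS J' hJ1' hJ2').1.1 hd'))
  have hab : a ≠ b := fun e => ha' (e ▸ hb')
  have had : a ≠ d := fun e => hd (e ▸ ha)
  have hbd : b ≠ d := fun e => hd (e ▸ hb)
  -- further literals
  have hrest : n - 2 ≤ (Z.toFinset \ {a, b, d}).card := by
    have h2 := Finset.le_card_sdiff {a, b, d} Z.toFinset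
    have h3 : ({a, b, d} : Finset Lit).card ≤ 3 := Finset.card_le_three
    omega
  obtain ⟨K, hKs, hKc⟩ := Finset.exists_subset_card_eq hrest
  set L := K.toList with hL
  have hLl : L.length = n - 2 := by rw [hL, Finset.length_toList, hKc]
  have hLm : ∀ l, l ∈ L ↔ l ∈ K := fun l => by rw [hL, Finset.mem_toList]
  have hKZ : ∀ l ∈ L, l ∈ Z := by
    intro l hl
    have := hKs ((hLm l).1 hl)
    rw [Finset.mem_sdiff, List.mem_toFinset] at this
    exact this.1
  have hKn : ∀ l, l = a ∨ l = b ∨ l = d → l ∉ L := by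
    intro l hl hl'
    have := hKs ((hLm l).1 hl')
    rw [Finset.mem_sdiff] at this
    apply this.2
    simp only [Finset.mem_insert, Finset.mem_singleton]
    exact hl
  let q := fq (J.toList.map Prod.fst)
  let q' := fq (J'.toList.map Prod.fst)
  let T : Option Lit → List Lit := fun σ =>
    (q, xor (c J) (decide (∃ m ∈ S J, σ = some m))) ::
      (q', xor (c J') (decide (∃ m ∈ S J', σ = some m))) :: flipO σ L
  have hTl : ∀ σ, (T σ).length = n := by
    intro σ
    simp only [T, List.length_cons, length_flipO, hLl]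
    omega
  have hTf : ∀ σ, (T σ).map Prod.fst = q :: q' :: L.map Prod.fst := by
    intro σ
    simp only [T, List.map_cons, flipO_fst]
  let QQ : Finset (Option Lit) :=
    insert none (insert (some a) (insert (some b) (insert (some d)
      (K.map Function.Embedding.some))))
  have hQZ : ∀ σ ∈ QQ, ∀ m, σ = some m → m ∈ Z := by
    intro σ hσ m hm
    subst hm
    simp only [QQ, Finset.mem_insert, Finset.mem_map, Function.Embedding.some_apply,
      Option.some.injEq, exists_eq_right, reduceCtorEq, false_or] at hσ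
    rcases hσ with rfl | rfl | rfl | h
    · exact haZ
    · exact hbZ
    · exact hdZ
    · exact hKZ m ((hLm m).2 h)
  have hTe : ∀ σ ∈ QQ, ∀ l ∈ T σ, l ∈ ext n fq lv (flipO σ Z) := by
    intro σ hσ l hl
    simp only [T, List.mem_cons] at hl
    rcases hl with rfl | rfl | hl
    · exact hE σ (hQZ σ hσ)
    · exact hE' σ (hQZ σ hσ)
    · exact mem_ext (flipO_sub hKZ l hl)
  have hpat : ∀ σ ∈ QQ, (T σ).map Prod.snd ∈
      lv (q :: q' :: L.map Prod.fst) true ++ lv (q :: q' :: L.map Prod.fst) false := by
    intro σ hσ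
    have := isPat_of_alive (hal σ (hQZ σ hσ)) (hTe σ hσ) (hTl σ)
    rw [isPat, decide_eq_true_iff, hTf] at this
    exact this
  have hQc : QQ.card = n + 2 := by
    have hKa : ∀ l, l = a ∨ l = b ∨ l = d → l ∉ K := fun l hl => by
      rw [← hLm]; exact hKn l hl
    rw [Finset.card_insert_of_notMem (by simp), Finset.card_insert_of_notMem,
      Finset.card_insert_of_notMem, Finset.card_insert_of_notMem, Finset.card_map, hKc]
    · omega
    · simpa using hKa d (by simp)
    · simpa [hbd] using hKa b (by simp)
    · simpa [hab, had] using hKa a (by simp)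
  -- the patterns of these states are distinct
  have hinj : Set.InjOn (fun σ => (T σ).map Prod.snd) QQ := by
    intro σ hσ τ hτ h
    simp only [T, List.map_cons, List.cons.injEq] at h
    obtain ⟨e1, e2, e3⟩ := h
    by_contra hne
    have hout : ∀ σ : Option Lit, σ ∈ QQ → (∃ m ∈ L, σ = some m) ∨
        (flipO σ L = L ∧ (σ = none ∨ σ = some a ∨ σ = some b ∨ σ = some d)) := by
      intro σ hσ
      rcases σ with _ | m
      · right; exact ⟨rfl, by simp⟩
      · by_cases hmL : m ∈ L
        · left; exact ⟨m, hmL, rfl⟩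
        · right
          refine ⟨flip_of_notMem hmL, ?_⟩
          simp only [QQ, Finset.mem_insert, Finset.mem_map,
            Function.Embedding.some_apply,
            Option.some.injEq, exists_eq_right, reduceCtorEq, false_or] at hσ
          rw [← hLm] at hσ
          simp only [reduceCtorEq, Option.some.injEq, false_or]
          tauto
    rcases hout σ hσ with ⟨m, hm, rfl⟩ | ⟨hσL, hσc⟩
    · exact flip_ne hm (fun e => hne e.symm) e3
    · rcases hout τ hτ with ⟨m, hm, rfl⟩ | ⟨hτL, hτc⟩
      · exact flip_ne hm hne e3.symm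
      · have hx : ∀ u v w : Bool, xor u v = xor u w → v = w := by decide
        have e1' := hx _ _ _ e1
        have e2' := hx _ _ _ e2
        rcases hσc with rfl | rfl | rfl | rfl <;> rcases hτc with rfl | rfl | rfl | rfl <;>
          first
          | exact hne rfl
          | (simp [ha, ha', hb, hb', hd, hd'] at e1' e2')
  have hle : QQ.card ≤
      (lv (q :: q' :: L.map Prod.fst) true ++ lv (q :: q' :: L.map Prod.fst) false).toFinset.card :=
    Finset.card_le_card_of_injOn (fun σ => (T σ).map Prod.snd)
      (fun σ hσ => List.mem_toFinset.2 (hpat σ hσ)) hinj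
  have h5 := List.toFinset_card_le
    (lv (q :: q' :: L.map Prod.fst) true ++ lv (q :: q' :: L.map Prod.fst) false)
  rw [List.length_append] at h5
  have h6 := hlv (q :: q' :: L.map Prod.fst) true
  have h7 := hlv (q :: q' :: L.map Prod.fst) false
  omega

/-! ### the length of shrunk conjunctions -/

/-- short conjunctions over `Y` -/
def Short (n : ℕ) (Y : List Lit) (Z : List Lit) : Prop :=
  Z.Nodup ∧ Z.length ≤ n + 1 ∧ ∀ l ∈ Z, l ∈ Y

theorem shrinkStep_short (hn : n + 1 = 2 * s) (hs2 : 2 ≤ s) (hlv : ∀ u b, (lv u b).length ≤ s)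
    {S : List (List Lit)} {Y : List Lit} {l : Lit} (hS : ∀ Z ∈ S, Short n Y Z) (hl : l ∈ Y) :
    ∀ Z ∈ shrinkStep n fq lv S l, Short n Y Z := by
  intro Z hZ
  rw [shrinkStep, List.mem_flatMap] at hZ
  obtain ⟨Z', hZ', hZ⟩ := hZ
  obtain ⟨h1, h2, h3⟩ := hS Z' hZ'
  split_ifs at hZ with hc
  · rw [List.mem_singleton] at hZ
    subst hZ
    exact ⟨h1, h2, h3⟩
  · have hlZ : l ∉ Z' := by simpa using hc
    have hnd : (l :: Z').Nodup := List.nodup_cons.2 ⟨hlZ, h1⟩
    rw [red] at hZ
    split_ifs at hZ with ha
    · rw [List.mem_singleton] at hZ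
      subst hZ
      refine ⟨hnd.filter _, ?_, ?_⟩
      · rcases Nat.lt_or_ge (l :: Z').length (n + 2) with hlt | hge
        · exact (List.length_filter_le _ _).trans (by omega)
        · obtain ⟨m, hm, hdead⟩ := exists_dead hn hs2 hlv hnd hge ha
          -- the candidate list is nonempty
          obtain ⟨m', r, hc'⟩ : ∃ m' r, (l :: Z').filter (fun m =>
              !(alive n fq lv (flip m (l :: Z')))) = m' :: r := by
            have : m ∈ (l :: Z').filter (fun m => !(alive n fq lv (flip m (l :: Z')))) :=
              List.mem_filter.2 ⟨hm, by simp [hdead]⟩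
            exact List.exists_cons_of_ne_nil (List.ne_nil_of_mem this)
          have hm' : m' ∈ l :: Z' := by
            have : m' ∈ (l :: Z').filter (fun m => !(alive n fq lv (flip m (l :: Z')))) := by
              rw [hc']; simp
            exact (List.mem_filter.1 this).1
          have hcands : cands n fq lv (l :: Z') = [m'] := by
            rw [cands, hc']; rfl
          rw [hcands]
          have hlt2 : ((l :: Z').filter fun l_1 => !(decide (l_1 ∈ [m']))).length <
              (l :: Z').length := by
            apply List.length_filter_lt_length_iff_exists.2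
            exact ⟨m', hm', by simp⟩
          simp only [List.length_cons] at hlt2 ⊢
          omega
      · intro m hm
        rcases List.mem_cons.1 (List.mem_filter.1 hm).1 with rfl | hm
        · exact hl
        · exact h3 m hm
    · simp at hZ

theorem shrinkStep_length {S : List (List Lit)} {l : Lit} (hS : S.length ≤ 1) :
    (shrinkStep n fq lv S l).length ≤ 1 := by
  match S, hS with
  | [], _ => simp [shrinkStep]
  | [Z], _ =>
    simp only [shrinkStep, List.flatMap_cons, List.flatMap_nil, List.append_nil]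
    split_ifs with h
    · simp
    · rw [red]
      split_ifs <;> simp

theorem shrink_short (hn : n + 1 = 2 * s) (hs2 : 2 ≤ s) (hlv : ∀ u b, (lv u b).length ≤ s)
    (Y : List Lit) : (∀ Z ∈ shrink n fq lv Y, Short n Y Z) ∧ (shrink n fq lv Y).length ≤ 1 := by
  have key : ∀ (X : List Lit) (S : List (List Lit)), (∀ l ∈ X, l ∈ Y) →
      (∀ Z ∈ S, Short n Y Z) → S.length ≤ 1 →
      (∀ Z ∈ X.foldl (shrinkStep n fq lv) S, Short n Y Z) ∧
        (X.foldl (shrinkStep n fq lv) S).length ≤ 1 := by
    intro X
    induction X with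
    | nil => intro S _ h1 h2; exact ⟨h1, h2⟩
    | cons l X ih =>
      intro S hX h1 h2
      rw [List.foldl_cons]
      exact ih _ (fun m hm => hX m (by simp [hm]))
        (shrinkStep_short hn hs2 hlv h1 (hX l (by simp))) (shrinkStep_length h2)
  exact key Y [[]] (fun _ h => h) (by
    intro Z hZ
    rw [List.mem_singleton] at hZ
    subst hZ
    exact ⟨List.nodup_nil, by simp, by simp⟩) (by simp)

end

end Pool.Agent.Lib.MP_4eb50a_lc
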