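import Pool.Agent.Lib.MP_4eb50a_lc.Lists

/-!
# From oracle programs to functions of the input and the list of answers
-/

set_option linter.unusedVariables false

namespace Pool.Agent.Lib.MP_4eb50a_lc

/-- a pair, meaning 'true' -/
def Prog.one : Prog := .cons .nil .nil

/-- normal state: value and remaining answers -/
def stN (v : Tr) (a : List Bool) : Tr := .cons .nil (.cons v (enc a))

/-- the answers are exhausted and a query is pending -/
def stE (q : Tr) : Tr := .cons (.cons .nil .nil) q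

/-- from `(st₁, S)` with `st₁ = (value, answers)` make the state `(value of S, answers of st₁)` -/
def Prog.mk : Prog :=
  .cons .nil (.cons (.comp .tl (.comp .tl .hd)) (.comp .hd (.comp .tl .tl)))

/-- the value of the first state of a pair of states -/
def Prog.val : Prog := .comp .hd (.comp .tl .hd)

/-- body of the loop simulating a loop -/
def Prog.loopBody (p q : Prog) : Prog :=
  .comp .tl (.comp (.cons p .id) (.cond (.comp .hd .hd) (.cons .nil .hd)
    (.cond .val (.comp .mk (.comp q (.cons (.cond .hd .nil .one) .id))) (.cons .nil .mk))))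

/-- the program transformation -/
def Prog.sim : Prog → Prog
  | .id => .id
  | .nil => .cons .nil (.cons .nil (.comp .tl .tl))
  | .hd => .cons .nil (.cons (.comp (.comp .tl .hd) .hd) (.comp .tl .tl))
  | .tl => .cons .nil (.cons (.comp (.comp .tl .hd) .tl) (.comp .tl .tl))
  | .cons p q => .comp (.cons p.sim .id) (.cond (.comp .hd .hd) .hd
      (.comp (.cons (.comp .mk q.sim) .val) (.cond (.comp .hd .hd) .hd
        (.cons .nil (.cons (.cons .tl .val) (.comp .hd (.comp .tl .tl)))))))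
  | .comp p q => .comp p.sim (.cond .hd .id q.sim)
  | .cond p q r => .comp (.cons p.sim .id) (.cond (.comp .hd .hd) .hd
      (.cond .val (.comp .mk q.sim) (.comp .mk r.sim)))
  | .loop p q => .comp (.cons .one .id) (.comp (.loop .hd (.loopBody p.sim q.sim)) .tl)
  | .ask => .cond (.comp .tl .tl)
      (.cons .nil (.cons (.comp (.comp .tl .tl) .hd) (.comp (.comp .tl .tl) .tl)))
      (.cons .one (.comp .tl .hd))

/-- time factor -/
def simC : ℕ := 100

def SimOK (r : Prog) (x : Tr) (log : List (Word × Bool)) (y : Tr) (t : ℕ) : Prop :=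
  (∀ rest : List Bool, ∃ t', t' ≤ simC * t ∧
    Run r (stN x (log.map Prod.snd ++ rest)) [] (stN y rest) t') ∧
  ∀ l₁ e l₂, log = l₁ ++ e :: l₂ → ∃ q t', Tr.toWord q = e.1 ∧ t' ≤ simC * t ∧
    Run r (stN x (l₁.map Prod.snd)) [] (stE q) t'

def LoopOK (p q : Prog) (x : Tr) (log : List (Word × Bool)) (y : Tr) (t : ℕ) : Prop :=
  (∀ rest : List Bool, ∃ t', t' + 20 ≤ simC * t ∧
    Run (.loop .hd (.loopBody p.sim q.sim))
      (.cons (.cons .nil .nil) (stN x (log.map Prod.snd ++ rest))) [] (.cons .nil (stN y rest))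
      t') ∧
  ∀ l₁ e l₂, log = l₁ ++ e :: l₂ → ∃ u t', Tr.toWord u = e.1 ∧ t' + 20 ≤ simC * t ∧
    Run (.loop .hd (.loopBody p.sim q.sim))
      (.cons (.cons .nil .nil) (stN x (l₁.map Prod.snd))) [] (.cons .nil (stE u)) t'

def Inner (p : Prog) (x : Tr) (log : List (Word × Bool)) (y : Tr) (t : ℕ) : Prop :=
  match p with
  | .loop p q => LoopOK p q x log y t
  | _ => True

theorem split_append {α : Type} {l₁ l₂ a c : List α} {e : α} (h : l₁ ++ l₂ = a ++ e :: c) :
    (∃ m, l₁ = a ++ e :: m) ∨ ∃ m, a = l₁ ++ m ∧ l₂ = m ++ e :: c := by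
  rcases List.append_eq_append_iff.1 h with ⟨m, h1, h2⟩ | ⟨m, h1, h2⟩
  · exact Or.inr ⟨m, h1, h2⟩
  · cases m with
    | nil =>
      right
      exact ⟨[], by simpa using h1.symm, by simpa using h2.symm⟩
    | cons b m =>
      left
      simp only [List.cons_append, List.cons.injEq] at h2
      exact ⟨m, by rw [h1, h2.1]⟩

theorem run_mk (c v : Tr) (a a1 : List Bool) :
    Run .mk (.cons (stN c a1) (stN v a)) [] (stN v a1) 13 :=
  Run.cons (l₁ := []) (l₂ := []) (Run.nil _) (Run.cons (l₁ := []) (l₂ := [])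
    (Run.comp (l₁ := []) (l₂ := []) (Run.tl _) (Run.comp (l₁ := []) (l₂ := []) (Run.tl _)
      (Run.hd _)))
    (Run.comp (l₁ := []) (l₂ := []) (Run.hd _) (Run.comp (l₁ := []) (l₂ := []) (Run.tl _)
      (Run.tl _))))

theorem run_val (c : Tr) (a : List Bool) (z : Tr) :
    Run .val (.cons (stN c a) z) [] c 5 :=
  Run.comp (l₁ := []) (l₂ := []) (Run.hd _)
    (Run.comp (l₁ := []) (l₂ := []) (Run.tl _) (Run.hd _))

theorem run_one (x : Tr) : Run .one x [] (.cons .nil .nil) 3 :=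
  Run.cons (l₁ := []) (l₂ := []) (Run.nil _) (Run.nil _)

theorem run_hh (x y z : Tr) : Run (.comp .hd .hd) (.cons (.cons x y) z) [] x 3 :=
  Run.comp (l₁ := []) (l₂ := []) (Run.hd _) (Run.hd _)

/-- local abbreviations with empty logs -/
theorem rcomp {p q : Prog} {x y z : Tr} {t₁ t₂ : ℕ} (h : Run p x [] y t₁) (k : Run q y [] z t₂) :
    Run (.comp p q) x [] z (t₁ + t₂ + 1) := Run.comp (l₁ := []) (l₂ := []) h k

theorem rcons {p q : Prog} {x y z : Tr} {t₁ t₂ : ℕ} (h : Run p x [] y t₁) (k : Run q x [] z t₂) :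
    Run (.cons p q) x [] (.cons y z) (t₁ + t₂ + 1) := Run.cons (l₁ := []) (l₂ := []) h k

theorem rcondT {p q r : Prog} {x c y : Tr} {t₁ t₂ : ℕ} (h : Run p x [] c t₁)
    (hc : c.toBool = true) (k : Run q x [] y t₂) :
    Run (.cond p q r) x [] y (t₁ + t₂ + 1) := Run.condT (l₁ := []) (l₂ := []) h hc k

theorem rcondF {p q r : Prog} {x c y : Tr} {t₁ t₂ : ℕ} (h : Run p x [] c t₁)
    (hc : c.toBool = false) (k : Run r x [] y t₂) :
    Run (.cond p q r) x [] y (t₁ + t₂ + 1) := Run.condF (l₁ := []) (l₂ := []) h hc k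

theorem sim_ok {p : Prog} {x y : Tr} {log : List (Word × Bool)} {t : ℕ} (h : Run p x log y t) :
    SimOK p.sim x log y t ∧ Inner p x log y t := by
  induction h with
  | id x =>
    refine ⟨⟨fun rest => ⟨1, by simp [simC], Run.id _⟩, fun l₁ e l₂ h => by simp at h⟩, trivial⟩
  | nil x =>
    refine ⟨⟨fun rest => ⟨_, ?_, rcons (Run.nil _) (rcons (Run.nil _)
      (rcomp (Run.tl _) (Run.tl _)))⟩, fun l₁ e l₂ h => by simp at h⟩, trivial⟩
    simp [simC]
  | hd x =>
    refine ⟨⟨fun rest => ⟨_, ?_, rcons (Run.nil _) (rcons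
      (rcomp (rcomp (Run.tl _) (Run.hd _)) (Run.hd _))
      (rcomp (Run.tl _) (Run.tl _)))⟩, fun l₁ e l₂ h => by simp at h⟩, trivial⟩
    simp [simC]
  | tl x =>
    refine ⟨⟨fun rest => ⟨_, ?_, rcons (Run.nil _) (rcons
      (rcomp (rcomp (Run.tl _) (Run.hd _)) (Run.tl _))
      (rcomp (Run.tl _) (Run.tl _)))⟩, fun l₁ e l₂ h => by simp at h⟩, trivial⟩
    simp [simC]
  | @cons p q x y z l₁ l₂ t₁ t₂ _ _ ih1 ih2 =>
    obtain ⟨⟨n1, e1⟩, -⟩ := ih1
    obtain ⟨⟨n2, e2⟩, -⟩ := ih2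
    refine ⟨⟨fun rest => ?_, fun a e c h => ?_⟩, trivial⟩
    · obtain ⟨s1, hs1, r1⟩ := n1 (l₂.map Prod.snd ++ rest)
      obtain ⟨s2, hs2, r2⟩ := n2 rest
      rw [List.map_append, List.append_assoc]
      refine ⟨_, ?_, rcomp (rcons r1 (Run.id _)) (rcondF (run_hh _ _ _) rfl
        (rcomp (rcons (rcomp (run_mk _ _ _ _) r2) (run_val _ _ _))
        (rcondF (run_hh _ _ _) rfl (rcons (Run.nil _) (rcons (rcons (Run.tl _) (run_val _ _ _))
          (rcomp (Run.hd _) (rcomp (Run.tl _) (Run.tl _))))))))⟩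
      simp only [simC] at *; omega
    · rcases split_append h with ⟨m, hm⟩ | ⟨m, hm1, hm2⟩
      · obtain ⟨u, s1, hu, hs1, r1⟩ := e1 a e m hm
        refine ⟨u, _, hu, ?_, rcomp (rcons r1 (Run.id _)) (rcondT (run_hh _ _ _) rfl
          (Run.hd _))⟩
        simp only [simC] at *; omega
      · obtain ⟨s1, hs1, r1⟩ := n1 (m.map Prod.snd)
        obtain ⟨u, s2, hu, hs2, r2⟩ := e2 m e c hm2
        rw [hm1, List.map_append]
        refine ⟨u, _, hu, ?_, rcomp (rcons r1 (Run.id _)) (rcondF (run_hh _ _ _) rfl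
          (rcomp (rcons (rcomp (run_mk _ _ _ _) r2) (run_val _ _ _))
          (rcondT (run_hh _ _ _) rfl (Run.hd _))))⟩
        simp only [simC] at *; omega
  | @comp p q x y z l₁ l₂ t₁ t₂ _ _ ih1 ih2 =>
    obtain ⟨⟨n1, e1⟩, -⟩ := ih1
    obtain ⟨⟨n2, e2⟩, -⟩ := ih2
    refine ⟨⟨fun rest => ?_, fun a e c h => ?_⟩, trivial⟩
    · obtain ⟨s1, hs1, r1⟩ := n1 (l₂.map Prod.snd ++ rest)
      obtain ⟨s2, hs2, r2⟩ := n2 rest
      rw [List.map_append, List.append_assoc]
      refine ⟨_, ?_, rcomp r1 (rcondF (Run.hd _) rfl r2)⟩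
      simp only [simC] at *; omega
    · rcases split_append h with ⟨m, hm⟩ | ⟨m, hm1, hm2⟩
      · obtain ⟨u, s1, hu, hs1, r1⟩ := e1 a e m hm
        refine ⟨u, _, hu, ?_, rcomp r1 (rcondT (Run.hd _) rfl (Run.id _))⟩
        simp only [simC] at *; omega
      · obtain ⟨s1, hs1, r1⟩ := n1 (m.map Prod.snd)
        obtain ⟨u, s2, hu, hs2, r2⟩ := e2 m e c hm2
        rw [hm1, List.map_append]
        refine ⟨u, _, hu, ?_, rcomp r1 (rcondF (Run.hd _) rfl r2)⟩
        simp only [simC] at *; omega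
  | @condT p q r x c y l₁ l₂ t₁ t₂ _ hc _ ih1 ih2 =>
    obtain ⟨⟨n1, e1⟩, -⟩ := ih1
    obtain ⟨⟨n2, e2⟩, -⟩ := ih2
    refine ⟨⟨fun rest => ?_, fun a e b h => ?_⟩, trivial⟩
    · obtain ⟨s1, hs1, r1⟩ := n1 (l₂.map Prod.snd ++ rest)
      obtain ⟨s2, hs2, r2⟩ := n2 rest
      rw [List.map_append, List.append_assoc]
      refine ⟨_, ?_, rcomp (rcons r1 (Run.id _)) (rcondF (run_hh _ _ _) rfl
        (rcondT (run_val _ _ _) hc (rcomp (run_mk _ _ _ _) r2)))⟩
      simp only [simC] at *; omega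
    · rcases split_append h with ⟨m, hm⟩ | ⟨m, hm1, hm2⟩
      · obtain ⟨u, s1, hu, hs1, r1⟩ := e1 a e m hm
        refine ⟨u, _, hu, ?_, rcomp (rcons r1 (Run.id _)) (rcondT (run_hh _ _ _) rfl
          (Run.hd _))⟩
        simp only [simC] at *; omega
      · obtain ⟨s1, hs1, r1⟩ := n1 (m.map Prod.snd)
        obtain ⟨u, s2, hu, hs2, r2⟩ := e2 m e b hm2
        rw [hm1, List.map_append]
        refine ⟨u, _, hu, ?_, rcomp (rcons r1 (Run.id _)) (rcondF (run_hh _ _ _) rfl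
          (rcondT (run_val _ _ _) hc (rcomp (run_mk _ _ _ _) r2)))⟩
        simp only [simC] at *; omega
  | @condF p q r x c y l₁ l₂ t₁ t₂ _ hc _ ih1 ih2 =>
    obtain ⟨⟨n1, e1⟩, -⟩ := ih1
    obtain ⟨⟨n2, e2⟩, -⟩ := ih2
    refine ⟨⟨fun rest => ?_, fun a e b h => ?_⟩, trivial⟩
    · obtain ⟨s1, hs1, r1⟩ := n1 (l₂.map Prod.snd ++ rest)
      obtain ⟨s2, hs2, r2⟩ := n2 rest
      rw [List.map_append, List.append_assoc]
      refine ⟨_, ?_, rcomp (rcons r1 (Run.id _)) (rcondF (run_hh _ _ _) rfl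
        (rcondF (run_val _ _ _) hc (rcomp (run_mk _ _ _ _) r2)))⟩
      simp only [simC] at *; omega
    · rcases split_append h with ⟨m, hm⟩ | ⟨m, hm1, hm2⟩
      · obtain ⟨u, s1, hu, hs1, r1⟩ := e1 a e m hm
        refine ⟨u, _, hu, ?_, rcomp (rcons r1 (Run.id _)) (rcondT (run_hh _ _ _) rfl
          (Run.hd _))⟩
        simp only [simC] at *; omega
      · obtain ⟨s1, hs1, r1⟩ := n1 (m.map Prod.snd)
        obtain ⟨u, s2, hu, hs2, r2⟩ := e2 m e b hm2
        rw [hm1, List.map_append]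
        refine ⟨u, _, hu, ?_, rcomp (rcons r1 (Run.id _)) (rcondF (run_hh _ _ _) rfl
          (rcondF (run_val _ _ _) hc (rcomp (run_mk _ _ _ _) r2)))⟩
        simp only [simC] at *; omega
  | @loopStop p q x c l₁ t₁ _ hc ih1 =>
    obtain ⟨⟨n1, e1⟩, -⟩ := ih1
    have hL : LoopOK p q x l₁ x (t₁ + 1) := by
      refine ⟨fun rest => ?_, fun a e b h => ?_⟩
      · obtain ⟨s1, hs1, r1⟩ := n1 rest
        refine ⟨_, ?_, Run.loopStep (l₁ := []) (l₂ := []) (l₃ := []) (Run.hd _) rfl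
          (rcomp (Run.tl _) (rcomp (rcons r1 (Run.id _)) (rcondF (run_hh _ _ _) rfl
            (rcondF (run_val _ _ _) hc (rcons (Run.nil _) (run_mk _ _ _ _))))))
          (Run.loopStop (Run.hd _) rfl)⟩
        simp only [simC] at *; omega
      · obtain ⟨u, s1, hu, hs1, r1⟩ := e1 a e b h
        refine ⟨u, _, hu, ?_, Run.loopStep (l₁ := []) (l₂ := []) (l₃ := []) (Run.hd _) rfl
          (rcomp (Run.tl _) (rcomp (rcons r1 (Run.id _)) (rcondT (run_hh _ _ _) rfl
            (rcons (Run.nil _) (Run.hd _)))))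
          (Run.loopStop (Run.hd _) rfl)⟩
        simp only [simC] at *; omega
    refine ⟨⟨fun rest => ?_, fun a e b h => ?_⟩, hL⟩
    · obtain ⟨s, hs, r⟩ := hL.1 rest
      refine ⟨_, ?_, rcomp (rcons (run_one _) (Run.id _)) (rcomp r (Run.tl _))⟩
      simp only [simC] at *; omega
    · obtain ⟨u, s, hu, hs, r⟩ := hL.2 a e b h
      refine ⟨u, _, hu, ?_, rcomp (rcons (run_one _) (Run.id _)) (rcomp r (Run.tl _))⟩
      simp only [simC] at *; omega
  | @loopStep p q x c y z l₁ l₂ l₃ t₁ t₂ t₃ _ hc _ _ ih1 ih2 ih3 =>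
    obtain ⟨⟨n1, e1⟩, -⟩ := ih1
    obtain ⟨⟨n2, e2⟩, -⟩ := ih2
    obtain ⟨-, n3, e3⟩ := ih3
    have hL : LoopOK p q x (l₁ ++ l₂ ++ l₃) z (t₁ + t₂ + t₃ + 1) := by
      refine ⟨fun rest => ?_, fun a e b h => ?_⟩
      · obtain ⟨s1, hs1, r1⟩ := n1 (l₂.map Prod.snd ++ (l₃.map Prod.snd ++ rest))
        obtain ⟨s2, hs2, r2⟩ := n2 (l₃.map Prod.snd ++ rest)
        obtain ⟨s3, hs3, r3⟩ := n3 rest
        rw [List.map_append, List.map_append, List.append_assoc, List.append_assoc]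
        refine ⟨_, ?_, Run.loopStep (l₁ := []) (l₂ := []) (l₃ := []) (Run.hd _) rfl
          (rcomp (Run.tl _) (rcomp (rcons r1 (Run.id _)) (rcondF (run_hh _ _ _) rfl
            (rcondT (run_val _ _ _) hc (rcomp (run_mk _ _ _ _) (rcomp r2
              (rcons (rcondF (Run.hd _) rfl (run_one _)) (Run.id _)))))))) r3⟩
        simp only [simC] at *; omega
      · rcases split_append h with ⟨m, hm⟩ | ⟨m, hm1, hm2⟩
        · rcases split_append hm with ⟨m', hm'⟩ | ⟨m', hm1', hm2'⟩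
          · obtain ⟨u, s1, hu, hs1, r1⟩ := e1 a e m' hm'
            refine ⟨u, _, hu, ?_, Run.loopStep (l₁ := []) (l₂ := []) (l₃ := []) (Run.hd _) rfl
              (rcomp (Run.tl _) (rcomp (rcons r1 (Run.id _)) (rcondT (run_hh _ _ _) rfl
                (rcons (Run.nil _) (Run.hd _)))))
              (Run.loopStop (Run.hd _) rfl)⟩
            simp only [simC] at *; omega
          · obtain ⟨s1, hs1, r1⟩ := n1 (m'.map Prod.snd)
            obtain ⟨u, s2, hu, hs2, r2⟩ := e2 m' e m hm2'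
            rw [hm1', List.map_append]
            refine ⟨u, _, hu, ?_, Run.loopStep (l₁ := []) (l₂ := []) (l₃ := []) (Run.hd _) rfl
              (rcomp (Run.tl _) (rcomp (rcons r1 (Run.id _)) (rcondF (run_hh _ _ _) rfl
                (rcondT (run_val _ _ _) hc (rcomp (run_mk _ _ _ _) (rcomp r2
                  (rcons (rcondT (Run.hd _) rfl (Run.nil _)) (Run.id _))))))))
              (Run.loopStop (Run.hd _) rfl)⟩
            simp only [simC] at *; omega
        · obtain ⟨s1, hs1, r1⟩ := n1 (l₂.map Prod.snd ++ m.map Prod.snd)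
          obtain ⟨s2, hs2, r2⟩ := n2 (m.map Prod.snd)
          obtain ⟨u, s3, hu, hs3, r3⟩ := e3 m e b hm2
          rw [hm1, List.map_append, List.map_append, List.append_assoc]
          refine ⟨u, _, hu, ?_, Run.loopStep (l₁ := []) (l₂ := []) (l₃ := []) (Run.hd _) rfl
            (rcomp (Run.tl _) (rcomp (rcons r1 (Run.id _)) (rcondF (run_hh _ _ _) rfl
              (rcondT (run_val _ _ _) hc (rcomp (run_mk _ _ _ _) (rcomp r2
                (rcons (rcondF (Run.hd _) rfl (run_one _)) (Run.id _)))))))) r3⟩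
          simp only [simC] at *; omega
    refine ⟨⟨fun rest => ?_, fun a e b h => ?_⟩, hL⟩
    · obtain ⟨s, hs, r⟩ := hL.1 rest
      refine ⟨_, ?_, rcomp (rcons (run_one _) (Run.id _)) (rcomp r (Run.tl _))⟩
      simp only [simC] at *; omega
    · obtain ⟨u, s, hu, hs, r⟩ := hL.2 a e b h
      refine ⟨u, _, hu, ?_, rcomp (rcons (run_one _) (Run.id _)) (rcomp r (Run.tl _))⟩
      simp only [simC] at *; omega
  | ask x b =>
    refine ⟨⟨fun rest => ⟨_, ?_, rcondT (rcomp (Run.tl _) (Run.tl _)) rfl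
      (rcons (Run.nil _) (rcons (rcomp (rcomp (Run.tl _) (Run.tl _)) (Run.hd _))
        (rcomp (rcomp (Run.tl _) (Run.tl _)) (Run.tl _))))⟩, fun l₁ e l₂ h => ?_⟩, trivial⟩
    · simp [simC]
    · cases l₁ with
      | nil =>
        simp only [List.nil_append, List.cons.injEq] at h
        refine ⟨x, _, by rw [← h.1], ?_, rcondF (rcomp (Run.tl _) (Run.tl _)) rfl
          (rcons (run_one _) (rcomp (Run.tl _) (Run.hd _)))⟩
        simp [simC]
      | cons a l₁ => simp at h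

end Pool.Agent.Lib.MP_4eb50a_lc
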