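import Pool.Agent.Lib.MP_4eb50a_lc.Worlds

/-!
# Replacing an adaptive procedure for `x` by a short disjunction of short conjunctions
-/

set_option linter.unusedVariables false

namespace Pool.Agent.Lib.MP_4eb50a_lc

section defs

variable (n : ℕ) (fq : List Word → Word) (lv : List Word → Bool → List (List Bool))

/-- the worlds with output 'true' -/
def table (y : Word) (gs : List Bool → Word ⊕ Bool) (fl : List Unit) (W : List World) :
    List (List Lit) :=
  (W.filter fun w => out gs fl (know y w)).flatMap fun w => shrink n fq lv (know y w)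

/-- the state of the forced run: the answers so far and the tagged literals for the queries; or
the final result -/
abbrev FState := (List Bool × List (Bool × Lit)) ⊕ List (List Lit)

/-- answer the query `y` by a forced answer, or stop with the table of all worlds -/
def query (x : Word) (gs : List Bool → Word ⊕ Bool) (fl : List Unit)
    (p : List Bool × List (Bool × Lit)) (y : Word) : FState :=
  match missing (worldRun n lv x y gs fl) with
  | [] => .inr (table n fq lv y gs fl (worldRun n lv x y gs fl))
  | e :: _ => .inl (p.1 ++ [!e.2], (e.1, (y, !e.2)) :: p.2)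

/-- one step of the forced run -/
def fstep (x : Word) (gs : List Bool → Word ⊕ Bool) (fl : List Unit) (st : FState) : FState :=
  Sum.elim (fun p => Sum.elim (fun y => query n fq lv x gs fl p y) (fun _ => .inl p) (gs p.1))
    (fun F => .inr F) st

/-- the literals with the tag `o` -/
def tagged (o : Bool) (Y : List (Bool × Lit)) : List Lit :=
  (Y.filter fun e => decide (e.1 = o)).map Prod.snd

/-- the negation of a disjunction of at most one conjunction -/
def neg (S : List (List Lit)) : List (List Lit) :=
  if S.isEmpty then [[]] else S.flatMap fun Z => Z.map fun l => [(l.1, !l.2)]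

/-- the result at the end of the forced run -/
def finish (gs : List Bool → Word ⊕ Bool) (p : List Bool × List (Bool × Lit)) :
    List (List Lit) :=
  Sum.elim (fun _ => [])
    (fun o => if o then shrink n fq lv (tagged true p.2)
      else neg (shrink n fq lv (tagged false p.2))) (gs p.1)

/-- compress the procedure `gs` for `x` to a disjunction of conjunctions -/
def compress (x : Word) (gs : List Bool → Word ⊕ Bool) (fl : List Unit) : List (List Lit) :=
  Sum.elim (fun p => finish n fq lv gs p) (fun F => F)
    (fl.foldl (fun st _ => fstep n fq lv x gs fl st) (.inl ([], [])))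

end defs

variable {n s : ℕ} {fq : List Word → Word} {lv : List Word → Bool → List (List Bool)}
  {χ : Word → Bool} {x y : Word} {gs : List Bool → Word ⊕ Bool} {N L : ℕ} {fl : List Unit}

/-! ### the worlds -/

/-- invariants of a list of worlds -/
def WInv (n : ℕ) (lv : List Word → Bool → List (List Bool)) (χ : Word → Bool) (x y : Word)
    (L : ℕ) (W : List World) : Prop :=
  (∃ D : List Word, WOK n lv x y D W ∧ ∀ z ∈ D, z.length < L) ∧
    ∃ w ∈ W, Holds χ (lits x y w)

theorem addWord_inv (hM : ∀ u : List Word, u.length = n → u.map χ ∈ lv u (χ (fq u)))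
    {W : List World} (h : WInv n lv χ x y L W) {z : Word} (hz : z.length < L) :
    WInv n lv χ x y L (addWord n lv x y W z) := by
  obtain ⟨⟨D, hD, hDs⟩, w, hw, hh⟩ := h
  rw [addWord]
  split_ifs with hact
  · refine ⟨⟨D ++ [z], ⟨?_, ?_, ?_⟩, ?_⟩, ?_⟩
    · apply List.Nodup.filter
      rw [List.nodup_flatMap]
      refine ⟨fun w _ => ?_, ?_⟩
      · simp
      · refine hD.nodup.imp fun {a b} hab => ?_
        intro v hva hvb
        apply hab
        simp only [List.mem_cons, List.not_mem_nil, or_false] at hva hvb
        rcases hva with rfl | rfl <;> rcases hvb with h | h <;>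
          · simp only [Prod.mk.injEq] at h
            have := List.append_inj_left' h.2 rfl
            exact Prod.ext h.1 this
    · intro w' hw'
      rw [List.mem_filter, List.mem_flatMap] at hw'
      obtain ⟨⟨w, hw, hw'⟩, _⟩ := hw'
      simp only [List.mem_cons, List.not_mem_nil, or_false] at hw'
      rcases hw' with rfl | rfl <;> simp [hD.dom w hw]
    · intro w' hw'
      exact (List.mem_filter.1 hw').2
    · intro z' hz'
      rcases List.mem_append.1 hz' with h | h
      · exact hDs z' h
      · rw [List.mem_singleton] at h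
        rw [h]; exact hz
    · have hh' : Holds χ (lits x y (w.1, w.2 ++ [(z, χ z)])) := by
        intro l hl
        simp only [lits, know, List.mem_cons, List.mem_append, List.not_mem_nil, or_false] at hl
        rcases hl with rfl | rfl | hl | rfl
        · exact hh _ (by simp [lits])
        · exact hh (y, w.1.2) (by simp [lits, know])
        · exact hh l (by simp [lits, know, hl])
        · rfl
      refine ⟨(w.1, w.2 ++ [(z, χ z)]), ?_, hh'⟩
      rw [List.mem_filter, List.mem_flatMap]
      refine ⟨⟨w, hw, ?_⟩, ok_of_holds hM hh'⟩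
      cases χ z <;> simp
  · exact ⟨⟨D, hD, hDs⟩, w, hw, hh⟩

theorem fold_inv (hM : ∀ u : List Word, u.length = n → u.map χ ∈ lv u (χ (fq u)))
    (zs : List Word) : ∀ {W : List World}, WInv n lv χ x y L W → (∀ z ∈ zs, z.length < L) →
    WInv n lv χ x y L (zs.foldl (addWord n lv x y) W) := by
  induction zs with
  | nil => intro W h _; exact h
  | cons z zs ih =>
    intro W h hz
    rw [List.foldl_cons]
    exact ih (addWord_inv hM h (hz z (by simp))) fun z' hz' => hz z' (by simp [hz'])

theorem fold_desc (zs : List Word) : ∀ {W : List World},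
    active n (zs.foldl (addWord n lv x y) W) = true →
    active n W = true ∧ ∀ w' ∈ zs.foldl (addWord n lv x y) W, ∃ w ∈ W, ∃ e : List Lit,
      w'.1 = w.1 ∧ w'.2 = w.2 ++ e ∧ e.map Prod.fst = zs := by
  induction zs with
  | nil =>
    intro W h
    exact ⟨h, fun w' hw' => ⟨w', hw', [], rfl, by simp, rfl⟩⟩
  | cons z zs ih =>
    intro W h
    rw [List.foldl_cons] at h ⊢
    obtain ⟨h1, h2⟩ := ih h
    have hact : active n W = true := by
      by_contra hc
      have : addWord n lv x y W z = W := by rw [addWord, if_neg hc]
      rw [this] at h1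
      exact hc h1
    refine ⟨hact, fun w' hw' => ?_⟩
    obtain ⟨w₁, hw₁, e, e1, e2, e3⟩ := h2 w' hw'
    rw [addWord, if_pos hact, List.mem_filter, List.mem_flatMap] at hw₁
    obtain ⟨⟨w, hw, hw₁⟩, _⟩ := hw₁
    simp only [List.mem_cons, List.not_mem_nil, or_false] at hw₁
    rcases hw₁ with rfl | rfl
    · exact ⟨w, hw, (z, true) :: e, e1, by rw [e2]; simp, by simp [e3]⟩
    · exact ⟨w, hw, (z, false) :: e, e1, by rw [e2]; simp, by simp [e3]⟩

/-- the runs in all worlds have received at least `m` answers, or they have stopped -/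
def Prog' (gs : List Bool → Word ⊕ Bool) (y : Word) (m : ℕ) (W : List World) : Prop :=
  ∀ w ∈ W, ∃ a, Path gs (look (know y w)) a ∧ ((∃ o, gs a = .inr o) ∨ m ≤ a.length)

theorem batch_prog (hs : ∀ a, N ≤ a.length → ∃ o, gs a = .inr o) (hfl : N ≤ fl.length)
    {W : List World} {m : ℕ} (h : Prog' gs y m W)
    (hact : active n (batch n lv x y gs fl W) = true) :
    Prog' gs y (m + 1) (batch n lv x y gs fl W) := by
  intro w' hw'
  obtain ⟨h1, h2⟩ := fold_desc _ hact
  obtain ⟨w, hw, e, e1, e2, e3⟩ := h2 w' hw'
  have hk : know y w' = know y w ++ e := by simp [know, e1, e2]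
  have hmono : ∀ z b, look (know y w) z = [b] → look (know y w') z = [b] := by
    intro z b hb
    rw [hk]
    exact look_append_of_eq hb
  have hp := runW_path (gs := gs) fl (know y w)
  cases hr : gs (runW gs fl (know y w)) with
  | inr o => exact ⟨_, hp.mono hmono, .inl ⟨o, hr⟩⟩
  | inl z =>
    have hz : z ∈ e.map Prod.fst := by
      rw [e3, List.mem_flatMap]
      exact ⟨w, hw, by rw [pend, hr]; simp⟩
    obtain ⟨b, hb⟩ := look_known (K := know y w') (z := z) (by
      rw [hk, List.map_append]
      exact List.mem_append_right _ hz)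
    refine ⟨_, (hp.mono hmono).concat hr hb, .inr ?_⟩
    obtain ⟨a, ha, ha'⟩ := h w hw
    have hpre := runW_max hs hfl ha
    rcases ha' with ⟨o, ho⟩ | hm
    · -- then the run has stopped
      exfalso
      obtain ⟨r, hr'⟩ := hpre
      cases r with
      | nil => simp at hr'; rw [← hr', ho] at hr; cases hr
      | cons c r =>
        obtain ⟨z', h3, _⟩ := hp a c r hr'.symm
        rw [ho] at h3
        cases h3
    · have := hpre.length_le
      rw [List.length_append]
      simp
      omega

theorem initW_inv (hM : ∀ u : List Word, u.length = n → u.map χ ∈ lv u (χ (fq u))) :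
    WInv n lv χ x y L (initW n lv x y) := by
  refine ⟨⟨[], ⟨?_, ?_, ?_⟩, by simp⟩, ?_⟩
  · apply List.Nodup.filter
    refine List.Nodup.map ?_ (by decide)
    intro p q h
    exact (Prod.mk.inj h).1
  · intro w hw
    rw [initW, List.mem_filter, List.mem_map] at hw
    obtain ⟨⟨p, _, rfl⟩, _⟩ := hw
    rfl
  · intro w hw
    exact (List.mem_filter.1 hw).2
  · have hh : Holds χ (lits x y ((χ x, χ y), [])) := by
      intro l hl
      simp only [lits, know, List.mem_cons, List.not_mem_nil, or_false] at hl
      rcases hl with rfl | rfl <;> rfl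
    refine ⟨((χ x, χ y), []), ?_, hh⟩
    rw [initW, List.mem_filter, List.mem_map]
    refine ⟨⟨(χ x, χ y), ?_, rfl⟩, ok_of_holds hM hh⟩
    cases χ x <;> cases χ y <;> simp [quad]

theorem worldRun_inv (hM : ∀ u : List Word, u.length = n → u.map χ ∈ lv u (χ (fq u)))
    (hs : ∀ a, N ≤ a.length → ∃ o, gs a = .inr o) (hshort : ∀ a z, gs a = .inl z → z.length < L)
    (hfl : N ≤ fl.length) :
    WInv n lv χ x y L (worldRun n lv x y gs fl) ∧
      (active n (worldRun n lv x y gs fl) = true → Prog' gs y fl.length
        (worldRun n lv x y gs fl)) := by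
  have key : ∀ (gl : List Unit) (m : ℕ) (W : List World), WInv n lv χ x y L W →
      (active n W = true → Prog' gs y m W) →
      WInv n lv χ x y L (gl.foldl (fun W _ => batch n lv x y gs fl W) W) ∧
      (active n (gl.foldl (fun W _ => batch n lv x y gs fl W) W) = true →
        Prog' gs y (m + gl.length) (gl.foldl (fun W _ => batch n lv x y gs fl W) W)) := by
    intro gl
    induction gl with
    | nil => intro m W h1 h2; exact ⟨h1, h2⟩
    | cons u gl ih =>
      intro m W h1 h2
      rw [List.foldl_cons]
      have h3 := ih (m + 1) (batch n lv x y gs fl W) ?_ ?_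
      · rw [List.length_cons, show m + (gl.length + 1) = m + 1 + gl.length by omega]
        exact h3
      · apply fold_inv hM _ h1
        intro z hz
        rw [List.mem_flatMap] at hz
        obtain ⟨w, _, hz⟩ := hz
        rw [pend] at hz
        cases hg : gs (runW gs fl (know y w)) with
        | inl z' =>
          rw [hg] at hz
          have : z = z' := by simpa using hz
          subst this
          exact hshort _ _ hg
        | inr o => rw [hg] at hz; simp at hz
      · intro hact
        exact batch_prog hs hfl (h2 (fold_desc _ hact).1) hact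
  have := key fl 0 (initW n lv x y) (initW_inv hM) (fun _ w _ => ⟨[], path_nil, .inr (by simp)⟩)
  rw [Nat.zero_add] at this
  exact this

/-- if all four pairs of values remain then the run is complete in all worlds -/
theorem worldRun_complete (hn : n + 1 = 2 * s) (hs2 : 2 ≤ s) (hlv : ∀ u b, (lv u b).length ≤ s)
    (hM : ∀ u : List Word, u.length = n → u.map χ ∈ lv u (χ (fq u)))
    (hs : ∀ a, N ≤ a.length → ∃ o, gs a = .inr o) (hshort : ∀ a z, gs a = .inl z → z.length < L)
    (hfl : N ≤ fl.length) (hm : missing (worldRun n lv x y gs fl) = []) :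
    (worldRun n lv x y gs fl).length ≤ n + 1 ∧
    ∀ w ∈ worldRun n lv x y gs fl, ∃ o, gs (runW gs fl (know y w)) = .inr o := by
  obtain ⟨⟨⟨D, hD, _⟩, _⟩, h2⟩ := worldRun_inv (x := x) (y := y) hM hs hshort hfl
  have hc := count_worlds hn hs2 hlv hD hm
  refine ⟨hc, fun w hw => ?_⟩
  have hact : active n (worldRun n lv x y gs fl) = true := by
    rw [active, hm, ltLen]
    simp only [List.isEmpty_nil, List.length_replicate, Bool.true_and, Bool.not_eq_true',
      decide_eq_false_iff_not]
    omega
  obtain ⟨a, ha, ha'⟩ := h2 hact w hw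
  have : ∃ o, gs a = .inr o := by
    rcases ha' with h | h
    · exact h
    · exact hs a (by omega)
  obtain ⟨o, ho⟩ := this
  obtain ⟨r, hr⟩ := runW_max hs hfl ha
  cases r with
  | nil => exact ⟨o, by rw [← hr]; simpa using ho⟩
  | cons c r =>
    obtain ⟨z, h3, _⟩ := runW_path (gs := gs) fl (know y w) a c r hr.symm
    rw [ho] at h3
    cases h3

/-! ### small disjunctions of conjunctions -/

/-- at most `n + 1` conjunctions of at most `n + 1` literals for words shorter than `L` -/
def Small (n L : ℕ) (F : List (List Lit)) : Prop :=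
  F.length ≤ n + 1 ∧ ∀ c ∈ F, c.length ≤ n + 1 ∧ ∀ l ∈ c, l.1.length < L

theorem table_spec (hn : n + 1 = 2 * s) (hs2 : 2 ≤ s) (hlv : ∀ u b, (lv u b).length ≤ s)
    (hM : ∀ u : List Word, u.length = n → u.map χ ∈ lv u (χ (fq u))) {v : Bool}
    (hG : GOK χ gs v N L) (hfl : N ≤ fl.length) (hy : y.length < L)
    (hm : missing (worldRun n lv x y gs fl) = []) :
    (HoldsD χ (table n fq lv y gs fl (worldRun n lv x y gs fl)) ↔ v = true) ∧
      Small n L (table n fq lv y gs fl (worldRun n lv x y gs fl)) := by
  obtain ⟨⟨⟨D, hD, hDs⟩, w, hw, hh⟩, _⟩ :=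
    worldRun_inv (χ := χ) (x := x) (y := y) hM hG.stop hG.short hfl
  obtain ⟨hlen, hcomp⟩ := worldRun_complete (χ := χ) hn hs2 hlv hM hG.stop hG.short hfl hm
  -- a run with true knowledge gives the correct value
  have hrun : ∀ w' ∈ worldRun n lv x y gs fl, Holds χ (know y w') →
      gs (runW gs fl (know y w')) = .inr v := by
    intro w' hw' hk
    obtain ⟨o, ho⟩ := hcomp w' hw'
    have hp : Path gs (fun z => [χ z]) (runW gs fl (know y w')) :=
      (runW_path fl (know y w')).mono fun z b hb => by rw [hk.look_eq hb]
    rw [ho, hG.sound _ _ hp ho]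
  refine ⟨⟨?_, ?_⟩, ?_, ?_⟩
  · rintro ⟨c, hc, hcc⟩
    rw [table, List.mem_flatMap] at hc
    obtain ⟨w', hw', hc⟩ := hc
    rw [List.mem_filter] at hw'
    have h1 : Holds χ (know y w') := (shrink_holds hM).1 ⟨c, hc, hcc⟩
    have h2 := hrun w' hw'.1 h1
    have h3 := hw'.2
    rw [out, h2] at h3
    exact h3
  · intro hv
    have hk : Holds χ (know y w) := hh.mono fun l hl => List.mem_cons_of_mem _ hl
    have h2 := hrun w hw hk
    obtain ⟨c, hc, hcc⟩ := (shrink_holds hM).2 hk
    refine ⟨c, ?_, hcc⟩
    rw [table, List.mem_flatMap]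
    exact ⟨w, List.mem_filter.2 ⟨hw, by rw [out, h2]; exact hv⟩, hc⟩
  · rw [table, List.length_flatMap]
    have : ∀ (W : List World), ((W.map fun w => (shrink n fq lv (know y w)).length)).sum ≤
        W.length := by
      intro W
      induction W with
      | nil => simp
      | cons w W ih =>
        have := (shrink_short (fq := fq) hn hs2 hlv (know y w)).2
        simp only [List.map_cons, List.sum_cons, List.length_cons]
        omega
    exact ((this _).trans (List.length_filter_le _ _)).trans hlen
  · intro c hc
    rw [table, List.mem_flatMap] at hc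
    obtain ⟨w', hw', hc⟩ := hc
    obtain ⟨_, h1, h2⟩ := (shrink_short (fq := fq) hn hs2 hlv (know y w')).1 c hc
    refine ⟨h1, fun l hl => ?_⟩
    have h3 := h2 l hl
    rw [know, List.mem_cons] at h3
    rcases h3 with rfl | h3
    · exact hy
    · apply hDs
      rw [← hD.dom w' (List.mem_filter.1 hw').1]
      exact List.mem_map.2 ⟨l, h3, rfl⟩

/-- the invariant of the forced run -/
def FInv (n : ℕ) (χ : Word → Bool) (v : Bool) (gs : List Bool → Word ⊕ Bool) (L i : ℕ) :
    FState → Prop
  | .inl p => (∀ e ∈ p.2, v = e.1 → χ e.2.1 = e.2.2) ∧ (∀ e ∈ p.2, e.2.1.length < L) ∧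
      (∀ a₁ b a₂, p.1 = a₁ ++ b :: a₂ → ∃ z, gs a₁ = .inl z ∧ ∃ t, (t, (z, b)) ∈ p.2) ∧
      ((∃ o, gs p.1 = .inr o) ∨ i ≤ p.1.length)
  | .inr F => (HoldsD χ F ↔ v = true) ∧ Small n L F

theorem fstep_inv (hn : n + 1 = 2 * s) (hs2 : 2 ≤ s) (hlv : ∀ u b, (lv u b).length ≤ s)
    (hM : ∀ u : List Word, u.length = n → u.map χ ∈ lv u (χ (fq u)))
    (hG : GOK χ gs (χ x) N L) (hfl : N ≤ fl.length) {i : ℕ} {st : FState}
    (h : FInv n χ (χ x) gs L i st) : FInv n χ (χ x) gs L (i + 1) (fstep n fq lv x gs fl st) := by
  rcases st with p | F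
  · rw [fstep, Sum.elim_inl]
    obtain ⟨h1, h2, h3, h4⟩ := h
    cases hg : gs p.1 with
    | inr o => exact ⟨h1, h2, h3, .inl ⟨o, hg⟩⟩
    | inl y =>
      rw [Sum.elim_inl, query]
      have hy := hG.short _ _ hg
      split
      · next hm => exact table_spec hn hs2 hlv hM hG hfl hy hm
      · next e r hm =>
        refine ⟨?_, ?_, ?_, ?_⟩
        · intro e' he' hv
          rcases List.mem_cons.1 he' with rfl | he'
          · -- the pair of values is excluded
            simp only at hv ⊢
            obtain ⟨⟨_, w, hw, hh⟩, _⟩ :=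
              worldRun_inv (χ := χ) (x := x) (y := y) hM hG.stop hG.short hfl
            have hem : e ∈ missing (worldRun n lv x y gs fl) := by rw [hm]; simp
            rw [missing, List.mem_filter] at hem
            have h5 := hem.2
            rw [Bool.not_eq_true', List.any_eq_false] at h5
            have h6 := h5 w hw
            simp only [decide_eq_true_eq] at h6
            have hx : w.1.1 = χ x := (hh (x, w.1.1) (by simp [lits])).symm
            have hy' : w.1.2 = χ y := (hh (y, w.1.2) (by simp [lits, know])).symm
            by_contra hne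
            apply h6
            refine Prod.ext (by rw [hx, hv]) ?_
            rw [hy']
            cases h7 : χ y <;> cases h8 : e.2 <;> simp_all
          · exact h1 e' he' hv
        · intro e' he'
          rcases List.mem_cons.1 he' with rfl | he'
          · exact hy
          · exact h2 e' he'
        · intro a₁ b a₂ he
          simp only at he
          rcases List.eq_nil_or_concat a₂ with rfl | ⟨r', d, rfl⟩
          · have h5 := List.append_inj_left' he (by simp)
            subst h5
            have h6 := List.append_cancel_left he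
            simp only [List.cons.injEq, and_true] at h6
            subst h6
            exact ⟨y, hg, e.1, by simp⟩
          · have h5 : p.1 ++ [!e.2] = (a₁ ++ b :: r') ++ [d] := by rw [he]; simp
            have h6 := List.append_inj_left' h5 (by simp)
            obtain ⟨z, h7, t, h8⟩ := h3 a₁ b r' h6
            exact ⟨z, h7, t, List.mem_cons_of_mem _ h8⟩
        · right
          rcases h4 with ⟨o, ho⟩ | h4
          · rw [hg] at ho; cases ho
          · simp only [List.length_append, List.length_singleton]
            omega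
  · exact h

theorem neg_holds {S : List (List Lit)} (hS : S.length ≤ 1) :
    HoldsD χ (neg S) ↔ ¬HoldsD χ S := by
  match S, hS with
  | [], _ => simp [neg, HoldsD, Holds]
  | [Z], _ =>
    simp only [neg, List.isEmpty_cons, Bool.false_eq_true, if_false, List.flatMap_cons,
      List.flatMap_nil, List.append_nil, HoldsD, Holds, List.mem_map, List.mem_singleton,
      exists_eq_left]
    constructor
    · rintro ⟨c, ⟨l, hl, rfl⟩, hc⟩ h
      have h1 := hc (l.1, !l.2) (by simp)
      have h2 := h l hl
      simp only at h1
      rw [h2] at h1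
      cases h3 : l.2 <;> simp [h3] at h1
    · intro h
      push Not at h
      obtain ⟨l, hl, hne⟩ := h
      refine ⟨[(l.1, !l.2)], ⟨l, hl, rfl⟩, ?_⟩
      intro l' hl'
      rw [List.mem_singleton] at hl'
      subst hl'
      simp only
      cases h3 : χ l.1 <;> cases h4 : l.2 <;> simp_all

theorem neg_small {S : List (List Lit)} (hS : S.length ≤ 1)
    (h : ∀ Z ∈ S, Z.length ≤ n + 1 ∧ ∀ l ∈ Z, l.1.length < L) : Small n L (neg S) := by
  match S, hS with
  | [], _ => simp [neg, Small]
  | [Z], _ =>
    obtain ⟨h1, h2⟩ := h Z (by simp)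
    simp only [neg, List.isEmpty_cons, Bool.false_eq_true, if_false, List.flatMap_cons,
      List.flatMap_nil, List.append_nil]
    refine ⟨by simpa using h1, ?_⟩
    intro c hc
    obtain ⟨l, hl, rfl⟩ := List.mem_map.1 hc
    refine ⟨by simp, ?_⟩
    intro l' hl'
    rw [List.mem_singleton] at hl'
    subst hl'
    exact h2 l hl

/-- the compressed form of the procedure is correct and small -/
theorem compress_spec (hn : n + 1 = 2 * s) (hs2 : 2 ≤ s) (hlv : ∀ u b, (lv u b).length ≤ s)
    (hM : ∀ u : List Word, u.length = n → u.map χ ∈ lv u (χ (fq u)))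
    (hG : GOK χ gs (χ x) N L) (hfl : N ≤ fl.length) :
    (HoldsD χ (compress n fq lv x gs fl) ↔ χ x = true) ∧
      Small n L (compress n fq lv x gs fl) := by
  have key : ∀ (gl : List Unit) (i : ℕ) (st : FState), FInv n χ (χ x) gs L i st →
      FInv n χ (χ x) gs L (i + gl.length)
        (gl.foldl (fun st _ => fstep n fq lv x gs fl st) st) := by
    intro gl
    induction gl with
    | nil => intro i st h; exact h
    | cons u gl ih =>
      intro i st h
      rw [List.foldl_cons, List.length_cons, show i + (gl.length + 1) = i + 1 + gl.length by omega]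
      exact ih (i + 1) _ (fstep_inv hn hs2 hlv hM hG hfl h)
  have h0 := key fl 0 (.inl ([], [])) ⟨by simp, by simp, by
    intro a₁ b a₂ h; simp at h, .inr (by simp)⟩
  rw [Nat.zero_add] at h0
  rw [compress]
  rcases hst : fl.foldl (fun st _ => fstep n fq lv x gs fl st) (.inl ([], [])) with p | F
  · rw [hst] at h0
    obtain ⟨h1, h2, h3, h4⟩ := h0
    have : ∃ o, gs p.1 = .inr o := by
      rcases h4 with h | h
      · exact h
      · exact hG.stop _ (by omega)
    obtain ⟨o, ho⟩ := this
    have hiff : χ x = o ↔ Holds χ (tagged o p.2) := by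
      constructor
      · intro hx l hl
        rw [tagged, List.mem_map] at hl
        obtain ⟨e, he, rfl⟩ := hl
        rw [List.mem_filter] at he
        have he2 : e.1 = o := by simpa using he.2
        exact h1 e he.1 (by rw [hx, he2])
      · intro hh
        by_contra hne
        apply hne
        have hp : Path gs (fun z => [χ z]) p.1 := by
          intro a₁ b a₂ he
          obtain ⟨z, h5, t, h6⟩ := h3 a₁ b a₂ he
          refine ⟨z, h5, ?_⟩
          have : χ z = b := by
            by_cases ht : t = o
            · exact hh (z, b) (by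
                rw [tagged, List.mem_map]
                exact ⟨(t, (z, b)), List.mem_filter.2 ⟨h6, by simp [ht]⟩, rfl⟩)
            · have : χ x = t := by
                cases h7 : χ x <;> cases h8 : t <;> cases h9 : o <;> simp_all
              exact h1 _ h6 this
          change [χ z] = [b]
          rw [this]
        exact (hG.sound _ _ hp ho).symm
    rw [Sum.elim_inl, finish, ho, Sum.elim_inr]
    have hsh : ∀ b, (∀ Z ∈ shrink n fq lv (tagged b p.2), Z.length ≤ n + 1 ∧
        ∀ l ∈ Z, l.1.length < L) ∧ (shrink n fq lv (tagged b p.2)).length ≤ 1 := by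
      intro b
      obtain ⟨h5, h6⟩ := shrink_short (fq := fq) hn hs2 hlv (tagged b p.2)
      refine ⟨fun Z hZ => ?_, h6⟩
      obtain ⟨_, h7, h8⟩ := h5 Z hZ
      refine ⟨h7, fun l hl => ?_⟩
      have h9 := h8 l hl
      rw [tagged, List.mem_map] at h9
      obtain ⟨e, he, rfl⟩ := h9
      exact h2 e (List.mem_filter.1 he).1
    cases o with
    | true =>
      rw [if_pos rfl]
      refine ⟨by rw [shrink_holds hM, ← hiff], (hsh true).2.trans (by omega), (hsh true).1⟩
    | false =>
      rw [if_neg (by simp)]
      refine ⟨?_, neg_small (hsh false).2 (hsh false).1⟩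
      rw [neg_holds (hsh false).2, shrink_holds hM, ← hiff]
      simp
  · rw [hst] at h0
    exact h0

end Pool.Agent.Lib.MP_4eb50a_lc
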