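import Pool.Agent.Lib.MP_4eb50a_lc.Compile
import Pool.Agent.Lib.MP_4eb50a_lc.Clock

/-!
# The next-query function of an oracle program
-/

set_option linter.unusedVariables false

namespace Pool.Agent.Lib.MP_4eb50a_lc

variable {α β γ : Type} [Code α] [Code β] [Code γ]

/-- On input `x` the program stops within `T` steps, whatever answers to its queries it
receives. -/
def StopsWithin (p : Prog) (x : Tr) (T : ℕ) : Prop :=
  ∀ s : ℕ → Bool, ∃ (log : List (Word × Bool)) (y : Tr) (t : ℕ),
    Run p x log y t ∧ t ≤ T ∧ ∀ i (h : i < log.length), (log[i]).2 = s i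

/-- every program agrees with a program which always stops in polynomial time, on all runs whose
time is bounded by a given polynomial-time clock -/
theorem clocked (p : Prog) {fl : α → List Unit} (hfl : PT fl) :
    ∃ (p' : Prog) (B : ℕ → ℕ), PB B ∧ (∀ x : α, StopsWithin p' (enc x) (B (enc x).dep)) ∧
      ∀ (x : α) (log : List (Word × Bool)) (y : Tr) (t : ℕ), Run p (enc x) log y t →
        t ≤ (fl x).length → ∃ t', Run p' (enc x) log y t' := by
  obtain ⟨q, C, hC, hmC, hq⟩ := hfl.mono_bound
  obtain ⟨Bf, hBf, hmf, hdf⟩ := hfl.dep_bound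
  obtain ⟨T, hT, hTm, hs⟩ := clk_stops p
  refine ⟨.comp (.comp (.cons q .id) p.clk) .tl, fun d => C d + T (Bf d) + 10,
    (hC.add (hT.comp hBf)).add (PB.const 10), fun x s => ?_, fun x log y t hr ht => ?_⟩
  · obtain ⟨tq, htq, hrq⟩ := hq x
    obtain ⟨log, f', y, t, hr, ha, _, hb⟩ := hs (enc x) (enc (fl x)) s
    refine ⟨log, y, _, Run.comp' (Run.comp' (Run.cons' hrq (Run.id _) rfl) hr rfl) (Run.tl _)
      (by simp), ?_, ha⟩
    have h1 : T (len (enc (fl x))) ≤ T (Bf (enc x).dep) :=
      hTm (by rw [len_enc]; exact (length_le_dep _).trans (hdf x))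
    simp only
    omega
  · obtain ⟨tq, htq, hrq⟩ := hq x
    obtain ⟨f', t', hr', _⟩ := clk_correct hr (enc (fl x)) (by rw [len_enc]; exact ht)
    exact ⟨_, Run.comp' (Run.comp' (Run.cons' hrq (Run.id _) rfl) hr' rfl) (Run.tl _)
      (by simp)⟩

/-- polynomial-time on a set of inputs -/
def PTOn (S : Set α) (f : α → β) : Prop :=
  ∃ (p : Prog) (B : ℕ → ℕ), PB B ∧ ∀ x ∈ S, ∃ t, t ≤ B (enc x).dep ∧
    Run p (enc x) [] (enc (f x)) t

theorem PT.compOn {g : β → γ} {f : α → β} {S : Set β} (hg : PTOn S g) (hf : PT f)
    (h : ∀ x, f x ∈ S) : PT fun x => g (f x) := by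
  obtain ⟨p, B, hB, hm, h1⟩ := hf.mono_bound
  obtain ⟨q, C, hC, k⟩ := hg
  obtain ⟨C', hC', hm', hle⟩ := hC.exists_mono
  refine ⟨.comp p q, fun d => B d + C' (d + B d) + 1,
    (hB.add (hC'.comp (PB.id.add hB))).add (PB.const 1), fun x => ?_⟩
  obtain ⟨t, ht, hr⟩ := h1 x
  obtain ⟨s, hs, hq⟩ := k (f x) (h x)
  refine ⟨t + s + 1, ?_, Run.comp hr hq⟩
  have h1 := hr.dep_le
  have h2 : C' (enc (f x)).dep ≤ C' ((enc x).dep + B (enc x).dep) := hm' (by omega)
  have h3 := hle (enc (f x)).dep
  simp only
  omega

/-- programs without queries are deterministic -/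
theorem Run.det {p : Prog} {x y : Tr} {l : List (Word × Bool)} {t : ℕ} (h : Run p x l y t) :
    l = [] → ∀ {l' y' t'}, Run p x l' y' t' → l' = [] → y = y' := by
  induction h with
  | id x => intro _ l' y' t' h' hl'; cases h'; rfl
  | nil x => intro _ l' y' t' h' hl'; cases h'; rfl
  | hd x => intro _ l' y' t' h' hl'; cases h'; rfl
  | tl x => intro _ l' y' t' h' hl'; cases h'; rfl
  | cons _ _ ih1 ih2 =>
    intro hl l' y' t' h' hl'
    cases h' with
    | cons h1 h2 =>
      rw [List.append_eq_nil_iff] at hl hl'
      rw [ih1 hl.1 h1 hl'.1, ih2 hl.2 h2 hl'.2]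
  | comp _ _ ih1 ih2 =>
    intro hl l' y' t' h' hl'
    cases h' with
    | comp h1 h2 =>
      rw [List.append_eq_nil_iff] at hl hl'
      have e := ih1 hl.1 h1 hl'.1
      subst e
      exact ih2 hl.2 h2 hl'.2
  | condT _ hc _ ih1 ih2 =>
    intro hl l' y' t' h' hl'
    cases h' with
    | condT h1 hc' h2 =>
      rw [List.append_eq_nil_iff] at hl hl'
      exact ih2 hl.2 h2 hl'.2
    | condF h1 hc' h2 =>
      rw [List.append_eq_nil_iff] at hl hl'
      have e := ih1 hl.1 h1 hl'.1
      subst e
      rw [hc] at hc'
      cases hc'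
  | condF _ hc _ ih1 ih2 =>
    intro hl l' y' t' h' hl'
    cases h' with
    | condF h1 hc' h2 =>
      rw [List.append_eq_nil_iff] at hl hl'
      exact ih2 hl.2 h2 hl'.2
    | condT h1 hc' h2 =>
      rw [List.append_eq_nil_iff] at hl hl'
      have e := ih1 hl.1 h1 hl'.1
      subst e
      rw [hc] at hc'
      cases hc'
  | loopStop _ hc ih1 =>
    intro hl l' y' t' h' hl'
    cases h' with
    | loopStop h1 hc' => rfl
    | loopStep h1 hc' h2 h3 =>
      rw [List.append_eq_nil_iff, List.append_eq_nil_iff] at hl'
      have e := ih1 hl h1 hl'.1.1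
      subst e
      rw [hc] at hc'
      cases hc'
  | loopStep _ hc _ _ ih1 ih2 ih3 =>
    intro hl l' y' t' h' hl'
    rw [List.append_eq_nil_iff, List.append_eq_nil_iff] at hl
    cases h' with
    | loopStop h1 hc' =>
      have e := ih1 hl.1.1 h1 hl'
      subst e
      rw [hc] at hc'
      cases hc'
    | loopStep h1 hc' h2 h3 =>
      rw [List.append_eq_nil_iff, List.append_eq_nil_iff] at hl'
      have e := ih2 hl.1.2 h2 hl'.1.2
      subst e
      exact ih3 hl.2 h3 hl'.2
  | ask x b => intro hl; simp at hl

theorem enc_bool_inj {a b : Bool} (h : enc a = enc b) : a = b := by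
  cases a <;> cases b <;> first | rfl | (simp [enc, Tr.ofBool] at h)

theorem enc_word_inj {u v : List Bool} (h : enc u = enc v) : u = v := by
  induction u generalizing v with
  | nil =>
    cases v with
    | nil => rfl
    | cons b v => exact absurd h (by simp [enc, encList])
  | cons a u ih =>
    cases v with
    | nil => exact absurd h (by simp [enc, encList])
    | cons b v =>
      have h' : Tr.cons (enc a) (enc u) = Tr.cons (enc b) (enc v) := h
      injection h' with h1 h2
      rw [enc_bool_inj h1, ih h2]

/-- the outcome of an oracle program on input `x` when the answers `a` are supplied: either a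
final value with the unused answers, or the tree of the pending query -/
noncomputable def simOut (p : Prog) (x : Tr) (a : List Bool) : (Tr × List Bool) ⊕ Tr :=
  open Classical in
  if h : ∃ (z : (Tr × List Bool) ⊕ Tr) (t : ℕ), Run p.sim (stN x a) [] (enc z) t then h.choose
  else .inr .nil

theorem enc_inl (y : Tr) (r : List Bool) :
    enc (Sum.inl (y, r) : (Tr × List Bool) ⊕ Tr) = stN y r := rfl

theorem enc_inr (q : Tr) : enc (Sum.inr q : (Tr × List Bool) ⊕ Tr) = stE q := rfl

theorem enc_sum_inj {u v : (Tr × List Bool) ⊕ Tr} (h : enc u = enc v) : u = v := by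
  rcases u with ⟨y, r⟩ | q <;> rcases v with ⟨y', r'⟩ | q'
  · rw [enc_inl, enc_inl, stN, stN] at h
    injection h with _ h
    injection h with h1 h2
    rw [h1, enc_word_inj h2]
  · rw [enc_inl, enc_inr, stN, stE] at h
    injection h with h _
    cases h
  · rw [enc_inl, enc_inr, stN, stE] at h
    injection h with h _
    cases h
  · rw [enc_inr, enc_inr, stE, stE] at h
    injection h with _ h
    rw [h]

theorem simOut_eq {p : Prog} {x : Tr} {a : List Bool} {z : (Tr × List Bool) ⊕ Tr} {t : ℕ}
    (h : Run p.sim (stN x a) [] (enc z) t) : simOut p x a = z := by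
  have hex : ∃ (z : (Tr × List Bool) ⊕ Tr) (t : ℕ), Run p.sim (stN x a) [] (enc z) t :=
    ⟨z, t, h⟩
  rw [simOut, dif_pos hex]
  obtain ⟨s, hs⟩ := hex.choose_spec
  exact enc_sum_inj (hs.det rfl h rfl)

/-- after a complete log the result is available -/
theorem simOut_done {p : Prog} {x y : Tr} {log : List (Word × Bool)} {t : ℕ}
    (h : Run p x log y t) (rest : List Bool) :
    simOut p x (log.map Prod.snd ++ rest) = .inl (y, rest) := by
  obtain ⟨s, _, hs⟩ := (sim_ok h).1.1 rest
  exact simOut_eq (z := .inl (y, rest)) hs

/-- after a part of a log the next query is pending -/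
theorem simOut_pending {p : Prog} {x y : Tr} {log : List (Word × Bool)} {t : ℕ}
    (h : Run p x log y t) {l₁ l₂ : List (Word × Bool)} {e : Word × Bool}
    (hl : log = l₁ ++ e :: l₂) :
    ∃ q, q.toWord = e.1 ∧ simOut p x (l₁.map Prod.snd) = .inr q := by
  obtain ⟨q, s, hq, _, hs⟩ := (sim_ok h).1.2 l₁ e l₂ hl
  exact ⟨q, hq, simOut_eq (z := .inr q) hs⟩

theorem simOut_run {p : Prog} {x : Tr} {T : ℕ} (hT : StopsWithin p x T) (a : List Bool) :
    ∃ t, t ≤ simC * T ∧ Run p.sim (stN x a) [] (enc (simOut p x a)) t := by
  obtain ⟨log, y, t, hr, ht, hs⟩ := hT fun i => a.getD i false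
  have hlog : ∀ i (h : i < log.length) (h' : i < a.length), log[i].2 = a[i] := by
    intro i h h'
    rw [hs i h, List.getD_eq_getElem _ _ h']
  rcases le_or_gt log.length a.length with hle | hlt
  · have ha : a = log.map Prod.snd ++ a.drop log.length := by
      have h1 : log.map Prod.snd = a.take log.length := by
        apply List.ext_getElem
        · simp [hle]
        · intro i h1 h2
          simp only [List.getElem_map, List.getElem_take]
          exact hlog i (by simpa using h1) _
      rw [h1, List.take_append_drop]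
    obtain ⟨s, hs1, hs2⟩ := (sim_ok hr).1.1 (a.drop log.length)
    rw [← ha] at hs2
    have := simOut_eq (z := .inl (y, a.drop log.length)) hs2
    rw [this]
    exact ⟨s, hs1.trans (Nat.mul_le_mul_left _ ht), hs2⟩
  · have hl : log = log.take a.length ++ log[a.length] :: log.drop (a.length + 1) := by
      rw [List.cons_getElem_drop_succ, List.take_append_drop]
    obtain ⟨q, s, hq, hs1, hs2⟩ := (sim_ok hr).1.2 _ _ _ hl
    have ha : (log.take a.length).map Prod.snd = a := by
      apply List.ext_getElem
      · simp; omega
      · intro i h1 h2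
        simp only [List.getElem_map, List.getElem_take]
        exact hlog i _ h2
    rw [ha] at hs2
    have := simOut_eq (z := .inr q) hs2
    rw [this]
    exact ⟨s, hs1.trans (Nat.mul_le_mul_left _ ht), hs2⟩

/-- the unused answers are not longer than all answers -/
theorem simOut_rest {p : Prog} {x : Tr} {T : ℕ} (hT : StopsWithin p x T) {a r : List Bool}
    {y : Tr} (h : simOut p x a = .inl (y, r)) : r.length ≤ a.length := by
  obtain ⟨log, y', t, hr, ht, hs⟩ := hT fun i => a.getD i false
  have hlog : ∀ i (h : i < log.length) (h' : i < a.length), log[i].2 = a[i] := by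
    intro i h h'
    rw [hs i h, List.getD_eq_getElem _ _ h']
  rcases le_or_gt log.length a.length with hle | hlt
  · have ha : a = log.map Prod.snd ++ a.drop log.length := by
      have h1 : log.map Prod.snd = a.take log.length := by
        apply List.ext_getElem
        · simp [hle]
        · intro i h1 h2
          simp only [List.getElem_map, List.getElem_take]
          exact hlog i (by simpa using h1) _
      rw [h1, List.take_append_drop]
    have h2 := simOut_done hr (a.drop log.length)
    rw [← ha, h] at h2
    have h3 := Sum.inl.inj h2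
    rw [(Prod.mk.inj h3).2, List.length_drop]
    omega
  · have hl : log = log.take a.length ++ log[a.length] :: log.drop (a.length + 1) := by
      rw [List.cons_getElem_drop_succ, List.take_append_drop]
    obtain ⟨q, hq, hs2⟩ := simOut_pending hr hl
    have ha : (log.take a.length).map Prod.snd = a := by
      apply List.ext_getElem
      · simp; omega
      · intro i h1 h2
        simp only [List.getElem_map, List.getElem_take]
        exact hlog i _ h2
    rw [ha, h] at hs2
    cases hs2

/-- the number of queries is bounded by the running time -/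
theorem Run.length_le {p : Prog} {x y : Tr} {l : List (Word × Bool)} {t : ℕ}
    (h : Run p x l y t) : l.length ≤ t := by
  induction h with
  | id x => simp
  | nil x => simp
  | hd x => simp
  | tl x => simp
  | cons _ _ h1 h2 => simp only [List.length_append]; omega
  | comp _ _ h1 h2 => simp only [List.length_append]; omega
  | condT _ _ _ h1 h2 => simp only [List.length_append]; omega
  | condF _ _ _ h1 h2 => simp only [List.length_append]; omega
  | loopStop _ _ h1 => omega
  | loopStep _ _ _ _ h1 h2 h3 => simp only [List.length_append]; omega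
  | ask x b => simp

/-- with enough answers the program stops -/
theorem simOut_isLeft {p : Prog} {x : Tr} {T : ℕ} (hT : StopsWithin p x T) (a : List Bool)
    (ha : T ≤ a.length) : ∃ y r, simOut p x a = .inl (y, r) ∧ r.length + T ≥ a.length ∧
      ∃ b, a = b ++ r := by
  obtain ⟨log, y, t, hr, ht, hs⟩ := hT fun i => a.getD i false
  have hle : log.length ≤ a.length := by have := hr.length_le; omega
  have hlog : ∀ i (h : i < log.length) (h' : i < a.length), log[i].2 = a[i] := by
    intro i h h'
    rw [hs i h, List.getD_eq_getElem _ _ h']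
  have ha : a = log.map Prod.snd ++ a.drop log.length := by
    have h1 : log.map Prod.snd = a.take log.length := by
      apply List.ext_getElem
      · simp [hle]
      · intro i h1 h2
        simp only [List.getElem_map, List.getElem_take]
        exact hlog i (by simpa using h1) _
    rw [h1, List.take_append_drop]
  have h2 := simOut_done hr (a.drop log.length)
  rw [← ha] at h2
  have := hr.length_le
  exact ⟨y, _, h2, by rw [List.length_drop]; omega, _, ha⟩

/-! ### as polynomial-time functions -/

/-- a tree as a list of trees -/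
def trList : Tr → List Tr
  | .nil => []
  | .cons a b => a :: trList b

theorem enc_trList (x : Tr) : enc (trList x) = x := by
  induction x with
  | nil => rfl
  | cons a b _ ihb =>
    change Tr.cons a (enc (trList b)) = _
    rw [ihb]

theorem PT.trList : PT trList :=
  ⟨.id, fun _ => 1, PB.const 1, fun x => ⟨1, le_rfl, by rw [enc_trList]; exact Run.id _⟩⟩

theorem PT.toBool : PT Tr.toBool := by
  refine ⟨.cond .id .one .nil, fun _ => 5, PB.const 5, fun x => ?_⟩
  cases x with
  | nil => exact ⟨_, by show _ ≤ 5; exact (by norm_num), rcondF (Run.id _) rfl (Run.nil _)⟩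
  | cons a b => exact ⟨_, by show _ ≤ 5; exact (by norm_num), rcondT (Run.id _) rfl (run_one _)⟩

theorem PT.toWord : PT Tr.toWord := by
  have := PT.map (l := fun x => Pool.Agent.Lib.MP_4eb50a_lc.trList x)
    (g := fun _ c => Tr.toBool c) PT.trList (PT.toBool.comp PT.snd')
  refine this.congr fun x => ?_
  induction x with
  | nil => rfl
  | cons a b _ ihb => simp only [Pool.Agent.Lib.MP_4eb50a_lc.trList, List.map_cons, ihb]; rfl

/-- the program transformation gives a function of input and answers which is polynomial-time
on the inputs for which the running time is polynomially bounded -/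
theorem PTOn.simOut {p : Prog} {S : Set α} {B : ℕ → ℕ} (hB : PB B)
    (h : ∀ x ∈ S, StopsWithin p (enc x) (B (enc x).dep)) :
    PTOn (α := α × List Bool) {z | z.1 ∈ S} fun z => simOut p (enc z.1) z.2 := by
  obtain ⟨B', hB', hm, hle⟩ := hB.exists_mono
  refine ⟨.comp (.cons .nil .id) p.sim, fun d => simC * B' d + 10,
    ((PB.const simC).mul hB').add (PB.const 10), fun z hz => ?_⟩
  obtain ⟨t, ht, hr⟩ := simOut_run (h z.1 hz) z.2
  have h1 : (enc z.1).dep ≤ (enc z).dep := by
    have : (enc z).dep = max (enc z.1).dep (enc z.2).dep + 1 := rfl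
    omega
  refine ⟨_, ?_, rcomp (rcons (Run.nil _) (Run.id _)) hr⟩
  have h2 := Nat.mul_le_mul_left simC ((hle (enc z.1).dep).trans (hm h1))
  simp only
  omega

end Pool.Agent.Lib.MP_4eb50a_lc
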