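import Pool.Agent.Lib.MP_4eb50a_lc.AlgoPT
import Pool.Agent.Lib.MP_4eb50a_lc.Next

/-!
# Self-reducible sets which are (`2 ^ k - 1` for `k`) p-cheatable are in P
-/

set_option linter.unusedVariables false

namespace Pool.Agent.Lib.MP_4eb50a_lc

variable {α : Type} [Code α]

theorem PT.simOut' {p : Prog} {B : ℕ → ℕ} (hB : PB B)
    (h : ∀ x : α, StopsWithin p (enc x) (B (enc x).dep)) :
    PT fun z : α × List Bool => simOut p (enc z.1) z.2 := by
  obtain ⟨q, C, hC, hq⟩ := PTOn.simOut (S := Set.univ) hB fun x _ => h x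
  exact ⟨q, C, hC, fun z => hq z trivial⟩

theorem toWord_enc (l : List Bool) : (enc l).toWord = l := by
  induction l with
  | nil => rfl
  | cons b l ih =>
    change (enc b).toBool :: (enc l).toWord = _
    rw [ih, PT.toBool_enc]

theorem length_tuples {β : Type} (l : List β) (m : ℕ) : (tuples l m).length = l.length ^ m := by
  induction m with
  | zero => rfl
  | succ m ih =>
    rw [tuples, List.length_flatMap]
    simp [ih, pow_succ, mul_comm]

/-! ### the self-reduction -/

/-- the next-query function of an oracle program for a decision problem -/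
noncomputable def nxOf (p : Prog) (w : Word) (a : List Bool) : Word ⊕ (Bool × List Bool) :=
  Sum.elim (fun z => .inr (z.1.toBool, z.2)) (fun q => .inl q.toWord) (simOut p (enc w) a)

theorem pt_nxOf {p : Prog} {B : ℕ → ℕ} (hB : PB B)
    (h : ∀ x : Word, StopsWithin p (enc x) (B (enc x).dep)) :
    PT fun z : Word × List Bool => nxOf p z.1 z.2 :=
  PT.sumCases (f := fun z : Word × List Bool => simOut p (enc z.1) z.2)
    (g := fun _ z => (.inr (z.1.toBool, z.2) : Word ⊕ (Bool × List Bool)))
    (h := fun _ q => .inl q.toWord) (PT.simOut' hB h)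
    (PT.inr (PT.pair (PT.toBool.comp (PT.fst PT.snd')) (PT.snd PT.snd')))
    (PT.inl (PT.toWord.comp PT.snd'))

/-- the clock for words -/
def wclock (c : ℕ) (w : Word) : List Unit := fuel (() :: () :: w.map fun _ => ()) c

theorem wclock_length (c : ℕ) (w : Word) : (wclock c w).length = (w.length + 2) ^ c := by
  rw [wclock, length_fuel]
  simp

theorem pt_wclock (c : ℕ) : PT (wclock c) :=
  PT.fuel (PT.cons (PT.const ()) (PT.cons (PT.const ())
    (PT.map (g := fun _ (_ : Bool) => ()) PT.id (PT.const ())))) c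

open Classical in
theorem exists_nx {A : Set Word} (hA : SelfReducible A) :
    ∃ (nx : Word → List Bool → Word ⊕ (Bool × List Bool)) (tm : ℕ → ℕ), PB tm ∧
      NXOK (fun w => decide (w ∈ A)) nx tm ∧ PT fun z : Word × List Bool => nx z.1 z.2 := by
  obtain ⟨p, c, hp⟩ := hA
  obtain ⟨e, he⟩ := PB.polynomial c
  obtain ⟨p', B, hB, hstop, hrun⟩ := clocked p (pt_wclock e)
  obtain ⟨B', hB', hm, hle⟩ := hB.exists_mono
  have hst : ∀ w : Word, StopsWithin p' (enc w) (B' (w.length + 1)) := by
    intro w s
    obtain ⟨log, y, t, h1, h2, h3⟩ := hstop w s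
    exact ⟨log, y, t, h1, h2.trans ((hle _).trans (hm (dep_word_le w))), h3⟩
  refine ⟨nxOf p', fun d => B' (d + 1), hB'.comp (PB.id.add (PB.const 1)), ?_,
    pt_nxOf hB hstop⟩
  refine ⟨fun a b hab => hm (by omega), ?_, ?_, ?_⟩
  · intro w a v r h
    rw [nxOf] at h
    cases hs : simOut p' (enc w) a with
    | inl z =>
      rw [hs] at h
      simp only [Sum.elim_inl, Sum.inr.injEq, Prod.mk.injEq] at h
      rw [← h.2]
      exact simOut_rest (hst w) (y := z.1) hs
    | inr q => rw [hs] at h; cases h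
  · intro w a ha
    obtain ⟨y, r, h1, h2, _⟩ := simOut_isLeft (hst w) a ha
    exact ⟨y.toBool, r, by rw [nxOf, h1]; rfl, by omega⟩
  · intro w
    obtain ⟨log, y, t, h1, h2, h3, h4, h5⟩ := hp w
    obtain ⟨t', h6⟩ := hrun w log y t h1 (by
      rw [wclock_length]
      exact h3.trans (he _))
    refine ⟨log, fun e he => ⟨?_, h5 e he⟩, ?_, ?_⟩
    · have := h2 e he
      cases hb : e.2 with
      | true => simpa using this.1 hb
      | false =>
        rw [decide_eq_false_iff_not]
        intro hmem
        rw [this.2 hmem] at hb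
        cases hb
    · intro l₁ e l₂ he
      obtain ⟨q, hq, hs⟩ := simOut_pending h6 he
      rw [nxOf, hs, Sum.elim_inr, hq]
    · intro r
      rw [nxOf, simOut_done h6 r, Sum.elim_inl]
      have : y.toBool = decide (w ∈ A) := by
        rw [Bool.eq_iff_iff, h4, decide_eq_true_iff]
      rw [this]

/-! ### the cheating machine -/

/-- the output of an oracle program for a list of answers -/
noncomputable def lfOf (p : Prog) (u : List Word) (a : List Bool) : List Bool :=
  Sum.elim (fun z => z.1.toWord) (fun _ => []) (simOut p (enc u) a)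

/-- the first query -/
noncomputable def fqOf (p : Prog) (u : List Word) : Word :=
  Sum.elim (fun _ => []) (fun q => q.toWord) (simOut p (enc u) [])

/-- the outputs for all lists of `m + 1` answers starting with `b` -/
noncomputable def lvOf (p : Prog) (m : ℕ) (u : List Word) (b : Bool) : List (List Bool) :=
  (tuples [true, false] m).map fun a => lfOf p u (b :: a)

theorem pt_lfOf {p : Prog} {B : ℕ → ℕ} (hB : PB B)
    (h : ∀ x : List Word, StopsWithin p (enc x) (B (enc x).dep)) {u : α → List Word}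
    {a : α → List Bool} (hu : PT u) (ha : PT a) : PT fun x => lfOf p (u x) (a x) :=
  PT.sumCases (f := fun x => simOut p (enc (u x)) (a x))
    (g := fun _ (z : Tr × List Bool) => z.1.toWord) (h := fun _ _ => ([] : List Bool))
    ((PT.simOut' hB h).comp (PT.pair hu ha)) (PT.toWord.comp (PT.fst PT.snd'))
    (PT.nil (β := Bool))

theorem pt_fqOf {p : Prog} {B : ℕ → ℕ} (hB : PB B)
    (h : ∀ x : List Word, StopsWithin p (enc x) (B (enc x).dep)) : PT (fqOf p) :=
  PT.sumCases (f := fun u : List Word => simOut p (enc u) [])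
    (g := fun _ (_ : Tr × List Bool) => ([] : Word)) (h := fun _ q => q.toWord)
    ((PT.simOut' hB h).comp (PT.pair PT.id (PT.nil (β := Bool)))) (PT.nil (β := Bool))
    (PT.toWord.comp PT.snd')

theorem pt_lvOf {p : Prog} {B : ℕ → ℕ} (hB : PB B)
    (h : ∀ x : List Word, StopsWithin p (enc x) (B (enc x).dep)) (m : ℕ) :
    PT fun z : List Word × Bool => lvOf p m z.1 z.2 :=
  PT.map (l := fun _ => tuples [true, false] m)
    (g := fun (z : List Word × Bool) a => lfOf p z.1 (z.2 :: a)) (PT.const _)
    (pt_lfOf hB h (PT.fst PT.fst') (PT.cons (PT.snd PT.fst') PT.snd'))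

theorem lvOf_length (p : Prog) (m : ℕ) (u : List Word) (b : Bool) :
    (lvOf p m u b).length = 2 ^ m := by
  rw [lvOf, List.length_map, length_tuples]
  rfl

/-- the clock for lists of words -/
def lclock (c : ℕ) (ws : List Word) : List Unit :=
  fuel (() :: () :: ws.flatMap fun w => w.map fun _ => ()) c

theorem lclock_length (c : ℕ) (ws : List Word) :
    (lclock c ws).length = ((ws.map List.length).sum + 2) ^ c := by
  rw [lclock, length_fuel]
  simp [List.length_flatMap]

theorem pt_lclock (c : ℕ) : PT (lclock c) :=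
  PT.fuel (PT.cons (PT.const ()) (PT.cons (PT.const ())
    (PT.flatMap (g := fun _ (w : Word) => w.map fun _ => ()) PT.id
      (PT.map (g := fun _ (_ : Bool) => ()) PT.snd' (PT.const ()))))) c

open Classical in
theorem exists_lv {A : Set Word} {n m : ℕ} (hA : Cheatable n (m + 1) A) :
    ∃ (fq : List Word → Word) (lv : List Word → Bool → List (List Bool)), PT fq ∧
      (PT fun z : List Word × Bool => lv z.1 z.2) ∧ (∀ u b, (lv u b).length = 2 ^ m) ∧
      ∀ u : List Word, u.length = n →
        (u.map fun w => decide (w ∈ A)) ∈ lv u (decide (fq u ∈ A)) := by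
  obtain ⟨p, c, hp⟩ := hA
  obtain ⟨e, he⟩ := PB.polynomial c
  obtain ⟨p', B, hB, hstop, hrun⟩ := clocked p (pt_lclock e)
  refine ⟨fqOf p', lvOf p' m, pt_fqOf hB hstop, pt_lvOf hB hstop m, lvOf_length p' m, ?_⟩
  intro u hu
  obtain ⟨log, t, h1, h2, h3, h4⟩ := hp u hu
  obtain ⟨t', h6⟩ := hrun u log _ t h1 (by
    rw [lclock_length]
    exact h3.trans (he _))
  cases log with
  | nil =>
    rw [lvOf, List.mem_map]
    refine ⟨List.replicate m true, mem_tuples.2 ⟨by simp, fun a ha => ?_⟩, ?_⟩
    · rw [List.eq_of_mem_replicate ha]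
      simp
    · have := simOut_done h6 (decide (fqOf p' u ∈ A) :: List.replicate m true)
      simp only [List.map_nil, List.nil_append] at this
      rw [lfOf, this, Sum.elim_inl, toWord_enc]
  | cons e l =>
    obtain ⟨q, hq, hs⟩ := simOut_pending h6 (l₁ := []) (e := e) (l₂ := l) rfl
    have hfq : fqOf p' u = e.1 := by
      rw [fqOf]
      simp only [List.map_nil] at hs
      rw [hs, Sum.elim_inr, hq]
    have hb : decide (fqOf p' u ∈ A) = e.2 := by
      rw [hfq, Bool.eq_iff_iff, decide_eq_true_iff]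
      exact (h2 e (by simp)).symm
    rw [hb, lvOf, List.mem_map]
    simp only [List.length_cons] at h4
    refine ⟨l.map Prod.snd ++ List.replicate (m - l.length) true, mem_tuples.2
      ⟨by simp; omega, fun a ha => ?_⟩, ?_⟩
    · cases a <;> simp
    · have := simOut_done h6 (List.replicate (m - l.length) true)
      simp only [List.map_cons, List.cons_append] at this
      rw [lfOf, this, Sum.elim_inl, toWord_enc]

/-! ### the theorem -/

/-- a set with a polynomial-time characteristic function is in P -/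
theorem inP_of_pt {A : Set Word} {f : Word → Bool} (hf : PT f) (h : ∀ w, f w = true ↔ w ∈ A) :
    InP A := by
  obtain ⟨p, B, ⟨e, he⟩, hp⟩ := hf
  refine ⟨p, (Polynomial.X + Polynomial.C 3) ^ e, fun w => ?_⟩
  obtain ⟨t, h1, h2⟩ := hp w
  refine ⟨_, t, h2, ?_, ?_⟩
  · have h3 := dep_word_le w
    have h4 : ((enc w).dep + 2) ^ e ≤ (w.length + 3) ^ e :=
      Nat.pow_le_pow_left (by omega) e
    simp only [Polynomial.eval_pow, Polynomial.eval_add, Polynomial.eval_X, Polynomial.eval_C]
    exact (h1.trans (he _)).trans h4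
  · rw [PT.toBool_enc]
    exact h w

open Classical in
theorem main {k : ℕ} (hk : 2 ≤ k) {A : Set Word} (hS : SelfReducible A)
    (hC : Cheatable (2 ^ k - 1) k A) : InP A := by
  obtain ⟨m, rfl⟩ : ∃ m, k = m + 1 := ⟨k - 1, by omega⟩
  obtain ⟨fq, lv, h1, h2, h3, h4⟩ := exists_lv hC
  obtain ⟨nx, tm, h5, h6, h7⟩ := exists_nx hS
  have hn : 2 ^ (m + 1) - 1 + 1 = 2 * 2 ^ m := by
    have : 0 < 2 ^ m := by positivity
    rw [pow_succ]
    omega
  have hs2 : 2 ≤ 2 ^ m := by
    calc 2 = 2 ^ 1 := rfl
      _ ≤ 2 ^ m := Nat.pow_le_pow_right (by norm_num) (by omega)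
  have hT : PB fun d => (2 ^ (m + 1) - 1 + 1) * (2 ^ (m + 1) - 1 + 1) * (tm d + 1) :=
    (PB.const _).mul (h5.add (PB.const 1))
  obtain ⟨e, he⟩ := hT
  have hfl : ∀ x : Word, (2 ^ (m + 1) - 1 + 1) * (2 ^ (m + 1) - 1 + 1) * (tm x.length + 1) ≤
      (wclock e x).length := by
    intro x
    rw [wclock_length]
    exact he x.length
  have hlv : ∀ u b, (lv u b).length ≤ 2 ^ m := fun u b => (h3 u b).le
  refine inP_of_pt (pt_dec hn hs2 hlv h4 h6 h1 h2 h7 (pt_wclock e) hfl) fun w => ?_
  rw [dec_spec hn hs2 hlv h4 h6 (hfl w), decide_eq_true_iff]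

end Pool.Agent.Lib.MP_4eb50a_lc
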