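import Pool.Agent.Lib.MP_4eb50a_lc.PT

/-!
# Polynomial-time list operations
-/

set_option linter.unusedVariables false

namespace Pool.Agent.Lib.MP_4eb50a_lc

variable {α β γ δ : Type} [Code α] [Code β] [Code γ] [Code δ]

theorem foldl_cons_eq {α β : Type} (f : β → α) (l : List β) (init : List α) :
    l.foldl (fun acc a => f a :: acc) init = (l.map f).reverse ++ init := by
  induction l generalizing init with
  | nil => rfl
  | cons a l ih => simp [ih]

theorem foldl_append_eq {α β : Type} (f : β → List α) (l : List β) (init : List α) :
    l.foldl (fun acc a => acc ++ f a) init = init ++ l.flatMap f := by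
  induction l generalizing init with
  | nil => simp
  | cons a l ih => simp [ih]

theorem foldl_and_eq {β : Type} (f : β → Bool) (l : List β) (init : Bool) :
    l.foldl (fun acc a => acc && f a) init = (init && l.all f) := by
  induction l generalizing init with
  | nil => simp
  | cons a l ih => simp [ih, Bool.and_assoc]

theorem foldl_or_eq {β : Type} (f : β → Bool) (l : List β) (init : Bool) :
    l.foldl (fun acc a => acc || f a) init = (init || l.any f) := by
  induction l generalizing init with
  | nil => simp
  | cons a l ih => simp [ih, Bool.or_assoc]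

namespace PT

theorem revMapAppend {l : α → List β} {g : α → β → γ} {r : α → List γ} (hl : PT l)
    (hg : PT fun p : α × β => g p.1 p.2) (hr : PT r) :
    PT fun x => ((l x).map (g x)).reverse ++ r x := by
  obtain ⟨Bl, hBl, hml, hdl⟩ := hl.dep_bound
  obtain ⟨Bg, hBg, hmg, hdg⟩ := hg.dep_bound
  obtain ⟨Br, hBr, hmr, hdr⟩ := hr.dep_bound
  have key := PT.foldl (l := l) (init := r) (step := fun x acc b => g x b :: acc) hl hr
    (cons (hg.comp (pair fst' (snd snd'))) (fst snd'))
    (fun d => (Bl d + Br d) + (Bg (d + Bl d + 1) + Br d))
    ((hBl.add hBr).add ((hBg.comp ((PB.id.add hBl).add (PB.const 1))).add hBr))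
    (fun x i acc => acc.length = i + (r x).length ∧
      ∀ c ∈ acc, (enc c).dep ≤ Bg ((enc x).dep + Bl (enc x).dep + 1) + Br (enc x).dep)
    (fun x => ⟨by simp, fun c hc => by
      have h1 := dep_lt_of_mem hc
      have h2 := hdr x
      omega⟩)
    (fun x i acc b hb _ h => ⟨by simp [h.1]; omega, fun c hc => by
      rcases List.mem_cons.1 hc with rfl | hc
      · have h1 : (enc (g x b)).dep ≤ Bg (enc (x, b)).dep := hdg (x, b)
        have h2 : (enc (x, b)).dep ≤ (enc x).dep + Bl (enc x).dep + 1 := by
          have := dep_lt_of_mem hb
          have := hdl x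
          rw [dep_pair]; omega
        have h3 := hmg h2
        omega
      · exact h.2 c hc⟩)
    (fun x i acc hi h => by
      have h1 := dep_encList_le h.2
      have h2 := length_le_dep (l x)
      have h3 := hdl x
      have h4 := length_le_dep (r x)
      have h5 := hdr x
      omega)
  refine PT.congr key fun x => ?_
  exact foldl_cons_eq (g x) (l x) (r x)

theorem reverse {l : α → List β} (hl : PT l) : PT fun x => (l x).reverse := by
  have := revMapAppend (g := fun _ b => b) hl snd' (nil (β := β))
  simpa using this

theorem append {l r : α → List β} (hl : PT l) (hr : PT r) : PT fun x => l x ++ r x := by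
  have := revMapAppend (g := fun _ b => b) (reverse hl) snd' hr
  simpa using this

theorem map {l : α → List β} {g : α → β → γ} (hl : PT l)
    (hg : PT fun p : α × β => g p.1 p.2) : PT fun x => (l x).map (g x) := by
  have := reverse (revMapAppend hl hg (nil (β := γ)))
  simpa using this

theorem flatMap {l : α → List β} {g : α → β → List γ} (hl : PT l)
    (hg : PT fun p : α × β => g p.1 p.2) : PT fun x => (l x).flatMap (g x) := by
  obtain ⟨Bl, hBl, hml, hdl⟩ := hl.dep_bound
  obtain ⟨Bg, hBg, hmg, hdg⟩ := hg.dep_bound
  have key := PT.foldl (l := l) (init := fun _ => ([] : List γ))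
    (step := fun x acc b => acc ++ g x b) hl (nil (β := γ))
    (append (fst snd') (hg.comp (pair fst' (snd snd'))))
    (fun d => Bl d * Bg (d + Bl d + 1) + Bg (d + Bl d + 1))
    ((hBl.mul (hBg.comp ((PB.id.add hBl).add (PB.const 1)))).add
      (hBg.comp ((PB.id.add hBl).add (PB.const 1))))
    (fun x i acc => acc.length ≤ i * Bg ((enc x).dep + Bl (enc x).dep + 1) ∧
      ∀ c ∈ acc, (enc c).dep ≤ Bg ((enc x).dep + Bl (enc x).dep + 1))
    (fun x => ⟨by simp, fun c hc => by simp at hc⟩)
    (fun x i acc b hb _ h => by
      have h1 := hdg (x, b)
      have h2 : (enc (x, b)).dep ≤ (enc x).dep + Bl (enc x).dep + 1 := by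
        have := dep_lt_of_mem hb
        have := hdl x
        rw [dep_pair]; omega
      have h3 := hmg h2
      have h4 : (enc (g x b)).dep ≤ Bg ((enc x).dep + Bl (enc x).dep + 1) := h1.trans h3
      refine ⟨?_, fun c hc => ?_⟩
      · have := length_le_dep (g x b)
        have := h.1
        rw [List.length_append, Nat.succ_mul]
        omega
      · rcases List.mem_append.1 hc with hc | hc
        · exact h.2 c hc
        · exact (dep_lt_of_mem hc).le.trans h4)
    (fun x i acc hi h => by
      have h1 := dep_encList_le h.2
      have h2 := length_le_dep (l x)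
      have h3 := hdl x
      have h4 : i ≤ Bl (enc x).dep := by omega
      have h5 := Nat.mul_le_mul_right (Bg ((enc x).dep + Bl (enc x).dep + 1)) h4
      have h6 := h.1
      omega)
  refine PT.congr key fun x => ?_
  rw [foldl_append_eq (g x) (l x) []]
  simp

theorem filter {l : α → List β} {g : α → β → Bool} (hl : PT l)
    (hg : PT fun p : α × β => g p.1 p.2) : PT fun x => (l x).filter (g x) := by
  have key := flatMap (g := fun x b => if g x b then [b] else []) hl
    (ite hg (cons snd' (nil (β := β))) (nil (β := β)))
  refine PT.congr key fun x => ?_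
  induction l x with
  | nil => rfl
  | cons b l ih =>
    rw [List.flatMap_cons, ih, List.filter_cons]
    cases g x b <;> simp

theorem all {l : α → List β} {g : α → β → Bool} (hl : PT l)
    (hg : PT fun p : α × β => g p.1 p.2) : PT fun x => (l x).all (g x) := by
  have key := PT.foldl (l := l) (init := fun _ => true)
    (step := fun x acc b => acc && g x b) hl (const true)
    (and (fst snd') (hg.comp (pair fst' (snd snd')))) (fun _ => 1) (PB.const 1)
    (fun _ _ _ => True) (fun _ => trivial) (fun _ _ _ _ _ _ _ => trivial)
    (fun _ _ b _ _ => dep_bool b)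
  refine PT.congr key fun x => ?_
  rw [foldl_and_eq (g x) (l x) true]
  rfl

theorem any {l : α → List β} {g : α → β → Bool} (hl : PT l)
    (hg : PT fun p : α × β => g p.1 p.2) : PT fun x => (l x).any (g x) := by
  have key := PT.foldl (l := l) (init := fun _ => false)
    (step := fun x acc b => acc || g x b) hl (const false)
    (or (fst snd') (hg.comp (pair fst' (snd snd')))) (fun _ => 1) (PB.const 1)
    (fun _ _ _ => True) (fun _ => trivial) (fun _ _ _ _ _ _ _ => trivial)
    (fun _ _ b _ _ => dep_bool b)
  refine PT.congr key fun x => ?_
  rw [foldl_or_eq (g x) (l x) false]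
  rfl

theorem isEmpty {l : α → List β} (hl : PT l) : PT fun x => (l x).isEmpty := by
  have := listCases (g := fun _ => true) (h := fun _ _ _ => false) hl (const true) (const false)
  refine PT.congr this fun x => ?_
  cases l x <;> rfl

theorem tail {l : α → List β} (hl : PT l) : PT fun x => (l x).tail := by
  have := listCases (g := fun _ => ([] : List β)) (h := fun _ _ l => l) hl (nil (β := β))
    (snd snd')
  refine PT.congr this fun x => ?_
  cases l x <;> rfl

/-- the first element, as a list -/
theorem take1 {l : α → List β} (hl : PT l) : PT fun x => (l x).take 1 := by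
  have := listCases (g := fun _ => ([] : List β)) (h := fun _ b _ => [b]) hl (nil (β := β))
    (cons (fst snd') (nil (β := β)))
  refine PT.congr this fun x => ?_
  cases l x <;> simp

theorem singleton {f : α → β} (hf : PT f) : PT fun x => [f x] := cons hf (nil (β := β))

end PT

/-! ### equality tests -/

/-- equality can be tested in polynomial time -/
class PTEq (α : Type) [Code α] [DecidableEq α] : Prop where
  pt : PT fun p : α × α => decide (p.1 = p.2)

theorem PT.eq [DecidableEq β] [PTEq β] {f g : α → β} (hf : PT f) (hg : PT g) :
    PT fun x => decide (f x = g x) :=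
  (PTEq.pt (α := β)).comp (PT.pair hf hg)

instance : PTEq Bool where
  pt := by
    have := PT.xor (PT.fst' (α := Bool) (β := Bool)) PT.snd'
    refine PT.congr this fun x => ?_
    rcases x with ⟨a, b⟩
    cases a <;> cases b <;> rfl

instance {α β : Type} [Code α] [Code β] [DecidableEq α] [DecidableEq β] [PTEq α] [PTEq β] :
    PTEq (α × β) where
  pt := by
    have := PT.and (PT.eq (PT.fst (PT.fst' (α := α × β) (β := α × β))) (PT.fst PT.snd'))
      (PT.eq (PT.snd (PT.fst' (α := α × β) (β := α × β))) (PT.snd PT.snd'))
    refine PT.congr this fun x => ?_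
    rcases x with ⟨⟨a, b⟩, c, d⟩
    simp [Prod.ext_iff]

/-- compare a list with another one, element by element -/
def eqStep {α : Type} [DecidableEq α] (s : List α × Bool) (a : α) : List α × Bool :=
  match s.1 with
  | [] => ([], false)
  | b :: r => (r, s.2 && decide (a = b))

theorem eqStep_false {α : Type} [DecidableEq α] (l r : List α) :
    (l.foldl eqStep (r, false)).2 = false := by
  induction l generalizing r with
  | nil => rfl
  | cons a l ih =>
    cases r with
    | nil => exact ih []
    | cons b r => exact ih r

theorem eqStep_foldl {α : Type} [DecidableEq α] (l r : List α) :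
    ((l.foldl eqStep (r, true)).2 && (l.foldl eqStep (r, true)).1.isEmpty) =
      decide (l = r) := by
  induction l generalizing r with
  | nil => cases r <;> simp
  | cons a l ih =>
    cases r with
    | nil => simp [eqStep, eqStep_false]
    | cons b r =>
      rw [List.foldl_cons]
      by_cases hab : a = b
      · subst hab
        have : eqStep (a :: r, true) a = (r, true) := by simp [eqStep]
        rw [this, ih]
        simp
      · have : eqStep (b :: r, true) a = (r, false) := by simp [eqStep, hab]
        rw [this, eqStep_false]
        simp [hab]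

instance {α : Type} [Code α] [DecidableEq α] [PTEq α] : PTEq (List α) where
  pt := by
    have hstep : PT fun p : (List α × List α) × ((List α × Bool) × α) =>
        eqStep p.2.1 p.2.2 := by
      have := PT.listCases (α := (List α × List α) × ((List α × Bool) × α))
        (f := fun p => p.2.1.1) (g := fun _ => (([] : List α), false))
        (h := fun p b r => (r, p.2.1.2 && decide (p.2.2 = b)))
        (PT.fst (PT.fst PT.snd')) (PT.const _)
        (PT.pair (PT.snd PT.snd') (PT.and (PT.snd (PT.fst (PT.snd PT.fst')))
          (PT.eq (PT.snd (PT.snd PT.fst')) (PT.fst PT.snd'))))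
      refine PT.congr this fun p => ?_
      rcases p with ⟨_, ⟨⟨r, b⟩, a⟩⟩
      cases r <;> rfl
    have key := PT.foldl (α := List α × List α) (l := fun p => p.1)
      (init := fun p => (p.2, true)) (step := fun _ s a => eqStep s a) PT.fst'
      (PT.pair PT.snd' (PT.const true)) hstep (fun d => d + 2) (PB.id.add (PB.const 2))
      (fun p _ s => (enc s.1).dep ≤ (enc p.2).dep) (fun p => le_rfl)
      (fun p i s a _ _ h => by
        rcases s with ⟨r, b⟩
        cases r with
        | nil => exact h
        | cons c r =>
          simp only [eqStep] at h ⊢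
          have : (enc r).dep ≤ (enc (c :: r)).dep := by
            change _ ≤ (Tr.cons (enc c) (enc r)).dep
            simp only [Tr.dep]
            omega
          exact this.trans h)
      (fun p i s _ h => by
        rcases s with ⟨r, b⟩
        have h1 := dep_bool b
        have h2 : (enc p).dep = max (enc p.1).dep (enc p.2).dep + 1 := rfl
        rw [dep_pair]
        simp only at h ⊢
        omega)
    have := PT.and (PT.snd key) (PT.isEmpty (PT.fst key))
    refine PT.congr this fun p => ?_
    exact eqStep_foldl p.1 p.2

namespace PT

theorem contains [DecidableEq β] [PTEq β] {l : α → List β} {b : α → β} (hl : PT l) (hb : PT b)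
    {inst : ∀ x, Decidable (b x ∈ l x)} : PT fun x => @decide (b x ∈ l x) (inst x) := by
  have := any (g := fun x c => decide (b x = c)) hl (eq (hb.comp fst') snd')
  refine PT.congr this fun x => ?_
  rw [Bool.eq_iff_iff]
  simp

end PT

/-! ### length comparison and clocks -/

/-- `|u| < |v|` -/
def ltLen {α β : Type} (u : List α) (v : List β) : Bool := decide (u.length < v.length)

theorem foldl_tail {α β : Type} (u : List α) (v : List β) :
    u.foldl (fun (r : List β) _ => r.tail) v = v.drop u.length := by
  induction u generalizing v with
  | nil => simp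
  | cons a u ih =>
    rw [List.foldl_cons, ih, List.length_cons]
    cases v <;> simp

theorem PT.ltLen {u : α → List β} {v : α → List γ} (hu : PT u) (hv : PT v) :
    PT fun x => ltLen (u x) (v x) := by
  obtain ⟨Bv, hBv, hmv, hdv⟩ := hv.dep_bound
  have key := PT.foldl (l := u) (init := v) (step := fun _ r _ => r.tail) hu hv
    (PT.tail (PT.fst PT.snd')) Bv hBv
    (fun x _ r => (enc r).dep ≤ (enc (v x)).dep) (fun _ => le_rfl)
    (fun x i r _ _ _ h => by
      cases r with
      | nil => exact h
      | cons c r =>
        have : (enc r).dep ≤ (enc (c :: r)).dep := by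
          change _ ≤ (Tr.cons (enc c) (enc r)).dep
          simp only [Tr.dep]
          omega
        exact this.trans h)
    (fun x i r _ h => h.trans (hdv x))
  refine PT.congr (PT.not (PT.isEmpty key)) fun x => ?_
  rw [foldl_tail, Pool.Agent.Lib.MP_4eb50a_lc.ltLen, Bool.eq_iff_iff]
  simp

/-- a list of length `|m| ^ c` -/
def fuel (m : List Unit) : ℕ → List Unit
  | 0 => [()]
  | c + 1 => m.flatMap fun _ => fuel m c

theorem length_fuel (m : List Unit) (c : ℕ) : (fuel m c).length = m.length ^ c := by
  induction c with
  | zero => rfl
  | succ c ih =>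
    rw [fuel, List.length_flatMap]
    simp [ih, pow_succ, mul_comm]

theorem PT.fuel {m : α → List Unit} (hm : PT m) (c : ℕ) : PT fun x => fuel (m x) c := by
  induction c with
  | zero => exact PT.const _
  | succ c ih => exact PT.flatMap hm (ih.comp PT.fst')

/-- all lists of length `n` with entries in `l` -/
def tuples {α : Type} (l : List α) : ℕ → List (List α)
  | 0 => [[]]
  | n + 1 => l.flatMap fun a => (tuples l n).map fun t => a :: t

theorem mem_tuples {α : Type} {l : List α} {n : ℕ} {t : List α} :
    t ∈ tuples l n ↔ t.length = n ∧ ∀ a ∈ t, a ∈ l := by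
  induction n generalizing t with
  | zero =>
    simp only [tuples, List.mem_singleton, List.length_eq_zero_iff]
    constructor
    · rintro rfl; simp
    · rintro ⟨h, _⟩; exact h
  | succ n ih =>
    simp only [tuples, List.mem_flatMap, List.mem_map]
    constructor
    · rintro ⟨a, ha, s, hs, rfl⟩
      obtain ⟨h1, h2⟩ := ih.1 hs
      exact ⟨by simp [h1], by simpa using ⟨ha, h2⟩⟩
    · rintro ⟨h1, h2⟩
      cases t with
      | nil => simp at h1
      | cons a s =>
        exact ⟨a, h2 a (by simp), s, ih.2 ⟨by simpa using h1, fun b hb => h2 b (by simp [hb])⟩,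
          rfl⟩

theorem PT.tuples {l : α → List β} (hl : PT l) (n : ℕ) : PT fun x => tuples (l x) n := by
  induction n with
  | zero => exact PT.const _
  | succ n ih =>
    exact PT.flatMap hl (PT.map (ih.comp PT.fst') (PT.cons (PT.snd PT.fst') PT.snd'))

end Pool.Agent.Lib.MP_4eb50a_lc
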