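import Pool.Agent.Lib.MP_4eb50a_lc.Compress

/-!
# The decision procedure

`nx w a` is the state of the self-reduction on input `w` after the answers `a`: its next query, or
its output together with the unused answers.
-/

set_option linter.unusedVariables false

namespace Pool.Agent.Lib.MP_4eb50a_lc

section defs

variable (nx : Word → List Bool → Word ⊕ (Bool × List Bool))

/-- evaluate a word: ask it if it is shorter than `L`, otherwise run the self-reduction -/
def ev (L w : Word) (a : List Bool) : Word ⊕ (Bool × List Bool) :=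
  if ltLen w L then (match a with
    | [] => .inl w
    | b :: r => .inr (b, r)) else nx w a

/-- evaluate one more word -/
def rawStep (L : Word) (st : Word ⊕ (List Lit × List Bool)) (w : Word) :
    Word ⊕ (List Lit × List Bool) :=
  Sum.elim (fun q => .inl q) (fun p => Sum.elim (fun q => .inl q)
    (fun e => .inr ((w, e.1) :: p.1, e.2)) (ev nx L w p.2)) st

/-- the words of a disjunction of conjunctions -/
def words (F : List (List Lit)) : List Word := F.flatMap fun c => c.map Prod.fst

/-- evaluate all words -/
def raw (F : List (List Lit)) (L : Word) (a : List Bool) : Word ⊕ (List Lit × List Bool) :=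
  (words F).foldl (rawStep nx L) (.inr ([], a))

/-- the value of a disjunction of conjunctions -/
def value (F : List (List Lit)) (K : List Lit) : Bool :=
  F.any fun c => c.all fun l => decide (l ∈ K)

/-- the adaptive procedure which evaluates `F` -/
def gstep (F : List (List Lit)) (L : Word) (a : List Bool) : Word ⊕ Bool :=
  Sum.elim (fun q => if ltLen q L then .inl q else .inr true) (fun p => .inr (value F p.1))
    (raw nx F L a)

variable (n : ℕ) (fq : List Word → Word) (lv : List Word → Bool → List (List Bool))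

/-- one round -/
def mstep (x : Word) (fl : List Unit) (st : List (List Lit) × Word) : List (List Lit) × Word :=
  (compress n fq lv x (gstep nx st.1 st.2) fl, st.2.tail)

/-- all rounds -/
def mainF (x : Word) (fl : List Unit) : List (List Lit) × Word :=
  (true :: x).foldl (fun st _ => mstep nx n fq lv x fl st) ([[(x, true)]], x)

/-- the decision procedure -/
def dec (x : Word) (fl : List Unit) : Bool := !(mainF nx n fq lv x fl).1.isEmpty

end defs

/-- the properties of the self-reduction -/
structure NXOK (χ : Word → Bool) (nx : Word → List Bool → Word ⊕ (Bool × List Bool))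
    (tm : ℕ → ℕ) : Prop where
  mono : Monotone tm
  rest : ∀ w a v r, nx w a = .inr (v, r) → r.length ≤ a.length
  stop : ∀ w a, tm w.length ≤ a.length →
    ∃ v r, nx w a = .inr (v, r) ∧ a.length ≤ r.length + tm w.length
  run : ∀ w : Word, ∃ log : List Lit, (∀ e ∈ log, χ e.1 = e.2 ∧ e.1.length < w.length) ∧
    (∀ l₁ e l₂, log = l₁ ++ e :: l₂ → nx w (l₁.map Prod.snd) = .inl e.1) ∧
    ∀ r, nx w (log.map Prod.snd ++ r) = .inr (χ w, r)

/-- with correct answers the procedure `g` asks only words shorter than `L` and its output is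
`v` -/
def TR {α : Type} (χ : Word → Bool) (L : ℕ) (g : List Bool → Word ⊕ (α × List Bool)) (v : α) :
    Prop :=
  ∃ log : List Lit, (∀ e ∈ log, χ e.1 = e.2 ∧ e.1.length < L) ∧
    (∀ l₁ e l₂, log = l₁ ++ e :: l₂ → g (l₁.map Prod.snd) = .inl e.1) ∧
    ∀ r, g (log.map Prod.snd ++ r) = .inr (v, r)

theorem split_append' {α : Type} {l₁ l₂ a c : List α} {e : α} (h : l₁ ++ l₂ = a ++ e :: c) :
    (∃ c', l₁ = a ++ e :: c' ∧ c = c' ++ l₂) ∨ (∃ a', a = l₁ ++ a' ∧ l₂ = a' ++ e :: c) := by
  rw [List.append_eq_append_iff] at h
  rcases h with ⟨a', h1, h2⟩ | ⟨c', h1, h2⟩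
  · exact .inr ⟨a', h1, h2⟩
  · cases c' with
    | nil =>
      right
      simp only [List.append_nil] at h1
      simp only [List.nil_append] at h2
      exact ⟨[], by simp [h1], by simp [h2]⟩
    | cons d c' =>
      left
      simp only [List.cons_append, List.cons.injEq] at h2
      obtain ⟨rfl, h2⟩ := h2
      exact ⟨c', h1, h2⟩

variable {χ : Word → Bool} {nx : Word → List Bool → Word ⊕ (Bool × List Bool)} {tm : ℕ → ℕ}

theorem TR.bind {α β : Type} {L : ℕ} {g : List Bool → Word ⊕ (α × List Bool)} {v : α}
    {h : α → List Bool → Word ⊕ (β × List Bool)} {u : β} (hg : TR χ L g v)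
    (hh : TR χ L (h v) u) :
    TR χ L (fun a => Sum.elim (fun q => .inl q) (fun e => h e.1 e.2) (g a)) u := by
  obtain ⟨l, h1, h2, h3⟩ := hg
  obtain ⟨m, k1, k2, k3⟩ := hh
  refine ⟨l ++ m, ?_, ?_, ?_⟩
  · intro e he
    rcases List.mem_append.1 he with he | he
    · exact h1 e he
    · exact k1 e he
  · intro l₁ e l₂ he
    rcases split_append' he with ⟨c', e1, _⟩ | ⟨a', e1, e2⟩
    · simp only
      rw [h2 _ _ _ e1]
      rfl
    · simp only
      rw [e1, List.map_append, h3]
      simp only [Sum.elim_inr]
      exact k2 _ _ _ e2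
  · intro r
    simp only
    rw [List.map_append, List.append_assoc, h3]
    simp only [Sum.elim_inr]
    exact k3 r

theorem ev_TR (hN : NXOK χ nx tm) {L w : Word} (hw : w.length ≤ L.length) :
    TR χ L.length (ev nx L w) (χ w) := by
  by_cases h : ltLen w L = true
  · have hlt : w.length < L.length := by simpa [ltLen] using h
    refine ⟨[(w, χ w)], ?_, ?_, ?_⟩
    · intro e he
      rw [List.mem_singleton] at he
      subst he
      exact ⟨rfl, hlt⟩
    · intro l₁ e l₂ he
      cases l₁ with
      | nil =>
        simp only [List.nil_append, List.cons.injEq] at he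
        rw [← he.1]
        simp [ev, h]
      | cons d l₁ => simp at he
    · intro r
      simp [ev, h]
  · obtain ⟨log, h1, h2, h3⟩ := hN.run w
    refine ⟨log, fun e he => ⟨(h1 e he).1, by have := (h1 e he).2; omega⟩, ?_, ?_⟩
    · intro l₁ e l₂ he
      rw [ev.eq_def, if_neg h]
      exact h2 _ _ _ he
    · intro r
      rw [ev.eq_def, if_neg h]
      exact h3 r

theorem rawFold_inl (L : Word) (ws : List Word) (q : Word) :
    ws.foldl (rawStep nx L) (.inl q) = .inl q := by
  induction ws with
  | nil => rfl
  | cons w ws ih => exact ih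

theorem rawFold_TR (hN : NXOK χ nx tm) {L : Word} (ws : List Word) :
    (∀ w ∈ ws, w.length ≤ L.length) → ∀ K : List Lit,
    TR χ L.length (fun a => ws.foldl (rawStep nx L) (.inr (K, a)))
      ((ws.map fun w => (w, χ w)).reverse ++ K) := by
  induction ws with
  | nil =>
    intro _ K
    exact ⟨[], by simp, by simp, by simp⟩
  | cons w ws ih =>
    intro hw K
    have h1 := (ev_TR hN (hw w (by simp))).bind
      (h := fun v r => ws.foldl (rawStep nx L) (.inr ((w, v) :: K, r)))
      (ih (fun w' hw' => hw w' (by simp [hw'])) ((w, χ w) :: K))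
    have e1 : (fun a => Sum.elim (fun q => .inl q)
        (fun e => ws.foldl (rawStep nx L) (.inr ((w, e.1) :: K, e.2))) (ev nx L w a)) =
        fun a => (w :: ws).foldl (rawStep nx L) (.inr (K, a)) := by
      funext a
      rw [List.foldl_cons, rawStep, Sum.elim_inr]
      cases ev nx L w a with
      | inl q => exact (rawFold_inl L ws q).symm
      | inr e => rfl
    rw [e1] at h1
    simpa using h1

theorem ev_stop (hN : NXOK χ nx tm) {L w : Word} {a : List Bool}
    (ha : tm w.length + 1 ≤ a.length) :
    ∃ v r, ev nx L w a = .inr (v, r) ∧ a.length ≤ r.length + (tm w.length + 1) := by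
  rw [ev.eq_def]
  split_ifs with h
  · cases a with
    | nil => simp at ha
    | cons b r => exact ⟨b, r, rfl, by simp⟩
  · obtain ⟨v, r, h1, h2⟩ := hN.stop w a (by omega)
    exact ⟨v, r, h1, by omega⟩

theorem rawFold_stop (hN : NXOK χ nx tm) {L : Word} {T : ℕ} (ws : List Word) :
    (∀ w ∈ ws, tm w.length + 1 ≤ T) → ∀ (K : List Lit) (a : List Bool),
    ws.length * T ≤ a.length → ∃ K' r, ws.foldl (rawStep nx L) (.inr (K, a)) = .inr (K', r) := by
  induction ws with
  | nil => intro _ K a _; exact ⟨K, a, rfl⟩
  | cons w ws ih =>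
    intro hw K a ha
    rw [List.length_cons, Nat.succ_mul] at ha
    have h0 := hw w (by simp)
    obtain ⟨v, r, h1, h2⟩ := ev_stop hN (L := L) (w := w) (a := a) (by omega)
    rw [List.foldl_cons, rawStep, Sum.elim_inr, h1, Sum.elim_inr]
    exact ih (fun w' hw' => hw w' (by simp [hw'])) _ r (by omega)

theorem value_iff {F : List (List Lit)} {K : List Lit}
    (hK : ∀ w ∈ words F, ∀ b, (w, b) ∈ K ↔ χ w = b) : value F K = true ↔ HoldsD χ F := by
  rw [value, List.any_eq_true, HoldsD]
  refine exists_congr fun c => and_congr_right fun hc => ?_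
  rw [List.all_eq_true]
  refine forall_congr' fun l => imp_congr_right fun hl => ?_
  rw [decide_eq_true_iff]
  exact hK l.1 (List.mem_flatMap.2 ⟨c, hc, List.mem_map.2 ⟨l, hl, rfl⟩⟩) l.2

theorem gstep_GOK (hN : NXOK χ nx tm) {F : List (List Lit)} {L x : Word} {N : ℕ}
    (hw : ∀ w ∈ words F, w.length ≤ L.length) (hF : HoldsD χ F ↔ χ x = true)
    (hT : (words F).length * (tm L.length + 1) ≤ N) :
    GOK χ (gstep nx F L) (χ x) N L.length := by
  refine ⟨?_, ?_, ?_⟩
  · intro a ha
    obtain ⟨K', r, h⟩ := rawFold_stop hN (L := L) (T := tm L.length + 1) (words F)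
      (fun w hw' => by have := hN.mono (hw w hw'); omega) [] a (by omega)
    exact ⟨value F K', by rw [gstep, raw, h, Sum.elim_inr]⟩
  · intro a z h
    rw [gstep] at h
    cases hr : raw nx F L a with
    | inl q =>
      rw [hr, Sum.elim_inl] at h
      split_ifs at h with hq
      have : q = z := Sum.inl.inj h
      subst this
      simpa [ltLen] using hq
    | inr p => rw [hr, Sum.elim_inr] at h; cases h
  · intro a o hp ho
    obtain ⟨log, h1, h2, h3⟩ := rawFold_TR hN (L := L) (words F) hw []
    have hpl : Path (gstep nx F L) (fun z => [χ z]) (log.map Prod.snd) := by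
      intro a₁ b a₂ he
      obtain ⟨l₁, l₂', e1, e2, e3⟩ := List.map_eq_append_iff.1 he
      cases l₂' with
      | nil => simp at e3
      | cons e l₂ =>
        simp only [List.map_cons, List.cons.injEq] at e3
        have h4 : (words F).foldl (rawStep nx L) (.inr ([], l₁.map Prod.snd)) = .inl e.1 :=
          h2 _ _ _ e1
        have h5 := h1 e (by rw [e1]; simp)
        refine ⟨e.1, ?_, ?_⟩
        · rw [← e2, gstep, raw, h4, Sum.elim_inl, if_pos]
          simpa [ltLen] using h5.2
        · change [χ e.1] = [b]
          rw [h5.1, e3.1]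
    have hout : gstep nx F L (log.map Prod.snd) =
        .inr (value F (((words F).map fun w => (w, χ w)).reverse ++ [])) := by
      have : (words F).foldl (rawStep nx L) (.inr ([], log.map Prod.snd ++ [])) = _ := h3 []
      rw [List.append_nil] at this
      rw [gstep, raw, this, Sum.elim_inr]
    have ha := hp.unique hpl ho hout
    subst ha
    rw [ho] at hout
    have ho' := Sum.inr.inj hout
    rw [ho', Bool.eq_iff_iff, value_iff, hF]
    intro w hw' b
    simp only [List.append_nil, List.mem_reverse, List.mem_map, Prod.mk.injEq]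
    constructor
    · rintro ⟨w', _, rfl, h⟩; exact h
    · intro h; exact ⟨w, hw', rfl, h⟩

/-! ### the rounds -/

variable {n s : ℕ} {fq : List Word → Word} {lv : List Word → Bool → List (List Bool)}

/-- the invariant of the rounds -/
def MInv (n : ℕ) (χ : Word → Bool) (x : Word) (j : ℕ) (st : List (List Lit) × Word) : Prop :=
  (HoldsD χ st.1 ↔ χ x = true) ∧ st.1.length ≤ n + 1 ∧
    (∀ c ∈ st.1, c.length ≤ n + 1 ∧ ∀ l ∈ c, l.1.length + j ≤ x.length) ∧ st.2 = x.drop j

theorem MInv.zero {x : Word} : MInv n χ x 0 ([[(x, true)]], x) := by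
  refine ⟨?_, by simp, ?_, by simp⟩
  · simp [HoldsD, Holds]
  · intro c hc
    simp only [List.mem_singleton] at hc
    subst hc
    simp

theorem words_length {F : List (List Lit)} (h1 : F.length ≤ n + 1)
    (h2 : ∀ c ∈ F, c.length ≤ n + 1) : (words F).length ≤ (n + 1) * (n + 1) := by
  have key : ∀ F : List (List Lit), (∀ c ∈ F, c.length ≤ n + 1) →
      (words F).length ≤ F.length * (n + 1) := by
    intro F
    induction F with
    | nil => intro _; simp [words]
    | cons c F ih =>
      intro h
      have h3 := ih fun c hc => h c (by simp [hc])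
      have h4 := h c (by simp)
      rw [words] at h3 ⊢
      rw [List.flatMap_cons, List.length_append, List.length_map, List.length_cons, Nat.succ_mul]
      omega
  exact (key F h2).trans (Nat.mul_le_mul_right _ h1)

theorem mstep_inv (hn : n + 1 = 2 * s) (hs2 : 2 ≤ s) (hlv : ∀ u b, (lv u b).length ≤ s)
    (hM : ∀ u : List Word, u.length = n → u.map χ ∈ lv u (χ (fq u))) (hN : NXOK χ nx tm)
    {x : Word} {fl : List Unit} (hfl : (n + 1) * (n + 1) * (tm x.length + 1) ≤ fl.length)
    {j : ℕ} (hj : j ≤ x.length) {st : List (List Lit) × Word} (h : MInv n χ x j st) :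
    MInv n χ x (j + 1) (mstep nx n fq lv x fl st) := by
  obtain ⟨h1, h2, h3, h4⟩ := h
  have hL : st.2.length = x.length - j := by rw [h4, List.length_drop]
  have hw : ∀ w ∈ words st.1, w.length ≤ st.2.length := by
    intro w hw
    rw [words, List.mem_flatMap] at hw
    obtain ⟨c, hc, hw⟩ := hw
    obtain ⟨l, hl, rfl⟩ := List.mem_map.1 hw
    have := (h3 c hc).2 l hl
    omega
  have hN' : (words st.1).length * (tm st.2.length + 1) ≤
      (n + 1) * (n + 1) * (tm x.length + 1) := by
    have h5 := words_length h2 fun c hc => (h3 c hc).1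
    have h6 : tm st.2.length ≤ tm x.length := hN.mono (by omega)
    exact Nat.mul_le_mul h5 (by omega)
  have hG := gstep_GOK hN hw h1 hN'
  obtain ⟨h5, h6, h7⟩ := compress_spec hn hs2 hlv hM hG hfl
  refine ⟨h5, h6, ?_, ?_⟩
  · intro c hc
    refine ⟨(h7 c hc).1, fun l hl => ?_⟩
    have := (h7 c hc).2 l hl
    omega
  · change st.2.tail = _
    rw [h4, List.tail_drop]

/-- the decision procedure is correct -/
theorem dec_spec (hn : n + 1 = 2 * s) (hs2 : 2 ≤ s) (hlv : ∀ u b, (lv u b).length ≤ s)
    (hM : ∀ u : List Word, u.length = n → u.map χ ∈ lv u (χ (fq u))) (hN : NXOK χ nx tm)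
    {x : Word} {fl : List Unit} (hfl : (n + 1) * (n + 1) * (tm x.length + 1) ≤ fl.length) :
    dec nx n fq lv x fl = χ x := by
  have key : ∀ (m : List Bool) (j : ℕ) (st : List (List Lit) × Word), MInv n χ x j st →
      j + m.length ≤ x.length + 1 →
      MInv n χ x (j + m.length) (m.foldl (fun st _ => mstep nx n fq lv x fl st) st) := by
    intro m
    induction m with
    | nil => intro j st h _; exact h
    | cons b m ih =>
      intro j st h hj
      rw [List.length_cons] at hj ⊢
      rw [List.foldl_cons, show j + (m.length + 1) = j + 1 + m.length by omega]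
      exact ih (j + 1) _ (mstep_inv hn hs2 hlv hM hN hfl (by omega) h) (by omega)
  obtain ⟨h1, h2, h3, h4⟩ := key (true :: x) 0 _ MInv.zero (by simp)
  have h5 : ∀ c ∈ (mainF nx n fq lv x fl).1, c = [] := by
    intro c hc
    by_contra hne
    obtain ⟨l, r, rfl⟩ := List.exists_cons_of_ne_nil hne
    have := (h3 _ hc).2 l (by simp)
    simp at this
    omega
  rw [dec, Bool.eq_iff_iff, ← h1]
  rcases hF : (mainF nx n fq lv x fl).1 with _ | ⟨c, r⟩
  · have hF' := hF
    rw [mainF] at hF'
    rw [hF']
    simp [HoldsD]
  · have hc := h5 c (by rw [hF]; simp)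
    have hF' := hF
    rw [mainF] at hF'
    rw [hF']
    subst hc
    simp [HoldsD, Holds]

end Pool.Agent.Lib.MP_4eb50a_lc
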