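import Mathlib

/-!
# A machine model: pure LISP on binary trees with unit cost

Data are binary trees.  Programs are built from the identity, the constant `nil`, the two
component maps, pairing, composition, branching, while loops and an oracle query.  One step is
charged for each of these operations.

Polynomial time in this model is polynomial time on Turing machines, also in the presence of an
oracle: a step can be simulated with pointers to shared trees in constant time (N. Jones,
Computability and Complexity from a Programming Perspective), and the word of an oracle query is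
not longer than the depth of the input plus the number of steps.
-/

namespace Pool.Agent.Lib.MP_4eb50a_lc

/-- Binary trees. -/
inductive Tr where
  | nil
  | cons (a b : Tr)

namespace Tr

/-- First component. -/
def hd : Tr → Tr
  | nil => nil
  | cons a _ => a

/-- Second component. -/
def tl : Tr → Tr
  | nil => nil
  | cons _ b => b

/-- The tree is a pair (this is the meaning of 'true'). -/
def toBool : Tr → Bool
  | nil => false
  | cons _ _ => true

/-- `nil` is 'false', `cons nil nil` is 'true'. -/
def ofBool : Bool → Tr
  | false => nil
  | true => cons nil nil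

/-- The binary word read off a tree. -/
def toWord : Tr → List Bool
  | nil => []
  | cons a b => toBool a :: toWord b

end Tr

/-- Types whose elements can be stored as trees. -/
class Code (α : Type) where
  /-- the tree that stores an element -/
  enc : α → Tr

export Code (enc)

instance : Code Bool := ⟨Tr.ofBool⟩

/-- Lists are stored as right combs. -/
def encList {α : Type} [Code α] : List α → Tr
  | [] => Tr.nil
  | a :: l => Tr.cons (enc a) (encList l)

instance {α : Type} [Code α] : Code (List α) := ⟨encList⟩

/-- Programs. -/
inductive Prog where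
  /-- return the input -/
  | id
  /-- return `nil` -/
  | nil
  /-- return the first component of the input -/
  | hd
  /-- return the second component of the input -/
  | tl
  /-- return the pair of the results of `p` and `q` on the input -/
  | cons (p q : Prog)
  /-- run `p` and then `q` on its result -/
  | comp (p q : Prog)
  /-- if `p` returns a pair on the input then run `q` on the input, otherwise `r` -/
  | cond (p q r : Prog)
  /-- while `p` returns a pair on the current value replace this value by the result of `q` -/
  | loop (p q : Prog)
  /-- ask the oracle about the word stored in the input -/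
  | ask

/-- Binary words. -/
abbrev Word := List Bool

/-- `Run p x log y t`: the program `p` on input `x` stops with output `y` after `t` steps, and
`log` is the list of the oracle queries it made, together with the answers it received. -/
inductive Run : Prog → Tr → List (Word × Bool) → Tr → ℕ → Prop
  | id (x : Tr) : Run .id x [] x 1
  | nil (x : Tr) : Run .nil x [] .nil 1
  | hd (x : Tr) : Run .hd x [] x.hd 1
  | tl (x : Tr) : Run .tl x [] x.tl 1
  | cons {p q : Prog} {x y z : Tr} {l₁ l₂ : List (Word × Bool)} {t₁ t₂ : ℕ} :
      Run p x l₁ y t₁ → Run q x l₂ z t₂ →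
      Run (.cons p q) x (l₁ ++ l₂) (.cons y z) (t₁ + t₂ + 1)
  | comp {p q : Prog} {x y z : Tr} {l₁ l₂ : List (Word × Bool)} {t₁ t₂ : ℕ} :
      Run p x l₁ y t₁ → Run q y l₂ z t₂ → Run (.comp p q) x (l₁ ++ l₂) z (t₁ + t₂ + 1)
  | condT {p q r : Prog} {x c y : Tr} {l₁ l₂ : List (Word × Bool)} {t₁ t₂ : ℕ} :
      Run p x l₁ c t₁ → c.toBool = true → Run q x l₂ y t₂ →
      Run (.cond p q r) x (l₁ ++ l₂) y (t₁ + t₂ + 1)
  | condF {p q r : Prog} {x c y : Tr} {l₁ l₂ : List (Word × Bool)} {t₁ t₂ : ℕ} :
      Run p x l₁ c t₁ → c.toBool = false → Run r x l₂ y t₂ →
      Run (.cond p q r) x (l₁ ++ l₂) y (t₁ + t₂ + 1)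
  | loopStop {p q : Prog} {x c : Tr} {l₁ : List (Word × Bool)} {t₁ : ℕ} :
      Run p x l₁ c t₁ → c.toBool = false → Run (.loop p q) x l₁ x (t₁ + 1)
  | loopStep {p q : Prog} {x c y z : Tr} {l₁ l₂ l₃ : List (Word × Bool)} {t₁ t₂ t₃ : ℕ} :
      Run p x l₁ c t₁ → c.toBool = true → Run q x l₂ y t₂ → Run (.loop p q) y l₃ z t₃ →
      Run (.loop p q) x (l₁ ++ l₂ ++ l₃) z (t₁ + t₂ + t₃ + 1)
  | ask (x : Tr) (b : Bool) : Run .ask x [(x.toWord, b)] (.ofBool b) 1

/-- The class P: some program decides membership in `A` without oracle queries within a number of
steps bounded by a polynomial in the length of the input word. -/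
def InP (A : Set Word) : Prop :=
  ∃ (p : Prog) (c : Polynomial ℕ), ∀ w : Word, ∃ (y : Tr) (t : ℕ),
    Run p (enc w) [] y t ∧ t ≤ c.eval w.length ∧ (y.toBool = true ↔ w ∈ A)

/-- All answers in the log are correct for the oracle `A`. -/
def Correct (A : Set Word) (log : List (Word × Bool)) : Prop :=
  ∀ e ∈ log, (e.2 = true ↔ e.1 ∈ A)

/-- `A` is (Turing) self-reducible: some polynomial-time oracle machine with oracle `A` accepts
exactly `A` and queries, on input `w`, only words shorter than `w`. -/
def SelfReducible (A : Set Word) : Prop :=
  ∃ (p : Prog) (c : Polynomial ℕ), ∀ w : Word, ∃ (log : List (Word × Bool)) (y : Tr) (t : ℕ),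
    Run p (enc w) log y t ∧ Correct A log ∧ t ≤ c.eval w.length ∧
    (y.toBool = true ↔ w ∈ A) ∧ ∀ e ∈ log, e.1.length < w.length

open Classical in
/-- `A` is (`n` for `k`) p-cheatable: some polynomial-time oracle machine with oracle `A`, given
words `w₁, …, wₙ`, computes with at most `k` queries the list of the truth values of `wᵢ ∈ A`. -/
def Cheatable (n k : ℕ) (A : Set Word) : Prop :=
  ∃ (p : Prog) (c : Polynomial ℕ), ∀ ws : List Word, ws.length = n →
    ∃ (log : List (Word × Bool)) (t : ℕ),
      Run p (enc ws) log (enc (ws.map fun w => decide (w ∈ A))) t ∧ Correct A log ∧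
      t ≤ c.eval (ws.map List.length).sum ∧ log.length ≤ k

end Pool.Agent.Lib.MP_4eb50a_lc
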