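import Pool.Agent.Lib.MP_4eb50a_lc.Model

/-!
# Polynomial-time computable functions between coded types: closure properties
-/

set_option linter.unusedVariables false

namespace Pool.Agent.Lib.MP_4eb50a_lc

namespace Tr

/-- Depth of a tree. -/
def dep : Tr → ℕ
  | nil => 0
  | cons a b => max a.dep b.dep + 1

end Tr

instance : Code Tr := ⟨id⟩

instance : Code Unit := ⟨fun _ => Tr.nil⟩

instance {α β : Type} [Code α] [Code β] : Code (α × β) := ⟨fun x => Tr.cons (enc x.1) (enc x.2)⟩

instance {α β : Type} [Code α] [Code β] : Code (α ⊕ β) :=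
  ⟨fun x => match x with
    | .inl a => Tr.cons Tr.nil (enc a)
    | .inr b => Tr.cons (Tr.cons Tr.nil Tr.nil) (enc b)⟩

/-! ### polynomially bounded functions -/

/-- polynomially bounded -/
def PB (f : ℕ → ℕ) : Prop := ∃ c, ∀ d, f d ≤ (d + 2) ^ c

namespace PB

theorem of_le {f g : ℕ → ℕ} (hg : PB g) (h : ∀ d, f d ≤ g d) : PB f := by
  obtain ⟨c, hc⟩ := hg
  exact ⟨c, fun d => (h d).trans (hc d)⟩

theorem const (n : ℕ) : PB fun _ => n :=
  ⟨n, fun d => (Nat.lt_pow_self (by omega : 1 < d + 2)).le⟩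

theorem id : PB fun d => d := ⟨1, fun d => by simp⟩

theorem mul {f g : ℕ → ℕ} (hf : PB f) (hg : PB g) : PB fun d => f d * g d := by
  obtain ⟨a, ha⟩ := hf
  obtain ⟨b, hb⟩ := hg
  exact ⟨a + b, fun d => by rw [pow_add]; exact Nat.mul_le_mul (ha d) (hb d)⟩

theorem add {f g : ℕ → ℕ} (hf : PB f) (hg : PB g) : PB fun d => f d + g d := by
  obtain ⟨a, ha⟩ := hf
  obtain ⟨b, hb⟩ := hg
  refine ⟨a + b + 1, fun d => ?_⟩
  have h1 : (d + 2) ^ a ≤ (d + 2) ^ (a + b) := Nat.pow_le_pow_right (by omega) (by omega)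
  have h2 : (d + 2) ^ b ≤ (d + 2) ^ (a + b) := Nat.pow_le_pow_right (by omega) (by omega)
  have h3 : 1 ≤ (d + 2) ^ (a + b) := Nat.one_le_pow _ _ (by omega)
  have := ha d
  have := hb d
  calc f d + g d ≤ 2 * (d + 2) ^ (a + b) := by omega
    _ ≤ (d + 2) * (d + 2) ^ (a + b) := Nat.mul_le_mul_right _ (by omega)
    _ = (d + 2) ^ (a + b + 1) := by ring

theorem pow {f : ℕ → ℕ} (hf : PB f) (n : ℕ) : PB fun d => f d ^ n := by
  obtain ⟨a, ha⟩ := hf
  exact ⟨a * n, fun d => by rw [pow_mul]; exact Nat.pow_le_pow_left (ha d) n⟩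

/-- a polynomially bounded function has a monotone polynomially bounded majorant -/
theorem exists_mono {f : ℕ → ℕ} (hf : PB f) :
    ∃ g : ℕ → ℕ, PB g ∧ Monotone g ∧ ∀ d, f d ≤ g d := by
  obtain ⟨c, hc⟩ := hf
  exact ⟨fun d => (d + 2) ^ c, ⟨c, fun _ => le_rfl⟩,
    fun a b h => Nat.pow_le_pow_left (by omega) c, hc⟩

theorem comp {f g : ℕ → ℕ} (hf : PB f) (hg : PB g) : PB fun d => f (g d) := by
  obtain ⟨a, ha⟩ := hf
  have h2 : PB fun d => (g d + 2) ^ a := (hg.add (const 2)).pow a
  exact h2.of_le fun d => ha (g d)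

theorem polynomial (c : Polynomial ℕ) : PB fun d => c.eval d := by
  induction c using Polynomial.induction_on' with
  | add p q hp hq => simpa [Polynomial.eval_add] using hp.add hq
  | monomial n a =>
    have : PB fun d : ℕ => a * d ^ n := (const a).mul (id.pow n)
    simpa [Polynomial.eval_monomial] using this

end PB

/-! ### depth estimates -/

theorem dep_ofBool (b : Bool) : (Tr.ofBool b).dep ≤ 1 := by
  cases b <;> simp [Tr.ofBool, Tr.dep]

theorem dep_hd (x : Tr) : x.hd.dep ≤ x.dep := by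
  cases x <;> simp [Tr.hd, Tr.dep]; omega

theorem dep_tl (x : Tr) : x.tl.dep ≤ x.dep := by
  cases x <;> simp [Tr.tl, Tr.dep]; omega

/-- a run increases the depth by at most its number of steps -/
theorem Run.dep_le {p : Prog} {x y : Tr} {l : List (Word × Bool)} {t : ℕ}
    (h : Run p x l y t) : y.dep ≤ x.dep + t := by
  induction h with
  | id x => omega
  | nil x => simp [Tr.dep]
  | hd x => have := dep_hd x; omega
  | tl x => have := dep_tl x; omega
  | cons _ _ h1 h2 => simp only [Tr.dep]; omega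
  | comp _ _ h1 h2 => omega
  | condT _ _ _ h1 h2 => omega
  | condF _ _ _ h1 h2 => omega
  | loopStop _ _ h1 => omega
  | loopStep _ _ _ _ h1 h2 h3 => omega
  | ask x b => have := dep_ofBool b; omega

theorem dep_encList_le {α : Type} [Code α] {l : List α} {M : ℕ}
    (h : ∀ a ∈ l, (enc a).dep ≤ M) : (enc l).dep ≤ l.length + M := by
  induction l with
  | nil => simp [enc, encList, Tr.dep]
  | cons a l ih =>
    have h1 := h a (by simp)
    have h2 := ih fun b hb => h b (by simp [hb])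
    change (Tr.cons (enc a) (encList l)).dep ≤ _
    have h3 : (encList l).dep ≤ l.length + M := h2
    simp only [Tr.dep, List.length_cons]
    omega

theorem length_le_dep {α : Type} [Code α] (l : List α) : l.length ≤ (enc l).dep := by
  induction l with
  | nil => simp
  | cons a l ih =>
    change _ ≤ (Tr.cons (enc a) (encList l)).dep
    have h3 : l.length ≤ (encList l).dep := ih
    simp only [Tr.dep, List.length_cons]
    omega

theorem dep_lt_of_mem {α : Type} [Code α] {l : List α} {a : α} (h : a ∈ l) :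
    (enc a).dep < (enc l).dep := by
  induction l with
  | nil => simp at h
  | cons b l ih =>
    change _ < (Tr.cons (enc b) (encList l)).dep
    simp only [Tr.dep]
    rcases List.mem_cons.1 h with rfl | h
    · omega
    · have h3 : (enc a).dep < (encList l).dep := ih h
      omega

theorem dep_pair {α β : Type} [Code α] [Code β] (a : α) (b : β) :
    (enc (a, b)).dep = max (enc a).dep (enc b).dep + 1 := rfl

theorem dep_bool (b : Bool) : (enc b).dep ≤ 1 := dep_ofBool b

theorem dep_word_le (w : Word) : (enc w).dep ≤ w.length + 1 :=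
  dep_encList_le fun b _ => dep_bool b

/-! ### the class -/

/-- polynomial-time computable functions -/
def PT {α β : Type} [Code α] [Code β] (f : α → β) : Prop :=
  ∃ (p : Prog) (B : ℕ → ℕ), PB B ∧ ∀ x : α, ∃ t, t ≤ B (enc x).dep ∧ Run p (enc x) [] (enc (f x)) t

variable {α β γ δ X Y : Type} [Code α] [Code β] [Code γ] [Code δ] [Code X] [Code Y]

namespace PT

theorem mono_bound {f : α → β} (h : PT f) :
    ∃ (p : Prog) (B : ℕ → ℕ), PB B ∧ Monotone B ∧
      ∀ x : α, ∃ t, t ≤ B (enc x).dep ∧ Run p (enc x) [] (enc (f x)) t := by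
  obtain ⟨p, B, hB, h⟩ := h
  obtain ⟨B', hB', hm, hle⟩ := hB.exists_mono
  exact ⟨p, B', hB', hm, fun x => by
    obtain ⟨t, ht, hr⟩ := h x
    exact ⟨t, ht.trans (hle _), hr⟩⟩

/-- the output size is polynomially bounded -/
theorem dep_bound {f : α → β} (h : PT f) :
    ∃ B : ℕ → ℕ, PB B ∧ Monotone B ∧ ∀ x, (enc (f x)).dep ≤ B (enc x).dep := by
  obtain ⟨p, B, hB, hm, h⟩ := h.mono_bound
  refine ⟨fun d => d + B d, PB.id.add hB, fun a b hab => Nat.add_le_add hab (hm hab), fun x => ?_⟩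
  obtain ⟨t, ht, hr⟩ := h x
  have := hr.dep_le
  simp only
  omega

theorem congr {f g : α → β} (h : PT f) (e : ∀ x, f x = g x) : PT g := by
  have : f = g := funext e
  rwa [← this]

theorem id : PT fun x : α => x :=
  ⟨.id, fun _ => 1, PB.const 1, fun x => ⟨1, le_rfl, Run.id _⟩⟩

theorem comp {g : β → γ} {f : α → β} (hg : PT g) (hf : PT f) : PT fun x => g (f x) := by
  obtain ⟨p, B, hB, hm, h⟩ := hf.mono_bound
  obtain ⟨q, C, hC, hn, k⟩ := hg.mono_bound
  refine ⟨.comp p q, fun d => B d + C (d + B d) + 1,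
    (hB.add (hC.comp (PB.id.add hB))).add (PB.const 1), fun x => ?_⟩
  obtain ⟨t, ht, hr⟩ := h x
  obtain ⟨s, hs, hq⟩ := k (f x)
  refine ⟨t + s + 1, ?_, Run.comp hr hq⟩
  have h1 := hr.dep_le
  have h2 : C (enc (f x)).dep ≤ C ((enc x).dep + B (enc x).dep) := hn (by omega)
  simp only
  omega

theorem pair {f : α → β} {g : α → γ} (hf : PT f) (hg : PT g) : PT fun x => (f x, g x) := by
  obtain ⟨p, B, hB, h⟩ := hf
  obtain ⟨q, C, hC, k⟩ := hg
  refine ⟨.cons p q, fun d => B d + C d + 1, (hB.add hC).add (PB.const 1), fun x => ?_⟩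
  obtain ⟨t, ht, hr⟩ := h x
  obtain ⟨s, hs, hq⟩ := k x
  refine ⟨t + s + 1, ?_, Run.cons hr hq⟩
  simp only
  omega

theorem fst' : PT fun x : α × β => x.1 :=
  ⟨.hd, fun _ => 1, PB.const 1, fun x => ⟨1, le_rfl, Run.hd _⟩⟩

theorem snd' : PT fun x : α × β => x.2 :=
  ⟨.tl, fun _ => 1, PB.const 1, fun x => ⟨1, le_rfl, Run.tl _⟩⟩

theorem fst {f : α → β × γ} (hf : PT f) : PT fun x => (f x).1 := fst'.comp hf

theorem snd {f : α → β × γ} (hf : PT f) : PT fun x => (f x).2 := snd'.comp hf

/-- build a constant tree -/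
def build : Tr → Prog
  | .nil => .nil
  | .cons a b => .cons (build a) (build b)

theorem build_run (c x : Tr) : ∃ t, ∀ x, Run (build c) x [] c t := by
  induction c with
  | nil => exact ⟨1, fun x => Run.nil _⟩
  | cons a b iha ihb =>
    obtain ⟨t, ht⟩ := iha
    obtain ⟨s, hs⟩ := ihb
    exact ⟨t + s + 1, fun x => Run.cons (ht x) (hs x)⟩

theorem const (b : β) : PT fun _ : α => b := by
  obtain ⟨t, ht⟩ := build_run (enc b) .nil
  exact ⟨build (enc b), fun _ => t, PB.const t, fun x => ⟨t, le_rfl, ht _⟩⟩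

theorem toBool_enc (b : Bool) : (enc b).toBool = b := by cases b <;> rfl

theorem ite {c : α → Bool} {f g : α → β} (hc : PT c) (hf : PT f) (hg : PT g) :
    PT fun x => if c x then f x else g x := by
  obtain ⟨r, D, hD, hc⟩ := hc
  obtain ⟨p, B, hB, h⟩ := hf
  obtain ⟨q, C, hC, k⟩ := hg
  refine ⟨.cond r p q, fun d => D d + (B d + C d) + 1, (hD.add (hB.add hC)).add (PB.const 1),
    fun x => ?_⟩
  obtain ⟨u, hu, hw⟩ := hc x
  obtain ⟨t, ht, hr⟩ := h x
  obtain ⟨s, hs, hq⟩ := k x
  rcases hcx : c x with _ | _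
  · refine ⟨u + s + 1, by simp only; omega, ?_⟩
    rw [hcx] at hw
    simp only [hcx]
    exact Run.condF (l₁ := []) (l₂ := []) hw rfl hq
  · refine ⟨u + t + 1, by simp only; omega, ?_⟩
    rw [hcx] at hw
    simp only [hcx]
    exact Run.condT (l₁ := []) (l₂ := []) hw rfl hr

theorem not {c : α → Bool} (hc : PT c) : PT fun x => !(c x) := by
  have := ite hc (const (α := α) false) (const true)
  exact this.congr fun x => by cases c x <;> rfl

theorem and {c d : α → Bool} (hc : PT c) (hd : PT d) : PT fun x => c x && d x := by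
  have := ite hc hd (const (α := α) false)
  exact this.congr fun x => by cases c x <;> rfl

theorem or {c d : α → Bool} (hc : PT c) (hd : PT d) : PT fun x => c x || d x := by
  have := ite hc (const (α := α) true) hd
  exact this.congr fun x => by cases c x <;> rfl

theorem xor {c d : α → Bool} (hc : PT c) (hd : PT d) : PT fun x => c x == d x := by
  have := ite hc hd (not hd)
  exact this.congr fun x => by cases c x <;> cases d x <;> rfl

/-! ### sums -/

theorem inl {f : α → β} (hf : PT f) : PT fun x => (Sum.inl (f x) : β ⊕ γ) := by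
  obtain ⟨p, B, hB, h⟩ := hf
  refine ⟨.cons .nil p, fun d => B d + 2, hB.add (PB.const 2), fun x => ?_⟩
  obtain ⟨t, ht, hr⟩ := h x
  exact ⟨1 + t + 1, by simp only; omega, Run.cons (Run.nil _) hr⟩

theorem inr {f : α → γ} (hf : PT f) : PT fun x => (Sum.inr (f x) : β ⊕ γ) := by
  obtain ⟨p, B, hB, h⟩ := hf
  refine ⟨.cons (.cons .nil .nil) p, fun d => B d + 4, hB.add (PB.const 4), fun x => ?_⟩
  obtain ⟨t, ht, hr⟩ := h x
  exact ⟨(1 + 1 + 1) + t + 1, by simp only; omega,
    Run.cons (Run.cons (Run.nil _) (Run.nil _)) hr⟩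

theorem sumCases {f : α → β ⊕ γ} {g : α → β → δ} {h : α → γ → δ} (hf : PT f)
    (hg : PT fun p : α × β => g p.1 p.2) (hh : PT fun p : α × γ => h p.1 p.2) :
    PT fun x => Sum.elim (g x) (h x) (f x) := by
  obtain ⟨p, B, hB, hmB, hf⟩ := hf.mono_bound
  obtain ⟨q, C, hC, hmC, hg⟩ := hg.mono_bound
  obtain ⟨r, D, hD, hmD, hh⟩ := hh.mono_bound
  -- `x ↦ (x, f x)`, then branch on the tag
  refine ⟨.comp (.cons .id p)
    (.cond (.comp .tl .hd) (.comp (.cons .hd (.comp .tl .tl)) r)
      (.comp (.cons .hd (.comp .tl .tl)) q)),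
    fun d => B d + C (d + B d + 1) + D (d + B d + 1) + 20,
    ((hB.add (hC.comp ((PB.id.add hB).add (PB.const 1)))).add
      (hD.comp ((PB.id.add hB).add (PB.const 1)))).add (PB.const 20), fun x => ?_⟩
  obtain ⟨t, ht, hr⟩ := hf x
  have hdep := hr.dep_le
  rcases hfx : f x with b | c
  · rw [hfx] at hr hdep
    obtain ⟨s, hs, hq⟩ := hg (x, b)
    have e1 : (enc (x, b)).dep ≤ (enc x).dep + B (enc x).dep + 1 := by
      rw [dep_pair]
      have : (enc (Sum.inl b : β ⊕ γ)).dep = max 0 (enc b).dep + 1 := rfl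
      omega
    have e2 := hmC e1
    refine ⟨(1 + t + 1) + ((1 + 1 + 1) + ((1 + (1 + 1 + 1) + 1) + s + 1) + 1) + 1, ?_, ?_⟩
    · simp only; omega
    · simp only [hfx]
      have h1 : Run (.cons .id p) (enc x) ([] ++ [])
          (.cons (enc x) (enc (Sum.inl b : β ⊕ γ))) (1 + t + 1) := Run.cons (Run.id _) hr
      refine Run.comp h1 (Run.condF (l₁ := []) (l₂ := []) (c := .nil)
        (Run.comp (l₁ := []) (l₂ := []) (Run.tl _) (Run.hd _)) rfl ?_)
      exact Run.comp (l₁ := []) (l₂ := []) (Run.cons (l₁ := []) (l₂ := []) (Run.hd _)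
        (Run.comp (l₁ := []) (l₂ := []) (Run.tl _) (Run.tl _))) hq
  · rw [hfx] at hr hdep
    obtain ⟨s, hs, hq⟩ := hh (x, c)
    have e1 : (enc (x, c)).dep ≤ (enc x).dep + B (enc x).dep + 1 := by
      rw [dep_pair]
      have : (enc (Sum.inr c : β ⊕ γ)).dep = max 1 (enc c).dep + 1 := rfl
      omega
    have e2 := hmD e1
    refine ⟨(1 + t + 1) + ((1 + 1 + 1) + ((1 + (1 + 1 + 1) + 1) + s + 1) + 1) + 1, ?_, ?_⟩
    · simp only; omega
    · simp only [hfx]
      have h1 : Run (.cons .id p) (enc x) ([] ++ [])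
          (.cons (enc x) (enc (Sum.inr c : β ⊕ γ))) (1 + t + 1) := Run.cons (Run.id _) hr
      refine Run.comp h1 (Run.condT (l₁ := []) (l₂ := []) (c := .cons .nil .nil)
        (Run.comp (l₁ := []) (l₂ := []) (Run.tl _) (Run.hd _)) rfl ?_)
      exact Run.comp (l₁ := []) (l₂ := []) (Run.cons (l₁ := []) (l₂ := []) (Run.hd _)
        (Run.comp (l₁ := []) (l₂ := []) (Run.tl _) (Run.tl _))) hq

/-! ### lists -/

theorem nil : PT fun _ : α => ([] : List β) := const []

theorem cons {f : α → β} {g : α → List β} (hf : PT f) (hg : PT g) :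
    PT fun x => f x :: g x := by
  obtain ⟨p, B, hB, h⟩ := hf
  obtain ⟨q, C, hC, k⟩ := hg
  refine ⟨.cons p q, fun d => B d + C d + 1, (hB.add hC).add (PB.const 1), fun x => ?_⟩
  obtain ⟨t, ht, hr⟩ := h x
  obtain ⟨s, hs, hq⟩ := k x
  refine ⟨t + s + 1, ?_, Run.cons hr hq⟩
  simp only
  omega

/-- case distinction on a list -/
theorem listCases {f : α → List β} {g : α → δ} {h : α → β → List β → δ} (hf : PT f) (hg : PT g)
    (hh : PT fun p : α × (β × List β) => h p.1 p.2.1 p.2.2) :
    PT fun x => (match f x with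
      | [] => g x
      | b :: l => h x b l) := by
  obtain ⟨p, B, hB, hmB, hf⟩ := hf.mono_bound
  obtain ⟨q, C, hC, hmC, hg⟩ := hg.mono_bound
  obtain ⟨r, D, hD, hmD, hh⟩ := hh.mono_bound
  refine ⟨.cond p (.comp (.cons .id p) r) q,
    fun d => 2 * B d + C d + D (d + B d + 1) + 20,
    ((((PB.const 2).mul hB).add hC).add
      (hD.comp ((PB.id.add hB).add (PB.const 1)))).add (PB.const 20), fun x => ?_⟩
  obtain ⟨t, ht, hr⟩ := hf x
  have hdep := hr.dep_le
  rcases hfx : f x with _ | ⟨b, l⟩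
  · rw [hfx] at hr
    obtain ⟨s, hs, hq⟩ := hg x
    refine ⟨t + s + 1, by simp only; omega, ?_⟩
    simp only [hfx]
    exact Run.condF (l₁ := []) (l₂ := []) hr rfl hq
  · rw [hfx] at hr hdep
    obtain ⟨s, hs, hq⟩ := hh (x, (b, l))
    have e1 : (enc (x, (b, l))).dep ≤ (enc x).dep + B (enc x).dep + 1 := by
      rw [dep_pair]
      have : (enc (b, l)).dep = (enc (b :: l)).dep := rfl
      omega
    have e2 := hmD e1
    refine ⟨t + ((1 + t + 1) + s + 1) + 1, by simp only; omega, ?_⟩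
    simp only [hfx]
    refine Run.condT (l₁ := []) (l₂ := []) hr rfl ?_
    exact Run.comp (l₁ := []) (l₂ := []) (Run.cons (l₁ := []) (l₂ := []) (Run.id _) hr) hq

/-- iterating a polynomial-time step over a list, under a polynomial bound for the intermediate
values, given by an indexed invariant -/
theorem foldl {l : α → List γ} {init : α → β} {step : α → β → γ → β} (hl : PT l)
    (hi : PT init) (hs : PT fun p : α × (β × γ) => step p.1 p.2.1 p.2.2)
    (B : ℕ → ℕ) (hB : PB B) (I : α → ℕ → β → Prop) (h0 : ∀ x, I x 0 (init x))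
    (hI : ∀ x i b c, c ∈ l x → i < (l x).length → I x i b → I x (i + 1) (step x b c))
    (hb : ∀ x i b, i ≤ (l x).length → I x i b → (enc b).dep ≤ B (enc x).dep) :
    PT fun x => (l x).foldl (step x) (init x) := by
  obtain ⟨pl, Bl, hBl, hml, hl⟩ := hl.mono_bound
  obtain ⟨pi, Bi, hBi, hmi, hi⟩ := hi.mono_bound
  obtain ⟨ps, Bs, hBs, hms, hs⟩ := hs.mono_bound
  -- state `(x, (b, l))`
  let start : Prog := .cons .id (.cons pi pl)
  let body : Prog := .cons .hd (.cons
    (.comp (.cons .hd (.cons (.comp .tl .hd) (.comp (.comp .tl .tl) .hd))) ps)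
    (.comp (.comp .tl .tl) .tl))
  let cnd : Prog := .comp .tl .tl
  let E : ℕ → ℕ := fun d => Bs (d + B d + (d + Bl d) + 2) + 30
  have hE : PB E := (hBs.comp (((PB.id.add hB).add (PB.id.add hBl)).add (PB.const 2))).add
    (PB.const 30)
  refine ⟨.comp start (.comp (.loop cnd body) (.comp .tl .hd)),
    fun d => Bl d + Bi d + (d + Bl d) * E d + 30,
    (((hBl.add hBi).add ((PB.id.add hBl).mul hE)).add (PB.const 30)), fun x => ?_⟩
  obtain ⟨tl, htl, hrl⟩ := hl x
  obtain ⟨ti, hti, hri⟩ := hi x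
  have key : ∀ (m : List γ) (i : ℕ) (b : β), I x i b → (∀ c ∈ m, c ∈ l x) →
      i + m.length = (l x).length → ∃ t, t ≤ m.length * E (enc x).dep + 4 ∧
      Run (.loop cnd body) (.cons (enc x) (.cons (enc b) (enc m))) []
        (.cons (enc x) (.cons (enc (m.foldl (step x) b)) (enc ([] : List γ)))) t := by
    intro m
    induction m with
    | nil =>
      intro i b _ _ _
      refine ⟨(1 + 1 + 1) + 1, by simp, ?_⟩
      exact Run.loopStop (c := .nil) (Run.comp (l₁ := []) (l₂ := []) (Run.tl _) (Run.tl _)) rfl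
    | cons c m ih =>
      intro i b hib hm hlen
      have hc : c ∈ l x := hm c (by simp)
      have hi1 : i < (l x).length := by simp at hlen; omega
      have hib' := hI x i b c hc hi1 hib
      obtain ⟨t, ht, hr⟩ := ih (i + 1) (step x b c) hib' (fun d hd => hm d (by simp [hd]))
        (by simp at hlen; omega)
      obtain ⟨s, hs1, hs2⟩ := hs (x, (b, c))
      have d1 : (enc b).dep ≤ B (enc x).dep := hb x i b hi1.le hib
      have d2 : (enc c).dep < (enc (l x)).dep := dep_lt_of_mem hc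
      have d3 : (enc (l x)).dep ≤ (enc x).dep + tl := hrl.dep_le
      have d4 : (enc (x, (b, c))).dep ≤
          (enc x).dep + B (enc x).dep + ((enc x).dep + Bl (enc x).dep) + 2 := by
        rw [dep_pair, dep_pair]; omega
      have d5 : s ≤ Bs ((enc x).dep + B (enc x).dep + ((enc x).dep + Bl (enc x).dep) + 2) :=
        hs1.trans (hms d4)
      obtain ⟨tb, htb, hbody⟩ : ∃ tb, tb ≤ s + 20 ∧
          Run body (.cons (enc x) (.cons (enc b) (.cons (enc c) (enc m)))) []
            (.cons (enc x) (.cons (enc (step x b c)) (enc m))) tb := by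
        refine ⟨_, ?_, Run.cons (l₁ := []) (l₂ := []) (Run.hd _)
          (Run.cons (l₁ := []) (l₂ := [])
          (Run.comp (l₁ := []) (l₂ := []) (y := enc (x, (b, c)))
            (Run.cons (l₁ := []) (l₂ := []) (Run.hd _) (Run.cons (l₁ := []) (l₂ := [])
              (Run.comp (l₁ := []) (l₂ := []) (Run.tl _) (Run.hd _))
              (Run.comp (l₁ := []) (l₂ := [])
                (Run.comp (l₁ := []) (l₂ := []) (Run.tl _) (Run.tl _)) (Run.hd _)))) hs2)
          (Run.comp (l₁ := []) (l₂ := [])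
              (Run.comp (l₁ := []) (l₂ := []) (Run.tl _) (Run.tl _)) (Run.tl _)))⟩
        omega
      refine ⟨(1 + 1 + 1) + tb + t + 1, ?_, ?_⟩
      · simp only [E, List.length_cons, Nat.succ_mul] at ht ⊢
        omega
      · exact Run.loopStep (l₁ := []) (l₂ := []) (l₃ := []) (c := .cons (enc c) (enc m))
          (Run.comp (l₁ := []) (l₂ := []) (Run.tl _) (Run.tl _)) rfl hbody hr
  obtain ⟨t, ht, hr⟩ := key (l x) 0 (init x) (h0 x) (fun c hc => hc) (by simp)
  have hlen : (l x).length ≤ (enc x).dep + Bl (enc x).dep := by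
    have h1 := length_le_dep (l x)
    have h2 := hrl.dep_le
    omega
  refine ⟨(1 + (ti + tl + 1) + 1) + (t + (1 + 1 + 1) + 1) + 1, ?_, ?_⟩
  · have := Nat.mul_le_mul_right (E (enc x).dep) hlen
    simp only
    omega
  · refine Run.comp (l₁ := []) (l₂ := []) (Run.cons (l₁ := []) (l₂ := []) (Run.id _)
      (Run.cons (l₁ := []) (l₂ := []) hri hrl)) ?_
    exact Run.comp (l₁ := []) (l₂ := []) hr
      (Run.comp (l₁ := []) (l₂ := []) (Run.tl _) (Run.hd _))

end PT

end Pool.Agent.Lib.MP_4eb50a_lc
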