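import Pool.Agent.Lib.MP_4eb50a_lc.Final

/-!
# Sanity checks: sets in P are self-reducible and p-cheatable
-/

set_option linter.unusedVariables false

namespace Pool.Agent.Lib.MP_4eb50a_lc

theorem InP.selfReducible {A : Set Word} (h : InP A) : SelfReducible A := by
  obtain ⟨p, c, hp⟩ := h
  refine ⟨p, c, fun w => ?_⟩
  obtain ⟨y, t, h1, h2, h3⟩ := hp w
  exact ⟨[], y, t, h1, by simp [Correct], h2, h3, by simp⟩

open Classical in
theorem InP.pt {A : Set Word} (h : InP A) : PT fun w : Word => decide (w ∈ A) := by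
  obtain ⟨p, c, hp⟩ := h
  obtain ⟨B, hB, hm, hle⟩ := (PB.polynomial c).exists_mono
  refine ⟨.comp p (.cond .id (.cons .nil .nil) .nil), fun d => B d + 10,
    hB.add (PB.const 10), fun w => ?_⟩
  obtain ⟨y, t, h1, h2, h3⟩ := hp w
  have hl : w.length ≤ (enc w).dep := length_le_dep w
  have h4 := (h2.trans (hle _)).trans (hm hl)
  by_cases hw : w ∈ A
  · have r : Run (.cons .nil .nil) y [] (enc (decide (w ∈ A))) 3 := by
      simp only [hw, decide_true]
      exact Run.cons (l₁ := []) (l₂ := []) (Run.nil _) (Run.nil _)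
    refine ⟨_, ?_, Run.comp (l₁ := []) (l₂ := []) h1
      (Run.condT (l₁ := []) (l₂ := []) (Run.id y) (h3.2 hw) r)⟩
    simp only
    omega
  · have hy : y.toBool = false := by
      rw [← Bool.not_eq_true]
      exact fun e => hw (h3.1 e)
    have r : Run .nil y [] (enc (decide (w ∈ A))) 1 := by
      simp only [hw, decide_false]
      exact Run.nil _
    refine ⟨_, ?_, Run.comp (l₁ := []) (l₂ := []) h1
      (Run.condF (l₁ := []) (l₂ := []) (Run.id y) hy r)⟩
    simp only
    omega

/-- sets in P are (`n` for `0`) p-cheatable for every `n` -/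
theorem InP.cheatable {A : Set Word} (h : InP A) (n k : ℕ) : Cheatable n k A := by
  classical
  obtain ⟨p, B, hB, hp⟩ := PT.map (l := fun ws : List Word => ws)
    (g := fun _ w => decide (w ∈ A)) PT.id (h.pt.comp PT.snd')
  obtain ⟨B', ⟨e, he⟩, hm, hle⟩ := hB.exists_mono
  refine ⟨p, (Polynomial.X + Polynomial.C (n + 3)) ^ e, fun ws hws => ?_⟩
  obtain ⟨t, h1, h2⟩ := hp ws
  refine ⟨[], t, ?_, by simp [Correct], ?_, by simp⟩
  · exact h2
  · have h3 : (enc ws).dep ≤ (ws.map List.length).sum + (n + 1) := by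
      have h4 : ∀ w ∈ ws, (enc w).dep ≤ (ws.map List.length).sum + 1 := by
        intro w hw
        have h5 := dep_word_le w
        have h6 : w.length ≤ (ws.map List.length).sum :=
          List.single_le_sum (by simp) _ (List.mem_map.2 ⟨w, hw, rfl⟩)
        omega
      have h5 := dep_encList_le h4
      omega
    simp only [Polynomial.eval_pow, Polynomial.eval_add, Polynomial.eval_X, Polynomial.eval_C]
    calc t ≤ B' (enc ws).dep := h1.trans (hle _)
      _ ≤ ((enc ws).dep + 2) ^ e := he _
      _ ≤ _ := Nat.pow_le_pow_left (by omega) e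

/-- the characterisation of P -/
theorem inP_iff {k : ℕ} (hk : 2 ≤ k) (A : Set Word) :
    InP A ↔ SelfReducible A ∧ Cheatable (2 ^ k - 1) k A :=
  ⟨fun h => ⟨h.selfReducible, h.cheatable _ _⟩, fun h => main hk h.1 h.2⟩

end Pool.Agent.Lib.MP_4eb50a_lc
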