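import Pool.Agent.Lib.MP_4eb50a_lc.Lists

/-!
# Conjunctions of literals and how to shrink them

`fq u` is the first query of the cheating machine on the tuple `u` and `lv u b` is the list of the
outputs which it can produce if this first query is answered by `b`.
-/

set_option linter.unusedVariables false

namespace Pool.Agent.Lib.MP_4eb50a_lc

/-- literals: a word with a truth value -/
abbrev Lit := Word × Bool

/-- all literals are true -/
def Holds (χ : Word → Bool) (w : List Lit) : Prop := ∀ l ∈ w, χ l.1 = l.2

/-- a disjunction of conjunctions of literals is true -/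
def HoldsD (χ : Word → Bool) (F : List (List Lit)) : Prop := ∃ c ∈ F, Holds χ c

section defs

variable (n : ℕ) (fq : List Word → Word) (lv : List Word → Bool → List (List Bool))

/-- the pattern of the tuple is an output of the cheating machine -/
def isPat (t : List Lit) : Bool :=
  decide (t.map Prod.snd ∈ lv (t.map Prod.fst) true ++ lv (t.map Prod.fst) false)

/-- no `n`-tuple of literals is refuted by the cheating machine -/
def ok (w : List Lit) : Bool := (tuples w n).all fun t => isPat lv t

/-- the literal for the first query which is forced by a tuple of true literals -/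
def forced (t : List Lit) : List Lit :=
  (if decide (t.map Prod.snd ∈ lv (t.map Prod.fst) false) then []
    else [(fq (t.map Prod.fst), true)]) ++
  (if decide (t.map Prod.snd ∈ lv (t.map Prod.fst) true) then []
    else [(fq (t.map Prod.fst), false)])

/-- add all forced literals -/
def ext (w : List Lit) : List Lit := w ++ (tuples w n).flatMap fun t => forced fq lv t

/-- the conjunction is not refuted -/
def alive (w : List Lit) : Bool := ok n lv (ext n fq lv w)

/-- negate one literal of a conjunction -/
def flip (m : Lit) (Z : List Lit) : List Lit :=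
  Z.map fun l => if decide (l = m) then (l.1, !l.2) else l

/-- a literal which may be dropped from a conjunction (none or one) -/
def cands (Z : List Lit) : List Lit :=
  (Z.filter fun m => !(alive n fq lv (flip m Z))).take 1

/-- drop a literal or replace the conjunction by 'false', if possible -/
def red (Z : List Lit) : List (List Lit) :=
  if alive n fq lv Z then [Z.filter fun l => !(decide (l ∈ cands n fq lv Z))] else []

/-- add a literal to a conjunction and reduce it -/
def shrinkStep (S : List (List Lit)) (l : Lit) : List (List Lit) :=
  S.flatMap fun Z => if decide (l ∈ Z) then [Z] else red n fq lv (l :: Z)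

/-- an equivalent short conjunction -/
def shrink (Y : List Lit) : List (List Lit) := Y.foldl (shrinkStep n fq lv) [[]]

end defs

variable {n : ℕ} {fq : List Word → Word} {lv : List Word → Bool → List (List Bool)}
  {χ : Word → Bool}

/-! ### soundness -/

theorem Holds.map_eq {t : List Lit} (h : Holds χ t) :
    t.map Prod.snd = (t.map Prod.fst).map χ := by
  rw [List.map_map]
  exact List.map_congr_left fun l hl => (h l hl).symm

theorem Holds.mono {u w : List Lit} (h : Holds χ w) (hu : ∀ l ∈ u, l ∈ w) : Holds χ u :=
  fun l hl => h l (hu l hl)

theorem Holds.append {u w : List Lit} (hu : Holds χ u) (hw : Holds χ w) : Holds χ (u ++ w) := by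
  intro l hl
  rcases List.mem_append.1 hl with hl | hl
  · exact hu l hl
  · exact hw l hl

theorem ok_of_holds (hM : ∀ u : List Word, u.length = n → u.map χ ∈ lv u (χ (fq u)))
    {w : List Lit} (h : Holds χ w) : ok n lv w = true := by
  rw [ok, List.all_eq_true]
  intro t ht
  obtain ⟨h1, h2⟩ := mem_tuples.1 ht
  have ht' : Holds χ t := h.mono h2
  rw [isPat, decide_eq_true_iff, ht'.map_eq, List.mem_append]
  have := hM (t.map Prod.fst) (by simpa using h1)
  cases hb : χ (fq (t.map Prod.fst)) with
  | true => rw [hb] at this; exact .inl this
  | false => rw [hb] at this; exact .inr this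

theorem forced_holds (hM : ∀ u : List Word, u.length = n → u.map χ ∈ lv u (χ (fq u)))
    {t : List Lit} (h : Holds χ t) (ht : t.length = n) : Holds χ (forced fq lv t) := by
  have := hM (t.map Prod.fst) (by simpa using ht)
  rw [← h.map_eq] at this
  intro l hl
  rw [forced, List.mem_append] at hl
  rcases hl with hl | hl
  · split_ifs at hl with hc
    · simp at hl
    · rw [List.mem_singleton] at hl
      subst hl
      simp only
      cases hb : χ (fq (t.map Prod.fst)) with
      | true => rfl
      | false => rw [hb] at this; exact absurd this (by simpa using hc)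
  · split_ifs at hl with hc
    · simp at hl
    · rw [List.mem_singleton] at hl
      subst hl
      simp only
      cases hb : χ (fq (t.map Prod.fst)) with
      | false => rfl
      | true => rw [hb] at this; exact absurd this (by simpa using hc)

theorem ext_holds (hM : ∀ u : List Word, u.length = n → u.map χ ∈ lv u (χ (fq u)))
    {w : List Lit} (h : Holds χ w) : Holds χ (ext n fq lv w) := by
  refine h.append fun l hl => ?_
  rw [List.mem_flatMap] at hl
  obtain ⟨t, ht, hl⟩ := hl
  obtain ⟨h1, h2⟩ := mem_tuples.1 ht
  exact forced_holds hM (h.mono h2) h1 l hl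

theorem alive_of_holds (hM : ∀ u : List Word, u.length = n → u.map χ ∈ lv u (χ (fq u)))
    {w : List Lit} (h : Holds χ w) : alive n fq lv w = true :=
  ok_of_holds hM (ext_holds hM h)

theorem holds_flip {m : Lit} {Z : List Lit} (h : Holds χ (Z.filter fun l => !(decide (l = m))))
    (hm : χ m.1 ≠ m.2) : Holds χ (flip m Z) := by
  intro l hl
  rw [flip, List.mem_map] at hl
  obtain ⟨l', hl', rfl⟩ := hl
  by_cases hc : l' = m
  · subst hc
    simp only [decide_true, if_true]
    cases h1 : χ l'.1 <;> cases h2 : l'.2 <;> simp_all
  · simp only [hc, decide_false, Bool.false_eq_true, if_false]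
    exact h l' (List.mem_filter.2 ⟨hl', by simp [hc]⟩)

theorem red_holds (hM : ∀ u : List Word, u.length = n → u.map χ ∈ lv u (χ (fq u)))
    {Z : List Lit} : HoldsD χ (red n fq lv Z) ↔ Holds χ Z := by
  constructor
  · rintro ⟨c, hc, h⟩
    rw [red] at hc
    split_ifs at hc with ha
    · rw [List.mem_singleton] at hc
      subst hc
      -- the dropped literal holds as well
      rcases hcs : cands n fq lv Z with _ | ⟨m, r⟩
      · intro l hl
        exact h l (List.mem_filter.2 ⟨hl, by simp [hcs]⟩)
      · have hr : r = [] := by
          have : (cands n fq lv Z).length ≤ 1 := by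
            rw [cands]; exact (List.length_take_le _ _)
          rw [hcs] at this
          simpa using this
        subst hr
        rw [hcs] at h
        have hm : m ∈ Z ∧ alive n fq lv (flip m Z) = false := by
          have : m ∈ cands n fq lv Z := by rw [hcs]; simp
          have := List.mem_of_mem_take this
          rw [List.mem_filter] at this
          simpa using this
        have h' : Holds χ (Z.filter fun l => !(decide (l = m))) := by
          refine h.mono fun l hl => ?_
          rw [List.mem_filter] at hl ⊢
          simpa using hl
        have hχ : χ m.1 = m.2 := by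
          by_contra hne
          have := alive_of_holds hM (holds_flip h' hne)
          rw [hm.2] at this
          cases this
        intro l hl
        by_cases hlm : l = m
        · subst hlm; exact hχ
        · exact h' l (List.mem_filter.2 ⟨hl, by simp [hlm]⟩)
    · simp at hc
  · intro h
    refine ⟨Z.filter fun l => !(decide (l ∈ cands n fq lv Z)), ?_, ?_⟩
    · rw [red, if_pos (alive_of_holds hM h)]
      simp
    · exact h.mono fun l hl => (List.mem_filter.1 hl).1

theorem shrinkStep_holds (hM : ∀ u : List Word, u.length = n → u.map χ ∈ lv u (χ (fq u)))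
    {S : List (List Lit)} {l : Lit} :
    HoldsD χ (shrinkStep n fq lv S l) ↔ HoldsD χ S ∧ χ l.1 = l.2 := by
  constructor
  · rintro ⟨c, hc, h⟩
    rw [shrinkStep, List.mem_flatMap] at hc
    obtain ⟨Z, hZ, hc⟩ := hc
    split_ifs at hc with hl
    · rw [List.mem_singleton] at hc
      subst hc
      exact ⟨⟨c, hZ, h⟩, h l (by simpa using hl)⟩
    · have := (red_holds hM).1 ⟨c, hc, h⟩
      exact ⟨⟨Z, hZ, this.mono fun m hm => List.mem_cons_of_mem _ hm⟩, this l (by simp)⟩
  · rintro ⟨⟨Z, hZ, h⟩, hl⟩
    by_cases hlZ : l ∈ Z
    · exact ⟨Z, by
        rw [shrinkStep, List.mem_flatMap]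
        exact ⟨Z, hZ, by simp [hlZ]⟩, h⟩
    · have h2 : Holds χ (l :: Z) := by
        intro m hm
        rcases List.mem_cons.1 hm with rfl | hm
        · exact hl
        · exact h m hm
      obtain ⟨c, hc, h3⟩ := (red_holds hM).2 h2
      exact ⟨c, by
        rw [shrinkStep, List.mem_flatMap]
        exact ⟨Z, hZ, by simp [hlZ, hc]⟩, h3⟩

theorem shrink_holds (hM : ∀ u : List Word, u.length = n → u.map χ ∈ lv u (χ (fq u)))
    {Y : List Lit} : HoldsD χ (shrink n fq lv Y) ↔ Holds χ Y := by
  have key : ∀ (Y : List Lit) (S : List (List Lit)),
      HoldsD χ (Y.foldl (shrinkStep n fq lv) S) ↔ HoldsD χ S ∧ Holds χ Y := by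
    intro Y
    induction Y with
    | nil => intro S; simp [Holds]
    | cons l Y ih =>
      intro S
      rw [List.foldl_cons, ih, shrinkStep_holds hM, and_assoc]
      constructor
      · rintro ⟨h1, h2, h3⟩
        exact ⟨h1, fun m hm => by
          rcases List.mem_cons.1 hm with rfl | hm
          · exact h2
          · exact h3 m hm⟩
      · rintro ⟨h1, h2⟩
        exact ⟨h1, h2 l (by simp), fun m hm => h2 m (by simp [hm])⟩
  rw [shrink, key]
  constructor
  · exact fun h => h.2
  · exact fun h => ⟨⟨[], by simp, by simp [Holds]⟩, h⟩

end Pool.Agent.Lib.MP_4eb50a_lc
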