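import Pool.Agent.Lib.MP_4eb50a_lc.Comb

/-!
# Running an adaptive procedure in all worlds

`gs : List Bool → Word ⊕ Bool` is an adaptive procedure: it maps the list of the answers received
so far to the next query or to the output.  A world assigns a truth value to `x`, to `y` and to
some further words.
-/

set_option linter.unusedVariables false

namespace Pool.Agent.Lib.MP_4eb50a_lc

/-- what a list of literals says about a word (nothing or one value) -/
def look (K : List Lit) (z : Word) : List Bool :=
  ((K.filter fun e => decide (e.1 = z)).map Prod.snd).take 1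

/-- one step of a procedure -/
def rstep (gs : List Bool → Word ⊕ Bool) (K : List Lit) (a : List Bool) : List Bool :=
  Sum.elim (fun z => a ++ look K z) (fun _ => a) (gs a)

/-- run a procedure with the answers taken from `K` -/
def runW (gs : List Bool → Word ⊕ Bool) (fl : List Unit) (K : List Lit) : List Bool :=
  fl.foldl (fun a _ => rstep gs K a) []

/-- the query which cannot be answered (none or one) -/
def pend (gs : List Bool → Word ⊕ Bool) (fl : List Unit) (K : List Lit) : List Word :=
  Sum.elim (fun z => [z]) (fun _ => []) (gs (runW gs fl K))

/-- the run ends with output 'true' -/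
def out (gs : List Bool → Word ⊕ Bool) (fl : List Unit) (K : List Lit) : Bool :=
  Sum.elim (fun _ => false) (fun o => o) (gs (runW gs fl K))

/-- a world: the values of `x` and `y` and further literals -/
abbrev World := (Bool × Bool) × List Lit

/-- the literals of a world except for that of `x` -/
def know (y : Word) (w : World) : List Lit := (y, w.1.2) :: w.2

/-- all literals of a world -/
def lits (x y : Word) (w : World) : List Lit := (x, w.1.1) :: know y w

/-- the four pairs of values -/
def quad : List (Bool × Bool) := [(true, true), (true, false), (false, true), (false, false)]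

/-- the pairs of values which do not occur -/
def missing (W : List World) : List (Bool × Bool) :=
  quad.filter fun p => !(W.any fun w => decide (w.1 = p))

section defs

variable (n : ℕ) (lv : List Word → Bool → List (List Bool))

/-- all four pairs of values occur, in a small number of worlds -/
def active (W : List World) : Bool :=
  (missing W).isEmpty && !(ltLen (List.replicate (n + 1) ()) W)

/-- add a word to all worlds -/
def addWord (x y : Word) (W : List World) (z : Word) : List World :=
  if active n W then
    (W.flatMap fun w => [(w.1, w.2 ++ [(z, true)]), (w.1, w.2 ++ [(z, false)])]).filter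
      fun w => ok n lv (lits x y w)
  else W

/-- add all pending queries -/
def batch (x y : Word) (gs : List Bool → Word ⊕ Bool) (fl : List Unit) (W : List World) :
    List World :=
  (W.flatMap fun w => pend gs fl (know y w)).foldl (addWord n lv x y) W

/-- the initial worlds -/
def initW (x y : Word) : List World :=
  (quad.map fun p => (p, ([] : List Lit))).filter fun w => ok n lv (lits x y w)

/-- run the procedure in all worlds -/
def worldRun (x y : Word) (gs : List Bool → Word ⊕ Bool) (fl : List Unit) : List World :=
  fl.foldl (fun W _ => batch n lv x y gs fl W) (initW n lv x y)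

end defs

/-! ### runs -/

theorem look_length (K : List Lit) (z : Word) : (look K z).length ≤ 1 := by
  rw [look]; exact List.length_take_le _ _

theorem look_append_of_eq {K E : List Lit} {z : Word} {b : Bool} (h : look K z = [b]) :
    look (K ++ E) z = [b] := by
  rw [look] at h ⊢
  rw [List.filter_append, List.map_append]
  cases hc : List.map Prod.snd (K.filter fun e => decide (e.1 = z)) with
  | nil => rw [hc] at h; simp at h
  | cons c r =>
    rw [hc] at h
    simpa using h

theorem look_mem {K : List Lit} {z : Word} {b : Bool} (h : look K z = [b]) : (z, b) ∈ K := by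
  rw [look] at h
  have h1 : b ∈ (List.map Prod.snd (K.filter fun e => decide (e.1 = z))) :=
    List.mem_of_mem_take (by rw [h]; simp)
  rw [List.mem_map] at h1
  obtain ⟨e, he, rfl⟩ := h1
  rw [List.mem_filter] at he
  obtain ⟨h2, h3⟩ := he
  have : e.1 = z := by simpa using h3
  rw [← this]
  exact h2

theorem look_known {K : List Lit} {z : Word} (h : z ∈ K.map Prod.fst) :
    ∃ b, look K z = [b] := by
  rw [List.mem_map] at h
  obtain ⟨e, he, rfl⟩ := h
  have h1 : e ∈ K.filter fun e' => decide (e'.1 = e.1) := List.mem_filter.2 ⟨he, by simp⟩
  have h2 : e.2 ∈ List.map Prod.snd (K.filter fun e' => decide (e'.1 = e.1)) :=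
    List.mem_map.2 ⟨e, h1, rfl⟩
  obtain ⟨c, r, hc⟩ := List.exists_cons_of_ne_nil (List.ne_nil_of_mem h2)
  exact ⟨c, by rw [look, hc]; rfl⟩

theorem Holds.look_eq {χ : Word → Bool} {K : List Lit} (h : Holds χ K) {z : Word} {b : Bool}
    (hb : look K z = [b]) : χ z = b := h _ (look_mem hb)

/-- `a` is a list of answers according to `f` -/
def Path (gs : List Bool → Word ⊕ Bool) (f : Word → List Bool) (a : List Bool) : Prop :=
  ∀ a₁ b a₂, a = a₁ ++ b :: a₂ → ∃ z, gs a₁ = .inl z ∧ f z = [b]

section path

variable {gs : List Bool → Word ⊕ Bool} {f : Word → List Bool}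

theorem path_nil : Path gs f [] := by
  intro a₁ b a₂ h
  simp at h

theorem Path.concat {a : List Bool} (h : Path gs f a) {z : Word} {b : Bool}
    (hz : gs a = .inl z) (hb : f z = [b]) : Path gs f (a ++ [b]) := by
  intro a₁ c a₂ he
  rcases List.eq_nil_or_concat a₂ with rfl | ⟨r, d, rfl⟩
  · have := List.append_inj_left' he (by simp)
    subst this
    have h2 := List.append_cancel_left he
    simp only [List.cons.injEq, and_true] at h2
    subst h2
    exact ⟨z, hz, hb⟩
  · have h3 : a ++ [b] = (a₁ ++ c :: r) ++ [d] := by rw [he]; simp
    have := List.append_inj_left' h3 (by simp)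
    exact h a₁ c r this

theorem Path.of_prefix {a a' : List Bool} (h : Path gs f a) (hp : a' <+: a) : Path gs f a' := by
  obtain ⟨r, rfl⟩ := hp
  intro a₁ b a₂ he
  exact h a₁ b (a₂ ++ r) (by rw [he]; simp)

theorem Path.mono {a : List Bool} (h : Path gs f a) {g : Word → List Bool}
    (hfg : ∀ z b, f z = [b] → g z = [b]) : Path gs g a := by
  intro a₁ b a₂ he
  obtain ⟨z, h1, h2⟩ := h a₁ b a₂ he
  exact ⟨z, h1, hfg z b h2⟩

/-- paths are comparable -/
theorem Path.prefix_of_le {a a' : List Bool} (h : Path gs f a) (h' : Path gs f a')
    (hl : a.length ≤ a'.length) : a <+: a' := by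
  induction a using List.reverseRecOn with
  | nil => exact List.nil_prefix
  | append_singleton a b ih =>
    have hp := ih (h.of_prefix (List.prefix_append _ _)) (by simp at hl; omega)
    obtain ⟨r, rfl⟩ := hp
    cases r with
    | nil => simp at hl
    | cons c r =>
      obtain ⟨z, h1, h2⟩ := h a b [] rfl
      obtain ⟨z', h1', h2'⟩ := h' a c r rfl
      rw [h1] at h1'
      have : z = z' := Sum.inl.inj h1'
      subst this
      rw [h2] at h2'
      have : b = c := by simpa using h2'
      subst this
      exact ⟨r, by simp⟩

/-- complete paths are unique -/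
theorem Path.unique {a a' : List Bool} (h : Path gs f a) (h' : Path gs f a') {o o' : Bool}
    (ho : gs a = .inr o) (ho' : gs a' = .inr o') : a = a' := by
  have key : ∀ {a a' : List Bool}, Path gs f a → Path gs f a' → ∀ {o : Bool},
      gs a = .inr o → a.length ≤ a'.length → a = a' := by
    intro a a' h h' o ho hl
    obtain ⟨r, rfl⟩ := h.prefix_of_le h' hl
    cases r with
    | nil => simp
    | cons c r =>
      obtain ⟨z, h1, _⟩ := h' a c r rfl
      rw [ho] at h1
      cases h1
  rcases le_total a.length a'.length with hl | hl
  · exact key h h' ho hl
  · exact (key h' h ho' hl).symm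

end path

/-- the specification of an adaptive procedure for the truth value `v` -/
structure GOK (χ : Word → Bool) (gs : List Bool → Word ⊕ Bool) (v : Bool) (N L : ℕ) : Prop where
  stop : ∀ a, N ≤ a.length → ∃ o, gs a = .inr o
  short : ∀ a z, gs a = .inl z → z.length < L
  sound : ∀ a o, Path gs (fun z => [χ z]) a → gs a = .inr o → o = v

section runs

variable {gs : List Bool → Word ⊕ Bool} {N : ℕ}

theorem Path.length_le {f : Word → List Bool} (hs : ∀ a, N ≤ a.length → ∃ o, gs a = .inr o)
    {a : List Bool} (h : Path gs f a) : a.length ≤ N := by
  by_contra hcon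
  push Not at hcon
  have : a = a.take N ++ a[N] :: a.drop (N + 1) := by
    rw [List.cons_getElem_drop_succ, List.take_append_drop]
  obtain ⟨z, h1, _⟩ := h _ _ _ this
  obtain ⟨o, ho⟩ := hs (a.take N) (by simp; omega)
  rw [ho] at h1
  cases h1

theorem rstep_path {K : List Lit} {a : List Bool} (h : Path gs (look K) a) :
    Path gs (look K) (rstep gs K a) := by
  rw [rstep]
  cases hg : gs a with
  | inr o => exact h
  | inl z =>
    simp only [Sum.elim_inl]
    rcases hl : look K z with _ | ⟨b, r⟩
    · simpa using h
    · have : r = [] := by
        have := look_length K z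
        rw [hl] at this
        simpa using this
      subst this
      exact h.concat hg hl

theorem runW_path (fl : List Unit) (K : List Lit) : Path gs (look K) (runW gs fl K) := by
  have key : ∀ (fl : List Unit) (a : List Bool), Path gs (look K) a →
      Path gs (look K) (fl.foldl (fun a _ => rstep gs K a) a) := by
    intro fl
    induction fl with
    | nil => exact fun a h => h
    | cons u fl ih => exact fun a h => ih _ (rstep_path h)
  exact key fl [] path_nil

theorem runW_length (fl : List Unit) (K : List Lit) : (runW gs fl K).length ≤ fl.length := by
  have key : ∀ (fl : List Unit) (a : List Bool),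
      (fl.foldl (fun a _ => rstep gs K a) a).length ≤ a.length + fl.length := by
    intro fl
    induction fl with
    | nil => exact fun a => by simp
    | cons u fl ih =>
      intro a
      rw [List.foldl_cons]
      refine (ih _).trans ?_
      have : (rstep gs K a).length ≤ a.length + 1 := by
        rw [rstep]
        cases gs a with
        | inr o => simp
        | inl z =>
          have := look_length K z
          simp only [Sum.elim_inl, List.length_append]
          omega
      simp only [List.length_cons]
      omega
  simpa [runW] using key fl []

theorem runW_max (hs : ∀ a, N ≤ a.length → ∃ o, gs a = .inr o) {fl : List Unit}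
    (hfl : N ≤ fl.length) {K : List Lit} {a : List Bool} (h : Path gs (look K) a) :
    a <+: runW gs fl K := by
  -- after `m` steps every path of length at most `m` is a prefix
  have key : ∀ (fl : List Unit) (c : List Bool), Path gs (look K) c → ∀ m,
      (∀ a, Path gs (look K) a → a.length ≤ m → a <+: c) →
      ∀ a, Path gs (look K) a → a.length ≤ m + fl.length →
        a <+: fl.foldl (fun a _ => rstep gs K a) c := by
    intro fl
    induction fl with
    | nil => intro c _ m hc a ha hl; exact hc a ha (by simpa using hl)
    | cons u fl ih =>
      intro c hcp m hc a ha hl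
      rw [List.foldl_cons]
      refine ih _ (rstep_path hcp) (m + 1) ?_ a ha (by simp at hl; omega)
      intro a' ha' hl'
      have hpre : c <+: rstep gs K c := by
        rw [rstep]
        cases gs c with
        | inr o => exact List.prefix_rfl
        | inl z => exact List.prefix_append _ _
      rcases Nat.lt_or_ge a'.length (m + 1) with hlt | hge
      · exact (hc a' ha' (by omega)).trans hpre
      · rcases List.eq_nil_or_concat a' with rfl | ⟨r, b, rfl⟩
        · exact List.nil_prefix
        · have hr : Path gs (look K) r := ha'.of_prefix (by simp)
          have hrc := hc r hr (by simp at hl'; omega)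
          rcases Nat.lt_or_ge r.length c.length with hlt | hge
          · -- `c` is longer
            have := ha'.prefix_of_le hcp (by simp; omega)
            exact this.trans hpre
          · have hrc' : r = c := hrc.eq_of_length_le hge
            subst hrc'
            obtain ⟨z, h1, h2⟩ := ha' r b [] (by simp)
            rw [rstep, h1]
            simp only [Sum.elim_inl]
            rw [h2]
            simp
  have h0 := key fl [] path_nil 0 (fun a _ hl => by
    have : a = [] := by simpa using hl
    subst this
    exact List.prefix_rfl) a h (by have := h.length_le hs; omega)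
  exact h0

/-- a run ends with an output or with an unknown query -/
theorem runW_end (hs : ∀ a, N ≤ a.length → ∃ o, gs a = .inr o) {fl : List Unit}
    (hfl : N ≤ fl.length) {K : List Lit} {z : Word} (hz : gs (runW gs fl K) = .inl z) :
    look K z = [] := by
  rcases hl : look K z with _ | ⟨b, r⟩
  · rfl
  · exfalso
    have : r = [] := by
      have := look_length K z
      rw [hl] at this
      simpa using this
    subst this
    have h1 := (runW_path (gs := gs) fl K).concat hz hl
    have h2 := (runW_max hs hfl h1).length_le
    simp at h2

end runs

/-! ### the number of worlds -/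

section count

variable {n s : ℕ} {fq : List Word → Word} {lv : List Word → Bool → List (List Bool)}

/-- distinguishing sets -/
theorem distinguish {β P : Type} [DecidableEq β] (W : Finset β) (val : β → P → Bool)
    (Q : P → Prop) (hsep : ∀ w ∈ W, ∀ w' ∈ W, w ≠ w' → ∃ i, Q i ∧ val w i ≠ val w' i)
    (I₀ : List P) (hQ₀ : ∀ i ∈ I₀, Q i) (r : ℕ)
    (h₀ : r ≤ (W.image fun w => I₀.map (val w)).card) (hne : ∃ i, Q i) :
    ∀ j, r + j ≤ W.card → ∃ I : List P, I.length = I₀.length + j ∧ (∀ i ∈ I, Q i) ∧
      r + j ≤ (W.image fun w => I.map (val w)).card := by
  intro j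
  induction j with
  | zero => intro _; exact ⟨I₀, rfl, hQ₀, h₀⟩
  | succ j ih =>
    intro hj
    obtain ⟨I, h1, h2, h3⟩ := ih (by omega)
    by_cases hinj : ∀ w ∈ W, ∀ w' ∈ W, I.map (val w) = I.map (val w') → w = w'
    · -- already all worlds are distinguished
      obtain ⟨i, hi⟩ := hne
      refine ⟨i :: I, by simp [h1]; omega, by simpa using ⟨hi, h2⟩, ?_⟩
      have : (W.image fun w => (i :: I).map (val w)).card = W.card := by
        apply Finset.card_image_of_injOn
        intro w hw w' hw' h
        simp only [List.map_cons, List.cons.injEq] at h
        exact hinj w hw w' hw' h.2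
      omega
    · push Not at hinj
      obtain ⟨w, hw, w', hw', he, hne'⟩ := hinj
      obtain ⟨i, hi, hv⟩ := hsep w hw w' hw' hne'
      refine ⟨i :: I, by simp [h1]; omega, by simpa using ⟨hi, h2⟩, ?_⟩
      -- the tail map is onto and not injective
      have hlt : (W.image fun w => I.map (val w)).card <
          (W.image fun w => (i :: I).map (val w)).card := by
        have himg : (W.image fun w => I.map (val w)) =
            (W.image fun w => (i :: I).map (val w)).image List.tail := by
          rw [Finset.image_image]
          rfl
        rw [himg]
        apply lt_of_le_of_ne Finset.card_image_le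
        intro hcard
        rw [Finset.card_image_iff] at hcard
        have h4 := hcard (Finset.mem_coe.2 (Finset.mem_image_of_mem _ hw))
          (Finset.mem_coe.2 (Finset.mem_image_of_mem _ hw')) (by simpa using he)
        simp only [List.map_cons, List.cons.injEq] at h4
        exact hv h4.1
      omega

/-- the invariant of a list of worlds -/
structure WOK (n : ℕ) (lv : List Word → Bool → List (List Bool)) (x y : Word) (D : List Word)
    (W : List World) : Prop where
  nodup : W.Nodup
  dom : ∀ w ∈ W, w.2.map Prod.fst = D
  ok : ∀ w ∈ W, ok n lv (lits x y w) = true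

theorem lits_fst {x y : Word} {D : List Word} {w : World} (h : w.2.map Prod.fst = D) :
    (lits x y w).map Prod.fst = x :: y :: D := by
  simp [lits, know, h]

theorem missing_nil {W : List World} (h : missing W = []) (p : Bool × Bool) :
    ∃ w ∈ W, w.1 = p := by
  have hp : p ∈ quad := by
    rcases p with ⟨a, b⟩
    cases a <;> cases b <;> simp [quad]
  by_contra hcon
  have : p ∈ missing W := by
    rw [missing, List.mem_filter]
    refine ⟨hp, ?_⟩
    simp only [Bool.not_eq_true', List.any_eq_false, decide_eq_true_eq]
    intro w hw e
    exact hcon ⟨w, hw, e⟩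
  rw [h] at this
  simp at this

theorem count_worlds (hn : n + 1 = 2 * s) (hs2 : 2 ≤ s) (hlv : ∀ u b, (lv u b).length ≤ s)
    {x y : Word} {D : List Word} {W : List World} (hW : WOK n lv x y D W)
    (hm : missing W = []) : W.length ≤ n + 1 := by
  classical
  by_contra hcon
  push Not at hcon
  let wd : ℕ → Word := fun i => (x :: y :: D).getD i []
  let val : World → ℕ → Bool := fun w i => ((lits x y w).map Prod.snd).getD i false
  let Q : ℕ → Prop := fun i => i < D.length + 2
  have hlen : ∀ w ∈ W, (lits x y w).length = D.length + 2 := by
    intro w hw
    have := congrArg List.length (lits_fst (x := x) (y := y) (hW.dom w hw))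
    simpa using this
  have hmem : ∀ w ∈ W, ∀ i, Q i → (wd i, val w i) ∈ lits x y w := by
    intro w hw i hi
    have h1 := hlen w hw
    have h2 : i < (lits x y w).length := by rw [h1]; exact hi
    have h3 : wd i = (lits x y w)[i].1 := by
      simp only [wd]
      rw [← lits_fst (x := x) (y := y) (hW.dom w hw),
        List.getD_eq_getElem _ _ (by simpa using h2), List.getElem_map]
    have h4 : val w i = (lits x y w)[i].2 := by
      simp only [val]
      rw [List.getD_eq_getElem _ _ (by simpa using h2), List.getElem_map]
    rw [h3, h4]
    exact List.getElem_mem h2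
  have hsep : ∀ w ∈ W.toFinset, ∀ w' ∈ W.toFinset, w ≠ w' → ∃ i, Q i ∧ val w i ≠ val w' i := by
    intro w hw w' hw' hne
    rw [List.mem_toFinset] at hw hw'
    by_contra hc
    push Not at hc
    apply hne
    have h1 : lits x y w = lits x y w' := by
      apply List.ext_getElem (by rw [hlen w hw, hlen w' hw'])
      intro i hi hi'
      have hQi : Q i := by rw [hlen w hw] at hi; exact hi
      have h2 := hc i hQi
      simp only [val] at h2
      rw [List.getD_eq_getElem _ _ (by simpa using hi),
        List.getD_eq_getElem _ _ (by simpa using hi'), List.getElem_map, List.getElem_map] at h2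
      have h3 : ((lits x y w).map Prod.fst)[i]'(by simpa using hi) =
          ((lits x y w').map Prod.fst)[i]'(by simpa using hi') := by
        congr 1
        rw [lits_fst (hW.dom w hw), lits_fst (hW.dom w' hw')]
      rw [List.getElem_map, List.getElem_map] at h3
      exact Prod.ext h3 h2
    simp only [lits, know, List.cons.injEq, Prod.mk.injEq, true_and] at h1
    obtain ⟨h2, h3, h4⟩ := h1
    exact Prod.ext (Prod.ext h2 h3) h4
  have h4 : 4 ≤ (W.toFinset.image fun w => [0, 1].map (val w)).card := by
    have h5 : (Finset.univ : Finset (Bool × Bool)).image (fun p => [p.1, p.2]) ⊆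
        W.toFinset.image fun w => [0, 1].map (val w) := by
      intro v hv
      obtain ⟨p, _, rfl⟩ := Finset.mem_image.1 hv
      obtain ⟨w, hw, hp⟩ := missing_nil hm p
      refine Finset.mem_image.2 ⟨w, List.mem_toFinset.2 hw, ?_⟩
      rw [← hp]
      rfl
    have h6 := Finset.card_le_card h5
    have h7 : ((Finset.univ : Finset (Bool × Bool)).image (fun p => [p.1, p.2])).card = 4 := by
      decide
    omega
  have hWc : W.toFinset.card = W.length := List.toFinset_card_of_nodup hW.nodup
  obtain ⟨I, h5, h6, h7⟩ := distinguish W.toFinset val Q hsep [0, 1]
    (by intro i hi; simp only [List.mem_cons, List.not_mem_nil, or_false] at hi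
        rcases hi with rfl | rfl <;> simp only [Q] <;> omega) 4 h4 ⟨0, by simp only [Q]; omega⟩
    (n - 2) (by rw [hWc]; omega)
  have hI : I.length = n := by rw [h5]; simp; omega
  -- all patterns on `I` are outputs of the machine
  have h8 : (W.toFinset.image fun w => I.map (val w)) ⊆
      (lv (I.map wd) true ++ lv (I.map wd) false).toFinset := by
    intro v hv
    obtain ⟨w, hw, rfl⟩ := Finset.mem_image.1 hv
    rw [List.mem_toFinset] at hw ⊢
    have hok := hW.ok w hw
    rw [ok, List.all_eq_true] at hok
    have h9 := hok (I.map fun i => (wd i, val w i)) (mem_tuples.2 ⟨by simp [hI], by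
      intro l hl
      obtain ⟨i, hi, rfl⟩ := List.mem_map.1 hl
      exact hmem w hw i (h6 i hi)⟩)
    rw [isPat, decide_eq_true_iff, List.map_map, List.map_map] at h9
    exact h9
  have h9 := Finset.card_le_card h8
  have h10 := List.toFinset_card_le (lv (I.map wd) true ++ lv (I.map wd) false)
  rw [List.length_append] at h10
  have h11 := hlv (I.map wd) true
  have h12 := hlv (I.map wd) false
  omega

end count

end Pool.Agent.Lib.MP_4eb50a_lc
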